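import Pool.Agent.Y72.Log.App
import Pool.Agent.H23R2.Odd.Sub

/-!
# Reduction to finitely generated subgroups
-/

set_option autoImplicit false
set_option linter.unusedSectionVars false

namespace Pool.Agent.Y72.Log

open Finset Pool.Agent.H23R2

section fg

variable {Γ : Type*} [Group Γ] {n : ℕ}

/-- every invertible matrix comes from a finitely generated subgroup -/
theorem exists_sub (A : (Matrix (Fin n) (Fin n) (MonoidAlgebra ℤ Γ))ˣ) (H : Subgroup Γ)
    (hH : ∀ i j g, ((A.val i j).coeff g ≠ 0 ∨ ((A⁻¹).val i j).coeff g ≠ 0) → g ∈ H) :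
    ∃ A' : (Matrix (Fin n) (Fin n) (MonoidAlgebra ℤ H))ˣ, A = mpU H.subtype A' := by
  classical
  let j : MonoidAlgebra ℤ H →+* MonoidAlgebra ℤ Γ := mp H.subtype
  have hj : Function.Injective j := MonoidAlgebra.mapDomain_injective H.subtype_injective
  let res : Matrix (Fin n) (Fin n) (MonoidAlgebra ℤ Γ) → Matrix (Fin n) (Fin n) (MonoidAlgebra ℤ H) :=
    fun w => Matrix.of fun a b =>
      MonoidAlgebra.comapDomain H.subtype H.subtype_injective (w a b)
  have hres : ∀ w : Matrix (Fin n) (Fin n) (MonoidAlgebra ℤ Γ),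
      (∀ a b, ∀ g, (w a b).coeff g ≠ 0 → g ∈ H) → (res w).map j = w := by
    intro w hw
    ext1 a b
    exact Odd.restrict_eq H _ (hw a b)
  have hu := hres A.val (fun a b g hg => hH a b g (Or.inl hg))
  have hv := hres (A⁻¹).val (fun a b g hg => hH a b g (Or.inr hg))
  have hone : ∀ w w' : Matrix (Fin n) (Fin n) (MonoidAlgebra ℤ Γ),
      (res w).map j = w → (res w').map j = w' → w * w' = 1 → res w * res w' = 1 := by
    intro w w' h1 h2 h3
    have h4 : (res w * res w').map j = (1 : Matrix (Fin n) (Fin n) (MonoidAlgebra ℤ H)).map j := by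
      rw [Matrix.map_mul, h1, h2, h3]
      ext1 a b
      rw [Matrix.map_apply, Matrix.one_apply, Matrix.one_apply]
      split_ifs <;> simp
    ext1 a b
    apply hj
    exact congrFun (congrFun h4 a) b
  refine ⟨⟨res A.val, res (A⁻¹).val, hone _ _ hu hv A.mul_inv, hone _ _ hv hu A.inv_mul⟩, ?_⟩
  apply Units.ext
  ext1 a b
  exact (congrFun (congrFun hu a) b).symm

/-- the subgroup generated by the supports -/
theorem exists_fg (A : (Matrix (Fin n) (Fin n) (MonoidAlgebra ℤ Γ))ˣ) :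
    ∃ H : Subgroup Γ, H.FG ∧
      ∀ i j g, ((A.val i j).coeff g ≠ 0 ∨ ((A⁻¹).val i j).coeff g ≠ 0) → g ∈ H :=
  ⟨Odd.supGrp A.val (A⁻¹).val, Odd.supGrp_fg _ _,
    fun i j _ hg => Subgroup.subset_closure ⟨i, j, hg⟩⟩

/-- the linear extension of a representation, for infinite groups -/
noncomputable def lrG {R : Type*} [CommRing R] {d : Type*} [Fintype d] [DecidableEq d]
    (ρ : Γ →* Matrix d d R) : MonoidAlgebra ℤ Γ →+* Matrix d d R :=
  (MonoidAlgebra.lift ℤ (Matrix d d R) Γ ρ).toRingHom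

lemma lrG_single {R : Type*} [CommRing R] {d : Type*} [Fintype d] [DecidableEq d]
    (ρ : Γ →* Matrix d d R) (g : Γ) (a : ℤ) :
    lrG ρ (MonoidAlgebra.single g a) = a • ρ g := MonoidAlgebra.lift_single _ _ _

lemma lrG_apply {R : Type*} [CommRing R] {d : Type*} [Fintype d] [DecidableEq d]
    (ρ : Γ →* Matrix d d R) (x : MonoidAlgebra ℤ Γ) (i j : d) :
    lrG ρ x i j = x.coeff.sum fun g a => (a : R) * ρ g i j := by
  show (MonoidAlgebra.lift ℤ (Matrix d d R) Γ ρ x) i j = _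
  rw [MonoidAlgebra.lift_apply, Finsupp.sum, Finsupp.sum, Matrix.sum_apply]
  apply Finset.sum_congr rfl
  intro g _
  rw [Matrix.smul_apply, zsmul_eq_mul]

lemma lrG_mp {Γ' : Type*} [Group Γ'] (π : Γ' →* Γ) {R : Type*} [CommRing R] {d : Type*}
    [Fintype d] [DecidableEq d] (ρ : Γ →* Matrix d d R) (x : MonoidAlgebra ℤ Γ') :
    lrG ρ (mp π x) = lrG (ρ.comp π) x := by
  induction x using MonoidAlgebra.induction_linear with
  | zero => simp only [map_zero]
  | add x y hx hy => simp only [map_add, hx, hy]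
  | single g a =>
    rw [mp_single, lrG_single, lrG_single]
    rfl

lemma blkR_mpU {Γ' : Type*} [Group Γ'] (π : Γ' →* Γ) {R : Type*} [CommRing R] {d : Type*}
    [Fintype d] [DecidableEq d] (ρ : Γ →* Matrix d d R)
    (A : (Matrix (Fin n) (Fin n) (MonoidAlgebra ℤ Γ'))ˣ) :
    blkR (lrG ρ) (mpU π A).val = blkR (lrG (ρ.comp π)) A.val := by
  ext1 x y
  rw [blkR_apply, blkR_apply, ← lrG_mp]
  rfl

/-- the theorem for groups all of whose finitely generated subgroups satisfy the centraliser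
condition -/
theorem det_cen_fg {F : Type*} [Field F] [CharZero F] (hb : ∀ H : Subgroup Γ, H.FG → Cen H) {d : ℕ}
    (A : (Matrix (Fin n) (Fin n) (MonoidAlgebra ℤ Γ))ˣ) (ρ : Γ →* Matrix (Fin d) (Fin d) F)
    (hρ : ∀ H : Subgroup Γ, H.FG → (Set.range (ρ.comp H.subtype)).Finite) :
    ∃ N : ℕ, 0 < N ∧ (blkR (lrG ρ) A.val).det ^ N = 1 := by
  obtain ⟨H, hH, hS⟩ := exists_fg A
  obtain ⟨A', hA'⟩ := exists_sub A H hS
  obtain ⟨N, hN, h1⟩ := det_cen (hb H hH) A' (ρ.comp H.subtype) (hρ H hH)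
  refine ⟨N, hN, ?_⟩
  rw [hA', blkR_mpU, ← h1]
  rfl

end fg

end Pool.Agent.Y72.Log
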