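import Pool.Agent.Y72.Log.CenLin
import Mathlib.FieldTheory.Finite.Basic

/-!
# Linear groups without unipotent elements satisfy the centraliser condition
-/

set_option autoImplicit false
set_option linter.unusedSectionVars false

namespace Pool.Agent.Y72.Log

open Finset Polynomial
open scoped Classical

section eig

variable {L : Type*} [Field L] [IsAlgClosed L] {m : Type*} [Fintype m] [DecidableEq m]

/-- all eigenvalues are roots of unity -/
lemma exists_unip (M : Matrix m m L)
    (h : ∀ x, M.charpoly.IsRoot x → ∃ n : ℕ, 0 < n ∧ x ^ n = 1) :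
    ∃ n : ℕ, 0 < n ∧ IsNilpotent (M ^ n - 1) := by
  have h1 : ∀ s : Multiset L, (∀ x ∈ s, ∃ n : ℕ, 0 < n ∧ x ^ n = 1) →
      ∃ n : ℕ, 0 < n ∧ ∀ x ∈ s, x ^ n = 1 := by
    intro s
    induction s using Multiset.induction_on with
    | empty => intro _; exact ⟨1, one_pos, by simp⟩
    | cons a s ih =>
      intro hs
      obtain ⟨n, hn, h2⟩ := ih (fun x hx => hs x (Multiset.mem_cons_of_mem hx))
      obtain ⟨k, hk, h3⟩ := hs a (Multiset.mem_cons_self a s)
      refine ⟨k * n, Nat.mul_pos hk hn, ?_⟩
      intro x hx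
      rcases Multiset.mem_cons.1 hx with h4 | h4
      · rw [h4, pow_mul, h3, one_pow]
      · rw [mul_comm, pow_mul, h2 x h4, one_pow]
  obtain ⟨n, hn, h2⟩ := h1 M.charpoly.roots
    (fun x hx => h x (Polynomial.isRoot_of_mem_roots hx))
  refine ⟨n, hn, M.charpoly.roots.card, ?_⟩
  have hsplit : M.charpoly = (M.charpoly.roots.map (fun a => X - C a)).prod :=
    (IsAlgClosed.splits M.charpoly).eq_prod_roots_of_monic M.charpoly_monic
  have h3 : ∀ s : Multiset L, (∀ x ∈ s, x ^ n = 1) →
      (s.map (fun a => (X - C a : L[X]))).prod ∣ (X ^ n - 1) ^ s.card := by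
    intro s
    induction s using Multiset.induction_on with
    | empty => intro _; simp
    | cons a s ih =>
      intro hs
      rw [Multiset.map_cons, Multiset.prod_cons, Multiset.card_cons, pow_succ, mul_comm]
      apply mul_dvd_mul
      · exact ih (fun x hx => hs x (Multiset.mem_cons_of_mem hx))
      · rw [dvd_iff_isRoot, IsRoot.def, eval_sub, eval_pow, eval_X, eval_one,
          hs a (Multiset.mem_cons_self a s), sub_self]
  have h4 := h3 _ h2
  rw [← hsplit] at h4
  obtain ⟨Q, hQ⟩ := h4
  have h5 := congrArg (aeval M) hQ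
  rw [map_mul, M.aeval_self_charpoly, zero_mul, map_pow, map_sub, map_pow, aeval_X, map_one] at h5
  exact h5

end eig

section charp

/-- algebraic elements over a finite field are roots of unity -/
lemma rootOfUnity_of_algebraic {p : ℕ} [Fact p.Prime] {L : Type*} [Field L] [Algebra (ZMod p) L]
    {x : L} (hx : IsAlgebraic (ZMod p) x) (hx0 : x ≠ 0) : ∃ n : ℕ, 0 < n ∧ x ^ n = 1 := by
  haveI : FiniteDimensional (ZMod p) (IntermediateField.adjoin (ZMod p) {x}) :=
    IntermediateField.adjoin.finiteDimensional hx.isIntegral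
  haveI : Finite (IntermediateField.adjoin (ZMod p) {x}) := Module.finite_of_finite (ZMod p)
  let y : (IntermediateField.adjoin (ZMod p) {x}) :=
    ⟨x, IntermediateField.mem_adjoin_simple_self (ZMod p) x⟩
  have hy : y ≠ 0 := fun h => hx0 (congrArg Subtype.val h)
  have h1 : IsOfFinOrder (Units.mk0 y hy) := isOfFinOrder_of_finite _
  obtain ⟨n, hn, h2⟩ := isOfFinOrder_iff_pow_eq_one.1 h1
  refine ⟨n, hn, ?_⟩
  have h3 := congrArg (fun u : (IntermediateField.adjoin (ZMod p) {x})ˣ =>
    ((u : IntermediateField.adjoin (ZMod p) {x}) : L)) h2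
  simpa using h3

/-- unipotent matrices in positive characteristic have finite order -/
lemma unip_order {p : ℕ} [Fact p.Prime] {k : Type*} [Field k] [CharP k p] {m : Type*} [Fintype m]
    [DecidableEq m] {M : Matrix m m k} (h : IsNilpotent (M - 1)) : ∃ n : ℕ, 0 < n ∧ M ^ n = 1 := by
  obtain ⟨s, hs⟩ := h
  have hp : p.Prime := Fact.out
  refine ⟨p ^ s, pow_pos hp.pos s, ?_⟩
  rcases isEmpty_or_nonempty m with hm | hm
  · exact Subsingleton.elim _ _
  haveI : CharP (Matrix m m k) p := Matrix.charP p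
  haveI : ExpChar (Matrix m m k) p := ExpChar.prime hp
  have h1 : (M - 1) ^ (p ^ s) = M ^ (p ^ s) - 1 ^ (p ^ s) :=
    sub_pow_expChar_pow_of_commute (p := p) (n := s) (Commute.one_right M)
  have h2 : (M - 1) ^ (p ^ s) = 0 := by
    have h3 : s ≤ p ^ s := (Nat.lt_pow_self hp.one_lt).le
    obtain ⟨d, hd⟩ := Nat.exists_eq_add_of_le h3
    rw [hd, pow_add, hs, zero_mul]
  rw [h2, one_pow] at h1
  exact (sub_eq_zero.1 h1.symm)

end charp

section main

variable {Γ k : Type*} [Group Γ] [Field k] {N : ℕ}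

/-- **linear groups without unipotent elements** -/
theorem cen_linear (φ : Γ →* GL (Fin N) k) (htf : ∀ g : Γ, ∀ n : ℕ, 0 < n → g ^ n = 1 → g = 1)
    (hU : ∀ g : Γ, IsNilpotent ((φ g).val - 1) → g = 1) (H : Subgroup Γ) (hH : H.FG) : Cen H := by
  intro c hc
  haveI : Group.FG H := (Group.fg_iff_subgroup_fg H).2 hH
  let f : k →+* AlgebraicClosure k := algebraMap k (AlgebraicClosure k)
  let ψ : H →* GL (Fin N) (AlgebraicClosure k) :=
    (Matrix.GeneralLinearGroup.map f).comp (φ.comp H.subtype)
  have hψ : ∀ h : H, (ψ h).val = f.mapMatrix (φ h.1).val := fun h => rfl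
  have hex : ∃ x : AlgebraicClosure k, (ψ c).val.charpoly.IsRoot x ∧
      ∀ n : ℕ, 0 < n → x ^ n ≠ 1 := by
    by_contra hcon
    push Not at hcon
    obtain ⟨n, hn, h1⟩ := exists_unip (ψ c).val (fun x hx => by
      obtain ⟨n, hn, h2⟩ := hcon x hx
      exact ⟨n, hn, h2⟩)
    apply hc
    apply Subtype.ext
    apply htf c.1 n hn
    apply hU
    obtain ⟨s, hs⟩ := h1
    refine ⟨s, ?_⟩
    have hinj : Function.Injective (f.mapMatrix : Matrix (Fin N) (Fin N) k →+* _) := by
      intro X Y hXY
      ext i j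
      apply f.injective
      exact congrFun (congrFun hXY i) j
    apply hinj
    rw [map_zero, map_pow, map_sub, map_one, map_pow, Units.val_pow_eq_pow_val, map_pow, ← hψ]
    exact hs
  obtain ⟨x, hx, hxn⟩ := hex
  obtain ⟨p, hp⟩ := CharP.exists k
  rcases CharP.char_is_prime_or_zero k p with hp1 | hp1
  · haveI : Fact p.Prime := ⟨hp1⟩
    haveI : CharP (AlgebraicClosure k) p := charP_of_injective_algebraMap f.injective p
    letI : Algebra (ZMod p) (AlgebraicClosure k) := ZMod.algebra _ p
    apply cen_trans ψ (ZMod p) c hx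
    intro halg
    have hx0 : x ≠ 0 := by
      rintro rfl
      have h1 : IsUnit (ψ c).val.det := (Matrix.isUnit_iff_isUnit_det _).1 (ψ c).isUnit
      apply h1.ne_zero
      have h2 : (ψ c).val.charpoly.eval 0 = 0 := hx
      rw [Matrix.eval_charpoly, map_zero, zero_sub, Matrix.det_neg] at h2
      rcases mul_eq_zero.1 h2 with h3 | h3
      · exact absurd h3 (pow_ne_zero _ (neg_ne_zero.2 one_ne_zero))
      · exact h3
    obtain ⟨n, hn, h1⟩ := rootOfUnity_of_algebraic halg hx0
    exact hxn n hn h1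
  · subst hp1
    haveI : CharZero k := CharP.charP_to_charZero k
    haveI : CharZero (AlgebraicClosure k) := charZero_of_injective_algebraMap f.injective
    by_cases halg : IsAlgebraic ℚ x
    · exact cen_alg ψ c hx halg hxn
    · exact cen_trans ψ ℚ c hx halg

/-- torsion-free linear groups in positive characteristic have no unipotent elements -/
lemma no_unip {p : ℕ} [Fact p.Prime] [CharP k p] (φ : Γ →* GL (Fin N) k)
    (hφ : Function.Injective φ) (htf : ∀ g : Γ, ∀ n : ℕ, 0 < n → g ^ n = 1 → g = 1) (g : Γ)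
    (hg : IsNilpotent ((φ g).val - 1)) : g = 1 := by
  obtain ⟨n, hn, h1⟩ := unip_order (p := p) hg
  apply htf g n hn
  apply hφ
  rw [map_pow, map_one]
  apply Units.ext
  rw [Units.val_pow_eq_pow_val, h1]
  rfl

end main

end Pool.Agent.Y72.Log
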