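import Pool.Agent.Y72.Log.Words

/-!
# Sums over fibres, and the block map
-/

set_option autoImplicit false
set_option linter.unusedSectionVars false

namespace Pool.Agent.Y72.Log

open Finset Pool.Agent.H23R2 H219.Wh
open scoped Classical

section fibre

variable {I S : Type*} [Fintype I] [Fintype S] {Γ : Type*} [Group Γ] {gr : S → Γ}
  {A B : I → I → S → ℤ} {N : ℕ} [NeZero N] {M : Type*} [AddCommGroup M]
  {p : ℕ} {P : Γ → Prop}

/-- the product of the word is in the class -/
def RR (gr : S → Γ) (P : Γ → Prop) (o : ZMod N → Yy I S) : Prop := P (W (UU gr o) 0)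

lemma RR_shift (hP : IsCls p P) (o : ZMod N → Yy I S) (c : ZMod N) :
    RR gr P (shift c o) ↔ RR gr P o := by
  unfold RR
  rw [UU_shift]
  exact hP.shift_iff _ _

lemma W_VV (o : ZMod N → Yy I S) :
    W (VV gr o) 0 = (la gr o 0)⁻¹ * W (UU gr o) 0 * la gr o 0 :=
  W_interleave (la gr o) (lb gr o) 0

lemma RR_VV (hP : IsCls p P) (o : ZMod N → Yy I S) : P (W (VV gr o) 0) ↔ RR gr P o := by
  rw [W_VV]
  exact hP.conj_iff _ _

/-- every function of the sequence of products sums to zero over the words in the class -/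
lemma sum_UU (h : IP gr A B) (hP : IsCls p P) (C : (ZMod N → Γ) → Prop)
    (ψ : (ZMod N → Γ) → M) :
    ∑ o : ZMod N → Yy I S with (RR gr P o ∧ C (UU gr o)), wt A B o • ψ (UU gr o) = 0 := by
  set s : Finset (ZMod N → Yy I S) :=
    Finset.univ.filter (fun o => RR gr P o ∧ C (UU gr o)) with hs
  rw [← Finset.sum_fiberwise_of_maps_to (s := s) (t := s.image (TT gr)) (g := TT gr)
    (fun o ho => Finset.mem_image_of_mem _ ho)]
  apply Finset.sum_eq_zero
  intro t ht
  rw [Finset.mem_image] at ht
  obtain ⟨o', ho', rfl⟩ := ht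
  rw [hs] at ho'
  simp only [Finset.mem_filter, Finset.mem_univ, true_and] at ho'
  have h1 : ∑ o ∈ s with TT gr o = TT gr o', wt A B o • ψ (UU gr o) =
      ∑ o : ZMod N → Yy I S with TT gr o = TT gr o', wt A B o • ψ (UU gr o') := by
    have h2 : s.filter (fun o => TT gr o = TT gr o') =
        Finset.univ.filter (fun o => TT gr o = TT gr o') := by
      ext o
      simp only [hs, Finset.mem_filter, Finset.mem_univ, true_and]
      constructor
      · exact fun hh => hh.2
      · intro hh
        refine ⟨?_, hh⟩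
        have h3 : UU gr o = UU gr o' := by
          funext k
          exact congrArg Prod.snd (congrFun hh k)
        unfold RR
        rw [h3]
        exact ho'
    rw [h2]
    apply Finset.sum_congr rfl
    intro o ho
    simp only [Finset.mem_filter, Finset.mem_univ, true_and] at ho
    congr 2
    funext k
    exact congrArg Prod.snd (congrFun ho k)
  rw [h1, ← Finset.sum_smul, sum_wt_fibre h]
  have h4 : cN (TT gr o') = 0 := by
    by_contra hc
    have h5 := const_of_cN _ hc
    have h6 : (TT gr o' 0).2 = 1 := by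
      by_contra h7
      apply hc
      exact Finset.prod_eq_zero (Finset.mem_univ 0) (if_neg (fun hh => h7 hh.2))
    have h8 : UU gr o' = fun _ => 1 := by
      funext k
      have := congrArg Prod.snd (h5 k)
      rw [h6] at this
      exact this
    have h9 := ho'.1
    unfold RR at h9
    rw [h8] at h9
    unfold W at h9
    rw [pr_const, one_pow] at h9
    exact hP.not_one h9
  rw [h4, zero_smul]

lemma sum_VV (h : IP gr A B) (hP : IsCls p P) (C : (ZMod N → Γ) → Prop)
    (ψ : (ZMod N → Γ) → M) :
    ∑ o : ZMod N → Yy I S with (RR gr P o ∧ C (VV gr o)), wt A B o • ψ (VV gr o) = 0 := by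
  rw [← sum_UU (gr := gr) h.symm hP C ψ]
  refine Finset.sum_nbij' swp swpi ?_ ?_ ?_ ?_ ?_
  · intro o ho
    simp only [Finset.mem_filter, Finset.mem_univ, true_and] at ho ⊢
    refine ⟨?_, ho.2⟩
    show P (W (UU gr (swp o)) 0)
    rw [UU_swp, RR_VV hP]
    exact ho.1
  · intro o ho
    simp only [Finset.mem_filter, Finset.mem_univ, true_and] at ho ⊢
    have h1 : VV gr (swpi o) = UU gr o := by
      rw [← UU_swp, swp_swpi]
    refine ⟨?_, by rw [h1]; exact ho.2⟩
    rw [← RR_VV hP, h1]
    exact ho.1
  · intro o _; exact swpi_swp o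
  · intro o _; exact swp_swpi o
  · intro o _
    rw [wt_swp]
    rfl

end fibre

section bl

variable {Γ : Type*} [Group Γ] {m r : ℕ}

/-- the products of the blocks of length `r` -/
def bl (g : ZMod (m * r) → Γ) : ZMod m → Γ := fun k => pr g (emb m r k) r

lemma bl_shift (c : ZMod m) (g : ZMod (m * r) → Γ) :
    bl (shift (emb m r c) g) = shift c (bl g) := by
  funext k
  show pr (shift (emb m r c) g) (emb m r k) r = pr g (emb m r (k + c)) r
  rw [pr_shift, map_add]

lemma pr_bl (g : ZMod (m * r) → Γ) (k : ZMod m) (j : ℕ) :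
    pr (bl g) k j = pr g (emb m r k) (j * r) := by
  induction j with
  | zero => rw [Nat.zero_mul]; rfl
  | succ j ih =>
    rw [pr_succ, ih, Nat.succ_mul, pr_add]
    congr 1
    show pr g (emb m r (k + (j : ZMod m))) r = _
    rw [map_add, emb_natCast]

lemma W_bl (g : ZMod (m * r) → Γ) : W (bl g) 0 = W g 0 := by
  unfold W
  rw [pr_bl, map_zero]

lemma bl_interleave (a b : ZMod (m * r) → Γ) (k : ZMod m) :
    bl (fun k => b k * a (k + 1)) k =
      (a (emb m r k))⁻¹ * bl (fun k => a k * b k) k * a (emb m r (k + 1)) := by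
  have h := pr_interleave a b (emb m r k) r
  rw [mul_assoc, eq_inv_mul_iff_mul_eq]
  show a (emb m r k) * pr (fun k => b k * a (k + 1)) (emb m r k) r =
    pr (fun k => a k * b k) (emb m r k) r * a (emb m r (k + 1))
  rw [h, map_add, emb_one]

end bl

end Pool.Agent.Y72.Log
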