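import Pool.Agent.Y72.Log.Near

/-!
# Push-forward of the slice sum along a homomorphism
-/

set_option autoImplicit false
set_option linter.unusedSectionVars false

namespace Pool.Agent.Y72.Log

open Finset Pool.Agent.H23R2 H219.Wh
open scoped Classical

section push

variable {I S : Type*} [Fintype I] [Fintype S] {Γ Q : Type*} [Group Γ] [Group Q] {gr : S → Γ}
  {A B : I → I → S → ℤ} {m : ℕ} [NeZero m]

lemma pr_map (φ : Γ →* Q) (g : ZMod m → Γ) (k : ZMod m) (j : ℕ) :
    pr (fun l => φ (g l)) k j = φ (pr g k j) := by
  induction j with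
  | zero => rw [pr_zero, pr_zero, map_one]
  | succ j ih => rw [pr_succ, pr_succ, ih, map_mul]

lemma W_map (φ : Γ →* Q) (g : ZMod m → Γ) (k : ZMod m) :
    W (fun l => φ (g l)) k = φ (W g k) := pr_map φ g k m

/-- composition with a homomorphism -/
lemma EE_comp (φ : Γ →* Q) (P : Q → Prop) (κ : (ZMod m → Q) → ZMod m) :
    EE gr A B (fun g => P (φ g)) (fun g => κ (fun l => φ (g l))) =
      EE (fun s => φ (gr s)) A B P κ := by
  unfold EE
  have hU : ∀ o : ZMod m → Yy I S, UU (fun s => φ (gr s)) o = fun l => φ (UU gr o l) := by
    intro o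
    funext l
    exact (map_mul φ _ _).symm
  have hV : ∀ o : ZMod m → Yy I S, VV (fun s => φ (gr s)) o = fun l => φ (VV gr o l) := by
    intro o
    funext l
    exact (map_mul φ _ _).symm
  have hR : ∀ o : ZMod m → Yy I S, RR (fun s => φ (gr s)) P o ↔ RR gr (fun g => P (φ g)) o := by
    intro o
    unfold RR
    rw [hU, W_map]
  apply Finset.sum_congr
  · ext o
    simp only [Finset.mem_filter, Finset.mem_univ, true_and]
    rw [hR, hU]
  · intro o _
    rw [hV]

/-- the total coefficient -/
noncomputable def tot (gr : S → Q) (A : I → I → S → ℤ) : I → I → Q → ℤ :=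
  fun i j q => ∑ s with gr s = q, A i j s

lemma EE_tot [Fintype Q] (gr : S → Q) (P : Q → Prop) (κ : (ZMod m → Q) → ZMod m) :
    EE gr A B P κ = EE (id : Q → Q) (tot gr A) (tot gr B) P κ := by
  let ν : (ZMod m → Yy I S) → (ZMod m → Yy I Q) := fun o k =>
    ((o k).1, (o k).2.1, gr (o k).2.2.1, gr (o k).2.2.2)
  have hU : ∀ o, UU (id : Q → Q) (ν o) = UU gr o := fun o => rfl
  have hV : ∀ o, VV (id : Q → Q) (ν o) = VV gr o := fun o => rfl
  unfold EE
  rw [Finset.sum_filter, Finset.sum_filter, ← Finset.sum_fiberwise (s := Finset.univ) (g := ν)]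
  apply Finset.sum_congr rfl
  intro o' _
  have h1 : ∀ o ∈ (Finset.univ : Finset (ZMod m → Yy I S)).filter (fun o => ν o = o'),
      (if RR gr P o ∧ κ (UU gr o) = 0 then wt A B o * ((κ (VV gr o)).val : ℤ) else 0) =
      wt A B o * (if RR id P o' ∧ κ (UU id o') = 0 then ((κ (VV id o')).val : ℤ) else 0) := by
    intro o ho
    rw [Finset.mem_filter] at ho
    rw [← ho.2, mul_ite, mul_zero]
    rfl
  rw [Finset.sum_congr rfl h1, ← Finset.sum_mul]
  have h2 : ∑ o : ZMod m → Yy I S with ν o = o', wt A B o = wt (tot gr A) (tot gr B) o' := by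
    have h3 : (Finset.univ : Finset (ZMod m → Yy I S)).filter (fun o => ν o = o') =
        Fintype.piFinset (fun k => Finset.univ.filter (fun y : Yy I S =>
          (y.1, y.2.1, gr y.2.2.1, gr y.2.2.2) = o' k)) := by
      ext o
      rw [Fintype.mem_piFinset]
      simp only [Finset.mem_filter, Finset.mem_univ, true_and]
      exact funext_iff
    rw [h3, sum_wt_pi (fun k => ((o' k).1, (1 : Q))) _ (by
      intro k y hy
      simp only [Finset.mem_filter, Finset.mem_univ, true_and] at hy
      exact congrArg Prod.fst hy)]
    unfold wt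
    apply Finset.prod_congr rfl
    intro k _
    rw [Finset.sum_filter]
    unfold tot
    rw [Finset.sum_mul_sum, Fintype.sum_prod_type, Finset.sum_eq_single (o' k).1]
    · rw [Fintype.sum_prod_type, Finset.sum_eq_single (o' k).2.1]
      · rw [Fintype.sum_prod_type, Finset.sum_filter]
        apply Finset.sum_congr rfl
        intro s _
        rw [Finset.sum_filter]
        by_cases hs : gr s = (o' k).2.2.1
        · rw [if_pos hs]
          apply Finset.sum_congr rfl
          intro t _
          by_cases ht : gr t = (o' k).2.2.2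
          · rw [if_pos ht, if_pos]
            simp only [hs, ht]
          · rw [if_neg ht, if_neg]
            intro hc
            exact ht (congrArg (fun y => y.2.2.2) hc)
        · rw [if_neg hs]
          apply Finset.sum_eq_zero
          intro t _
          rw [if_neg]
          intro hc
          exact hs (congrArg (fun y => y.2.2.1) hc)
      · intro j _ hj
        apply Finset.sum_eq_zero
        intro y _
        rw [if_neg]
        intro hc
        exact hj (congrArg (fun y => y.2.1) hc)
      · intro hc
        exact absurd (Finset.mem_univ _) hc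
    · intro j _ hj
      apply Finset.sum_eq_zero
      intro y _
      rw [if_neg]
      intro hc
      exact hj (congrArg (fun y => y.1) hc)
    · intro hc
      exact absurd (Finset.mem_univ _) hc
  rw [h2, mul_ite, mul_zero]

end push

end Pool.Agent.Y72.Log
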