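import Pool.Agent.Y72.Log.Rep

/-!
# Determinants of representations of finite groups
-/

set_option autoImplicit false
set_option linter.unusedSectionVars false

namespace Pool.Agent.Y72.Log

open Finset
open scoped Classical

section sums

variable {G n : Type*} [Group G] [Fintype G] [Fintype n] [DecidableEq n]

/-- one element -/
lemma exists_order (X : (Matrix n n (MonoidAlgebra ℤ G))ˣ) (hX : MC X) (g : G) :
    ∃ N : ℕ, 0 < N ∧ ∀ K : ℕ, N ∣ K → ∀ q : ℤ,
      (∃ W : Matrix n n (MonoidAlgebra ℤ G), X.val ^ K = 1 + q • W) →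
      q ^ 2 ∣ ∑ x : G, ∑ i, ((X.val ^ K) i i).coeff (x * g * x⁻¹) -
        (if g = 1 then (Fintype.card n : ℤ) * Fintype.card G else 0) := by
  letI hC : CommGroup (Subgroup.zpowers g) :=
    { (inferInstance : Group (Subgroup.zpowers g)) with
      mul_comm := by
        intro w x
        obtain ⟨j, hj⟩ := w.2
        obtain ⟨k, hk⟩ := x.2
        apply Subtype.ext
        show (w : G) * x = x * w
        rw [← hj, ← hk]
        exact (Commute.zpow_zpow_self g j k) }
  haveI : Fintype (Subgroup.zpowers g) := Fintype.ofFinite _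
  let ι : Subgroup.zpowers g →* G := (Subgroup.zpowers g).subtype
  obtain ⟨e, he⟩ := exists_equiv ι (Subgroup.subtype_injective _)
  haveI : Fintype (G ⧸ ι.range) := Fintype.ofFinite _
  obtain ⟨N, hN, hu⟩ := du_torsion e ι he (Subgroup.subtype_injective _) X hX
  refine ⟨N, hN, ?_⟩
  rintro K ⟨K', rfl⟩ q ⟨W, hW⟩
  obtain ⟨c, hc⟩ := du_near e ι he hW
  rw [du_pow, pow_mul, hu, one_pow] at hc
  have h1 := trace_coeff e ι he (X.val ^ (N * K')) (⟨g, Subgroup.mem_zpowers g⟩ : Subgroup.zpowers g)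
  have h2 : ι (⟨g, Subgroup.mem_zpowers g⟩ : Subgroup.zpowers g) = g := rfl
  rw [h2] at h1
  rw [← h1]
  have h3 : (blkR (indR e ι he) (X.val ^ (N * K'))).trace =
      ((Fintype.card (n × (G ⧸ ι.range)) : ℤ) : MonoidAlgebra ℤ (Subgroup.zpowers g)) -
        (q ^ 2) • c := by
    rw [zsmul_eq_mul]
    push_cast
    linear_combination -hc
  rw [h3, MonoidAlgebra.coeff_sub, Finsupp.sub_apply, MonoidAlgebra.coeff_smul,
    Finsupp.smul_apply, MonoidAlgebra.intCast_def, MonoidAlgebra.coeff_single,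
    Finsupp.single_apply]
  have h4 : Fintype.card G = Fintype.card (G ⧸ ι.range) * Fintype.card (Subgroup.zpowers g) := by
    rw [← Fintype.card_prod]
    exact Fintype.card_congr e
  refine ⟨-((Fintype.card (Subgroup.zpowers g) : ℤ) * c.coeff ⟨g, Subgroup.mem_zpowers g⟩), ?_⟩
  by_cases hg : g = 1
  · rw [if_pos hg, if_pos (Subtype.ext hg.symm), h4, Fintype.card_prod, smul_eq_mul]
    push_cast
    ring
  · rw [if_neg hg, if_neg (fun h => hg (congrArg Subtype.val h).symm), smul_eq_mul]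
    ring

/-- all elements -/
lemma exists_order_all (X : (Matrix n n (MonoidAlgebra ℤ G))ˣ) (hX : MC X) :
    ∃ N : ℕ, 0 < N ∧ ∀ K : ℕ, N ∣ K → ∀ q : ℤ,
      (∃ W : Matrix n n (MonoidAlgebra ℤ G), X.val ^ K = 1 + q • W) → ∀ g : G,
      q ^ 2 ∣ ∑ x : G, ∑ i, ((X.val ^ K) i i).coeff (x * g * x⁻¹) -
        (if g = 1 then (Fintype.card n : ℤ) * Fintype.card G else 0) := by
  have h1 := fun g => exists_order X hX g
  choose N hN h2 using h1
  refine ⟨∏ g, N g, Finset.prod_pos (fun g _ => hN g), ?_⟩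
  intro K hK q hq g
  exact h2 g K (dvd_trans (Finset.dvd_prod_of_mem N (Finset.mem_univ g)) hK) q hq

end sums

section rep

variable {G n d F : Type*} [Group G] [Fintype G] [Fintype n] [Fintype d] [DecidableEq n]
  [DecidableEq d] [Field F]

/-- the linear extension of a representation -/
noncomputable def lr (ρ : G →* Matrix d d F) : MonoidAlgebra ℤ G →+* Matrix d d F :=
  (MonoidAlgebra.lift ℤ (Matrix d d F) G ρ).toRingHom

lemma lr_single (ρ : G →* Matrix d d F) (g : G) (a : ℤ) :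
    lr ρ (MonoidAlgebra.single g a) = a • ρ g := MonoidAlgebra.lift_single _ _ _

lemma lr_apply (ρ : G →* Matrix d d F) (x : MonoidAlgebra ℤ G) :
    lr ρ x = ∑ g, (x.coeff g) • ρ g := by
  have h2 : x = ∑ c, MonoidAlgebra.single c (x.coeff c) := by
    apply MonoidAlgebra.coeff_injective
    ext g
    rw [MonoidAlgebra.coeff_sum, Finsupp.finsetSum_apply]
    simp [Finsupp.single_apply]
  conv_lhs => rw [h2]
  rw [map_sum]
  apply Finset.sum_congr rfl
  intro g _
  rw [lr_single]

lemma trace_conj (ρ : G →* Matrix d d F) (x g : G) :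
    (ρ (x * g * x⁻¹)).trace = (ρ g).trace := by
  rw [map_mul, map_mul, Matrix.trace_mul_comm, ← mul_assoc, ← map_mul, inv_mul_cancel, map_one,
    one_mul]

lemma trace_lr (ρ : G →* Matrix d d F) (V : Matrix n n (MonoidAlgebra ℤ G)) :
    (Fintype.card G : F) * (blkR (lr ρ) V).trace =
      ∑ g : G, ((∑ x : G, ∑ i, (V i i).coeff (x * g * x⁻¹) : ℤ) : F) * (ρ g).trace := by
  rw [trace_blkR]
  have h1 : ∀ i, (lr ρ (V i i)).trace = ∑ g : G, ((V i i).coeff g : F) * (ρ g).trace := by
    intro i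
    rw [lr_apply, Matrix.trace_sum]
    apply Finset.sum_congr rfl
    intro g _
    rw [Matrix.trace_smul, zsmul_eq_mul]
  simp_rw [h1]
  have h2 : ∀ x : G, ∑ i, ∑ g : G, ((V i i).coeff g : F) * (ρ g).trace =
      ∑ g : G, (∑ i, ((V i i).coeff (x * g * x⁻¹) : F)) * (ρ g).trace := by
    intro x
    rw [Finset.sum_comm]
    rw [← Equiv.sum_comp ((MulAut.conj x).toEquiv)]
    apply Finset.sum_congr rfl
    intro g _
    have h3 : (MulAut.conj x).toEquiv g = x * g * x⁻¹ := rfl
    rw [h3, trace_conj, Finset.sum_mul]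
  calc (Fintype.card G : F) * ∑ i, ∑ g : G, ((V i i).coeff g : F) * (ρ g).trace =
      ∑ x : G, ∑ i, ∑ g : G, ((V i i).coeff g : F) * (ρ g).trace := by
        rw [Finset.sum_const, Finset.card_univ, nsmul_eq_mul]
    _ = ∑ x : G, ∑ g : G, (∑ i, ((V i i).coeff (x * g * x⁻¹) : F)) * (ρ g).trace :=
        Finset.sum_congr rfl (fun x _ => h2 x)
    _ = _ := by
        rw [Finset.sum_comm]
        apply Finset.sum_congr rfl
        intro g _
        rw [← Finset.sum_mul]
        congr 1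
        push_cast
        rfl

/-- every element of the matrix ring is integral -/
lemma mat_integral (V : Matrix n n (MonoidAlgebra ℤ G)) : IsIntegral ℤ V := by
  haveI : Module.Finite ℤ (MonoidAlgebra ℤ G) := by
    have e1 : (G →₀ ℤ) ≃ₗ[ℤ] MonoidAlgebra ℤ G :=
      (MonoidAlgebra.coeffAddEquiv (R := ℤ) (M := G)).symm.toIntLinearEquiv
    exact Module.Finite.equiv e1
  exact IsIntegral.of_finite ℤ V

lemma blkR_integral (ρ : G →* Matrix d d F) (V : Matrix n n (MonoidAlgebra ℤ G)) :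
    IsIntegral ℤ (blkR (lr ρ) V) :=
  (mat_integral V).map (blkR (lr ρ) : _ →+* Matrix (n × d) (n × d) F).toIntAlgHom

lemma char_integral [IsAlgClosed F] (ρ : G →* Matrix d d F) (g : G) :
    IsIntegral ℤ (ρ g).trace := by
  apply trace_integral
  have h1 : ρ g ^ (Fintype.card G) = 1 := by
    rw [← map_pow, pow_card_eq_one, map_one]
  refine ⟨Polynomial.X ^ (Fintype.card G) - 1,
    Polynomial.monic_X_pow_sub_C (1 : ℤ) Fintype.card_ne_zero, ?_⟩
  simp [h1]

/-- the version of `torsion_of_fast` for algebraic integers -/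
lemma torsion_field {F : Type*} [Field F] [CharZero F] {p : ℕ} (hp : p.Prime) {y : F}
    (hy : IsIntegral ℤ y) {k D : ℕ} (hk : 0 < k) (hD : 0 < D)
    (h : ∀ a : ℕ, 1 ≤ a → ∃ θ : F, IsIntegral ℤ θ ∧
      (D : F) * (y ^ (k * p ^ (a - 1)) - 1) = (p : F) ^ (2 * a) * θ) :
    ∃ N : ℕ, 0 < N ∧ y ^ N = 1 := by
  have h1 : ∃ M : ℕ, 0 < M ∧ (⟨y, hy⟩ : integralClosure ℤ F) ^ M = 1 := by
    apply torsion_of_fast hp (k := k) (D := D) _ (fun x hx => sep_int hp x hx) hk hD
    · intro a ha
      obtain ⟨θ, hθ, h2⟩ := h a ha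
      refine ⟨⟨θ, hθ⟩, ?_⟩
      apply Subtype.ext
      push_cast
      exact h2
    · intro x hx
      apply Subtype.ext
      have h2 := congrArg (fun t : integralClosure ℤ F => (t : F)) hx
      push_cast at h2
      rcases mul_eq_zero.1 h2 with h3 | h3
      · exact absurd (by exact_mod_cast h3) hp.ne_zero
      · exact h3
  obtain ⟨M, hM, h2⟩ := h1
  refine ⟨M, hM, ?_⟩
  have h3 := congrArg (fun t : integralClosure ℤ F => (t : F)) h2
  push_cast at h3
  exact h3

/-- the determinant of a power congruent to one -/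
lemma det_cong [IsAlgClosed F] [CharZero F] (V W : Matrix n n (MonoidAlgebra ℤ G))
    (ρ : G →* Matrix d d F) {q : ℤ} (hq : q ≠ 0) (hV : V = 1 + q • W)
    (h2 : ∀ g : G, q ^ 2 ∣ ∑ x : G, ∑ i, (V i i).coeff (x * g * x⁻¹) -
        (if g = 1 then (Fintype.card n : ℤ) * Fintype.card G else 0)) :
    ∃ θ : F, IsIntegral ℤ θ ∧
      (Fintype.card G : F) * ((blkR (lr ρ) V).det - 1) = (q : F) ^ 2 * θ := by
  have hqF : (q : F) ≠ 0 := by exact_mod_cast hq
  choose s hs using h2
  have h3 : blkR (lr ρ) V = 1 + (q : F) • blkR (lr ρ) W := by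
    rw [hV, map_add, map_one, map_zsmul]
    congr 1
    ext1 i j
    rw [Matrix.smul_apply, Matrix.smul_apply, zsmul_eq_mul, smul_eq_mul]
  obtain ⟨θ, hθ, h4⟩ := det_one_add_integral (F := F) hqF (blkR_integral ρ W)
  rw [← h3] at h4
  have h5 := trace_lr ρ V
  have h7 : ∀ g : G, ((∑ x : G, ∑ i, (V i i).coeff (x * g * x⁻¹) : ℤ) : F) =
      (if g = 1 then (Fintype.card n : F) * Fintype.card G else 0) +
        (q : F) ^ 2 * s g := by
    intro g
    have h8 : ∑ x : G, ∑ i, (V i i).coeff (x * g * x⁻¹) =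
        (if g = 1 then (Fintype.card n : ℤ) * Fintype.card G else 0) + q ^ 2 * s g := by
      rw [← hs g]
      ring
    rw [h8]
    push_cast
    rfl
  have h6 : (Fintype.card G : F) * (blkR (lr ρ) V).trace =
      (Fintype.card G : F) * (Fintype.card n * Fintype.card d) +
      (q : F) ^ 2 * ∑ g : G, (s g : F) * (ρ g).trace := by
    rw [h5]
    simp_rw [h7, add_mul]
    rw [Finset.sum_add_distrib]
    congr 1
    · simp only [ite_mul, zero_mul]
      rw [Finset.sum_ite_eq', if_pos (Finset.mem_univ _), map_one, Matrix.trace_one]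
      ring
    · rw [Finset.mul_sum]
      apply Finset.sum_congr rfl
      intro g _
      ring
  have h6' : (Fintype.card G : F) * ((q : F) * (blkR (lr ρ) W).trace) =
      (q : F) ^ 2 * ∑ g : G, (s g : F) * (ρ g).trace := by
    rw [h3, Matrix.trace_add, Matrix.trace_one, Matrix.trace_smul, smul_eq_mul,
      Fintype.card_prod] at h6
    push_cast at h6
    linear_combination h6
  have h9 : IsIntegral ℤ (∑ g : G, (s g : F) * (ρ g).trace + (Fintype.card G : F) * θ) := by
    apply IsIntegral.add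
    · apply IsIntegral.sum
      intro g _
      exact (isIntegral_algebraMap (x := s g)).mul (char_integral ρ g)
    · have h10 : IsIntegral ℤ (Fintype.card G : F) := by
        have := isIntegral_algebraMap (R := ℤ) (A := F) (x := (Fintype.card G : ℤ))
        simpa using this
      exact h10.mul hθ
  refine ⟨_, h9, ?_⟩
  rw [h4, mul_add, ← h6']
  ring

/-- the case of an algebraically closed field -/
lemma det_rep_closed [IsAlgClosed F] [CharZero F] (X : (Matrix n n (MonoidAlgebra ℤ G))ˣ)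
    (hX : MC X) (ρ : G →* Matrix d d F) :
    ∃ N : ℕ, 0 < N ∧ (blkR (lr ρ) X.val).det ^ N = 1 := by
  obtain ⟨N, hN, hN2⟩ := exists_order_all X hX
  have hp : (3 : ℕ).Prime := Nat.prime_three
  obtain ⟨k, hk, Z, hZ⟩ := exists_pow_near (X ^ N) hp
  rw [Units.val_pow_eq_pow_val] at hZ
  have hYi : IsIntegral ℤ (blkR (lr ρ) X.val).det := det_integral (blkR_integral ρ X.val)
  have h1 : ∃ M : ℕ, 0 < M ∧ ((blkR (lr ρ) X.val).det ^ N) ^ M = 1 := by
    apply torsion_field hp (hYi.pow N) hk (D := Fintype.card G) Fintype.card_pos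
    intro a ha
    obtain ⟨W, hW⟩ := pow_near hZ (a - 1)
    rw [Nat.sub_add_cancel ha, ← pow_mul, ← pow_mul, ← mul_assoc] at hW
    obtain ⟨θ, hθ, h2⟩ := det_cong (X.val ^ (N * k * 3 ^ (a - 1))) W ρ
      (q := ((3 : ℕ) : ℤ) ^ a) (pow_ne_zero _ (by norm_num)) hW
      (hN2 _ ⟨k * 3 ^ (a - 1), by rw [mul_assoc]⟩ _ ⟨W, hW⟩)
    refine ⟨θ, hθ, ?_⟩
    have h3 : ((blkR (lr ρ) X.val).det ^ N) ^ (k * 3 ^ (a - 1)) =
        (blkR (lr ρ) (X.val ^ (N * k * 3 ^ (a - 1)))).det := by
      rw [← pow_mul, map_pow, Matrix.det_pow, mul_assoc]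
    rw [h3, h2]
    congr 1
    push_cast
    rw [← pow_mul, mul_comm]
  obtain ⟨M, hM, h2⟩ := h1
  exact ⟨N * M, Nat.mul_pos hN hM, by rw [pow_mul, h2]⟩

/-- **determinants of representations of finite groups** -/
theorem det_rep [CharZero F] (X : (Matrix n n (MonoidAlgebra ℤ G))ˣ)
    (hX : MC X) (ρ : G →* Matrix d d F) :
    ∃ N : ℕ, 0 < N ∧ (blkR (lr ρ) X.val).det ^ N = 1 := by
  let f : F →+* AlgebraicClosure F := algebraMap F (AlgebraicClosure F)
  let ρ' : G →* Matrix d d (AlgebraicClosure F) := (f.mapMatrix.toMonoidHom).comp ρ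
  haveI : CharZero (AlgebraicClosure F) := charZero_of_injective_algebraMap f.injective
  obtain ⟨N, hN, h1⟩ := det_rep_closed X hX ρ'
  refine ⟨N, hN, ?_⟩
  apply f.injective
  rw [map_pow, RingHom.map_det, map_one, ← h1]
  congr 2
  ext1 i j
  show f (lr ρ (X.val i.1 j.1) i.2 j.2) = lr ρ' (X.val i.1 j.1) i.2 j.2
  rw [lr_apply, lr_apply, Matrix.sum_apply, Matrix.sum_apply, map_sum]
  apply Finset.sum_congr rfl
  intro g _
  rw [Matrix.smul_apply, Matrix.smul_apply, map_zsmul]
  rfl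

end rep

end Pool.Agent.Y72.Log
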