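import Pool.Agent.Y72.Log.Res
import Pool.Agent.Y72.Log.Rep2
import Pool.Agent.H219.Wh.Lett

/-!
# Determinants of finite image representations of infinite groups
-/

set_option autoImplicit false
set_option linter.unusedSectionVars false

namespace Pool.Agent.Y72.Log

open Finset Pool.Agent.H23R2 H219.Wh
open scoped Classical

section tot

variable {Γ G : Type*} [Group Γ] [Group G] (π : Γ →* G) {n : ℕ}

/-- the map of group rings -/
noncomputable def mp : MonoidAlgebra ℤ Γ →+* MonoidAlgebra ℤ G :=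
  MonoidAlgebra.mapDomainRingHom ℤ π

lemma mp_single (g : Γ) (a : ℤ) :
    mp π (MonoidAlgebra.single g a) = MonoidAlgebra.single (π g) a :=
  MonoidAlgebra.mapDomain_single

lemma mp_coeff (v : MonoidAlgebra ℤ Γ) (T : Finset Γ) (hT : ∀ g, v.coeff g ≠ 0 → g ∈ T) (g : G) :
    (mp π v).coeff g = ∑ x ∈ T, if π x = g then v.coeff x else 0 := by
  have h1 : v = ∑ x ∈ T, MonoidAlgebra.single x (v.coeff x) := by
    apply MonoidAlgebra.coeff_injective
    ext y
    rw [MonoidAlgebra.coeff_sum, Finsupp.finsetSum_apply]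
    simp only [MonoidAlgebra.coeff_single, Finsupp.single_apply]
    rw [Finset.sum_ite_eq']
    by_cases hy : y ∈ T
    · rw [if_pos hy]
    · rw [if_neg hy]
      by_contra hc
      exact hy (hT y hc)
  conv_lhs => rw [h1]
  rw [map_sum, MonoidAlgebra.coeff_sum, Finsupp.finsetSum_apply]
  apply Finset.sum_congr rfl
  intro x _
  rw [mp_single, MonoidAlgebra.coeff_single, Finsupp.single_apply]

lemma tot_lett (V : Matrix (Fin n) (Fin n) (MonoidAlgebra ℤ Γ)) (T : Finset Γ) (K : ℕ)
    (hT : ∀ i j g, (V i j).coeff g ≠ 0 → g ∈ T) (hK : ∀ i j g, (cf V i j g).natAbs ≤ K)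
    (i j : Fin n) (g : G) :
    tot (fun s => π (grl T K s)) (lett (cf V) T K) i j g = (mp π (V i j)).coeff g := by
  rw [mp_coeff π (V i j) T (hT i j)]
  unfold tot
  rw [Finset.sum_filter, Fintype.sum_prod_type, ← Finset.sum_coe_sort T]
  apply Finset.sum_congr rfl
  intro x _
  by_cases hx : π x = g
  · rw [if_pos hx]
    have h1 := sum_lett (cf V) T K i j x (hK i j x)
    have h2 : cf V i j x = (V i j).coeff x := rfl
    rw [← h2, ← h1]
    apply Finset.sum_congr rfl
    intro k _
    exact if_pos hx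
  · rw [if_neg hx]
    apply Finset.sum_eq_zero
    intro k _
    exact if_neg hx

end tot

section mc

variable {Γ G : Type*} [Group Γ] [Group G] [Fintype G] {n : ℕ}

/-- the image of an invertible matrix -/
noncomputable def mpU (π : Γ →* G) (A : (Matrix (Fin n) (Fin n) (MonoidAlgebra ℤ Γ))ˣ) :
    (Matrix (Fin n) (Fin n) (MonoidAlgebra ℤ G))ˣ :=
  Units.map ((mp π).mapMatrix.toMonoidHom) A

lemma mpU_val (π : Γ →* G) (A : (Matrix (Fin n) (Fin n) (MonoidAlgebra ℤ Γ))ˣ) (i j : Fin n) :
    (mpU π A).val i j = mp π (A.val i j) := rfl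

lemma nearOne_of {X Z : Matrix (Fin n) (Fin n) (MonoidAlgebra ℤ G)} {q : ℤ} (h : X = 1 + q • Z) :
    NearOne q (fun i j g => (X i j).coeff g) := by
  intro i j g
  refine ⟨(Z i j).coeff g, ?_⟩
  show (X i j).coeff g - _ = _
  rw [h, Matrix.add_apply, MonoidAlgebra.coeff_add, Finsupp.add_apply, Matrix.smul_apply,
    MonoidAlgebra.coeff_smul, Finsupp.smul_apply, Matrix.one_apply, smul_eq_mul]
  have h1 : (if i = j then (1 : MonoidAlgebra ℤ G) else 0).coeff g =
      if i = j ∧ g = 1 then 1 else 0 := by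
    by_cases hij : i = j
    · rw [if_pos hij, one_coeff']
      simp only [hij, true_and]
    · rw [if_neg hij, if_neg (fun hc => hij hc.1)]
      rfl
  rw [h1]
  by_cases hc : i = j ∧ g = 1
  · rw [if_pos hc, if_pos hc]
    ring
  · rw [if_neg hc, if_neg hc]
    ring

/-- **the congruences for the images of an invertible matrix** -/
theorem mc_of_cen (hb : Cen Γ) (π : Γ →* G) (hπ : Function.Surjective π)
    (A : (Matrix (Fin n) (Fin n) (MonoidAlgebra ℤ Γ))ˣ) : MC (mpU π A) := by
  intro p hp a ha k hk g hg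
  obtain ⟨Z, hZ⟩ := hk
  set V := A ^ k with hV
  have hXV : (mpU π A).val ^ k = (mpU π V).val := by
    rw [hV, mpU, mpU, map_pow, Units.val_pow_eq_pow_val]
  rw [hXV] at hZ ⊢
  have hinv : (mpU π V⁻¹).val = 1 + ((p : ℤ) ^ a) • (-(Z * (mpU π V⁻¹).val)) := by
    have h1 : (mpU π V).val * (mpU π V⁻¹).val = 1 := by
      have h2 : mpU π V⁻¹ = (mpU π V)⁻¹ := map_inv _ _
      rw [h2, Units.mul_inv]
    rw [hZ, add_mul, one_mul, smul_mul_assoc] at h1
    rw [smul_neg, ← sub_eq_add_neg, eq_sub_iff_add_eq]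
    exact h1
  set T := supp V.val ∪ supp (V⁻¹).val with hT
  have hTA : ∀ i j g, (V.val i j).coeff g ≠ 0 → g ∈ T :=
    fun i j g hg => Finset.mem_union_left _ (mem_supp _ i j g hg)
  have hTB : ∀ i j g, ((V⁻¹).val i j).coeff g ≠ 0 → g ∈ T :=
    fun i j g hg => Finset.mem_union_right _ (mem_supp _ i j g hg)
  have hKA : ∀ i j g, (cf V.val i j g).natAbs ≤ Kb V :=
    fun i j g => ((exists_bound V.val).choose_spec i j g).trans (le_max_left _ _)
  have hKB : ∀ i j g, (cf (V⁻¹).val i j g).natAbs ≤ Kb V :=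
    fun i j g => ((exists_bound (V⁻¹).val).choose_spec i j g).trans (le_max_right _ _)
  have htA : tot (fun s => π (grl T (Kb V) s)) (lett (cf V.val) T (Kb V)) =
      fun i j g => ((mpU π V).val i j).coeff g := by
    funext i j g
    exact tot_lett π V.val T (Kb V) hTA hKA i j g
  have htB : tot (fun s => π (grl T (Kb V) s)) (lett (cf (V⁻¹).val) T (Kb V)) =
      fun i j g => ((mpU π V⁻¹).val i j).coeff g := by
    funext i j g
    exact tot_lett π (V⁻¹).val T (Kb V) hTB hKB i j g
  have h1 := main_cong hp (ip_of_invPair (invPair_units V) (Kb V) hKA hKB) hb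
    (fun l hl => lett_pow hl _ _ _) (fun l hl => lett_pow hl _ _ _) π hπ ha
    (by rw [htA]; exact nearOne_of hZ) (by rw [htB]; exact nearOne_of hinv) hg
  rw [htA] at h1
  exact h1

end mc

section final

/-- the matrix of a representation -/
noncomputable def repMat {Γ F : Type*} [Group Γ] [Field F] {n d : ℕ}
    (ρ : Γ →* Matrix (Fin d) (Fin d) F) (A : Matrix (Fin n) (Fin n) (MonoidAlgebra ℤ Γ)) :
    Matrix (Fin n × Fin d) (Fin n × Fin d) F :=
  Matrix.of fun x y => (MonoidAlgebra.lift ℤ (Matrix (Fin d) (Fin d) F) Γ ρ (A x.1 y.1)) x.2 y.2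

/-- the theorem for groups with the centraliser condition -/
theorem det_cen {Γ F : Type*} [Group Γ] [Field F] [CharZero F] (hb : Cen Γ) {n d : ℕ}
    (A : (Matrix (Fin n) (Fin n) (MonoidAlgebra ℤ Γ))ˣ) (ρ : Γ →* Matrix (Fin d) (Fin d) F)
    (hρ : (Set.range ρ).Finite) : ∃ N : ℕ, 0 < N ∧ (repMat ρ A.val).det ^ N = 1 := by
  let ρu : Γ →* (Matrix (Fin d) (Fin d) F)ˣ := ρ.toHomUnits
  let G := ρu.range
  have hfin : Finite G := by
    have h1 : (Set.range ρu).Finite := by
      apply Set.Finite.of_finite_image (f := Units.val) _ Units.val_injective.injOn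
      apply hρ.subset
      rintro _ ⟨_, ⟨g, rfl⟩, rfl⟩
      exact ⟨g, rfl⟩
    exact h1.to_subtype
  haveI : Fintype G := Fintype.ofFinite G
  let π : Γ →* G := ρu.rangeRestrict
  have hπ : Function.Surjective π := ρu.rangeRestrict_surjective
  let ρ' : G →* Matrix (Fin d) (Fin d) F := (Units.coeHom _).comp G.subtype
  obtain ⟨N, hN, h1⟩ := det_rep (mpU π A) (mc_of_cen hb π hπ A) ρ'
  refine ⟨N, hN, ?_⟩
  rw [← h1]
  congr 1
  have h2 : ∀ x : MonoidAlgebra ℤ Γ,
      MonoidAlgebra.lift ℤ (Matrix (Fin d) (Fin d) F) Γ ρ x = lr ρ' (mp π x) := by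
    intro x
    induction x using MonoidAlgebra.induction_linear with
    | zero => simp only [map_zero]
    | add x y hx hy => simp only [map_add, hx, hy]
    | single g a =>
      rw [mp_single, lr_single, MonoidAlgebra.lift_single]
      rfl
  have h3 : repMat ρ A.val = blkR (lr ρ') (mpU π A).val := by
    ext1 x y
    rw [blkR_apply, mpU_val, ← h2]
    rfl
  rw [h3]

end final

end Pool.Agent.Y72.Log
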