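import Pool.Agent.Y72.Log.Slice

/-!
# Blocks of words of length `m * r`
-/

set_option autoImplicit false
set_option linter.unusedSectionVars false

namespace Pool.Agent.Y72.Log

open Finset Pool.Agent.H23R2 H219.Wh
open scoped Classical

section emb

variable {m r : ℕ}

lemma emb_one : emb m r 1 = ((r : ℕ) : ZMod (m * r)) := by
  have h := emb_natCast (m := m) (r := r) 1
  rw [Nat.cast_one, one_mul] at h
  exact h

lemma emb_eq [NeZero m] (c : ZMod m) : emb m r c = ((c.val * r : ℕ) : ZMod (m * r)) := by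
  conv_lhs => rw [← ZMod.natCast_zmod_val c]
  exact emb_natCast _

/-- the block number -/
def blk (m r : ℕ) (x : ZMod (m * r)) : ZMod m := ((x.val / r : ℕ) : ZMod m)

lemma blk_add [NeZero m] [NeZero r] (x : ZMod (m * r)) (c : ZMod m) :
    blk m r (x + emb m r c) = blk m r x + c := by
  haveI : NeZero (m * r) := ⟨mul_ne_zero (NeZero.ne m) (NeZero.ne r)⟩
  have hr : 0 < r := Nat.pos_of_ne_zero (NeZero.ne r)
  unfold blk
  rw [emb_eq]
  have h1 : (x + ((c.val * r : ℕ) : ZMod (m * r))).val = (x.val + c.val * r) % (r * m) := by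
    rw [ZMod.val_add, ZMod.val_natCast, Nat.add_mod_mod, mul_comm r m]
  rw [h1, Nat.mod_mul_right_div_self, Nat.add_mul_div_right _ _ hr, ZMod.natCast_mod]
  push_cast
  rw [ZMod.natCast_zmod_val]

lemma blk_eq_zero [NeZero m] [NeZero r] (x : ZMod (m * r)) : blk m r x = 0 ↔ x.val < r := by
  haveI : NeZero (m * r) := ⟨mul_ne_zero (NeZero.ne m) (NeZero.ne r)⟩
  have hr : 0 < r := Nat.pos_of_ne_zero (NeZero.ne r)
  unfold blk
  have h1 : x.val / r < m := by
    rw [Nat.div_lt_iff_lt_mul hr]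
    exact ZMod.val_lt x
  rw [ZMod.natCast_eq_zero_iff]
  constructor
  · intro h
    have h2 := Nat.eq_zero_of_dvd_of_lt h h1
    exact (Nat.div_eq_zero_iff_lt hr).1 h2
  · intro h
    rw [Nat.div_eq_of_lt h]
    exact dvd_zero m

end emb

section block

variable {X : Type*} [Fintype X] {m r : ℕ} [NeZero m] [NeZero r] {M : Type*} [AddCommMonoid M]

/-- passage from slices for `ZMod (m * r)` to slices for the subgroup `ZMod m` -/
lemma sum_block (act : ZMod (m * r) → X → X) (h0 : ∀ x, act 0 x = x)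
    (hadd : ∀ a b x, act a (act b x) = act (a + b) x)
    (R : X → Prop) (hR : ∀ c x, R x → R (act c x))
    (l : X → ZMod (m * r)) (hl : ∀ x, R x → ∀ c, l (act c x) = l x + c)
    (l' : X → ZMod m) (hl' : ∀ x, R x → ∀ c, l' (act (emb m r c) x) = l' x + c)
    (ψ : X → M) (hψ : ∀ x, R x → ∀ c, ψ (act (emb m r c) x) = ψ x) :
    ∑ x with (R x ∧ l x = 0), ∑ i ∈ range r, ψ (act (i : ZMod (m * r)) x) =
      ∑ x with (R x ∧ l' x = 0), ψ x := by
  haveI : NeZero (m * r) := ⟨mul_ne_zero (NeZero.ne m) (NeZero.ne r)⟩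
  have hr : 0 < r := Nat.pos_of_ne_zero (NeZero.ne r)
  have hm : 0 < m := Nat.pos_of_ne_zero (NeZero.ne m)
  have hrm : r ≤ m * r := Nat.le_mul_of_pos_left r hm
  rw [Finset.sum_comm]
  have h : ∀ i ∈ range r, ∑ x with (R x ∧ l x = 0), ψ (act (i : ZMod (m * r)) x)
      = ∑ x with (R x ∧ l x = (i : ZMod (m * r))), ψ x := by
    intro i _
    refine Finset.sum_nbij' (fun x => act i x) (fun x => act (-i) x) ?_ ?_ ?_ ?_ ?_
    · intro x hx
      simp only [Finset.mem_filter, Finset.mem_univ, true_and] at hx ⊢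
      exact ⟨hR _ _ hx.1, by rw [hl x hx.1, hx.2, zero_add]⟩
    · intro x hx
      simp only [Finset.mem_filter, Finset.mem_univ, true_and] at hx ⊢
      exact ⟨hR _ _ hx.1, by rw [hl x hx.1, hx.2, add_neg_cancel]⟩
    · intro x _
      rw [hadd, neg_add_cancel, h0]
    · intro x _
      rw [hadd, add_neg_cancel, h0]
    · intro x _
      rfl
  rw [Finset.sum_congr rfl h]
  have h2 : ∑ i ∈ range r, ∑ x with (R x ∧ l x = (i : ZMod (m * r))), ψ x =
      ∑ x with (R x ∧ blk m r (l x) = 0), ψ x := by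
    rw [← Finset.sum_fiberwise_of_maps_to (s := Finset.univ.filter
      (fun x => R x ∧ blk m r (l x) = 0)) (t := range r) (g := fun x => (l x).val)]
    · apply Finset.sum_congr rfl
      intro i hi
      rw [Finset.mem_range] at hi
      apply Finset.sum_congr _ (fun _ _ => rfl)
      ext x
      simp only [Finset.mem_filter, Finset.mem_univ, true_and, blk_eq_zero]
      constructor
      · rintro ⟨h1, h2⟩
        have h3 : (l x).val = i := by
          rw [h2, ZMod.val_natCast, Nat.mod_eq_of_lt (lt_of_lt_of_le hi hrm)]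
        exact ⟨⟨h1, by rw [h3]; exact hi⟩, h3⟩
      · rintro ⟨⟨h1, _⟩, h3⟩
        exact ⟨h1, by rw [← h3, ZMod.natCast_zmod_val]⟩
    · intro x hx
      simp only [Finset.mem_filter, Finset.mem_univ, true_and, blk_eq_zero] at hx
      rw [Finset.mem_range]
      exact hx.2
  rw [h2]
  refine sum_slice (fun c x => act (emb m r c) x) ?_ ?_ R ?_ _ _ ?_ hl' ψ hψ
  · intro x
    simp only [map_zero, h0]
  · intro a b x
    simp only [map_add, hadd]
  · intro c x hx
    exact hR _ _ hx
  · intro x hx c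
    rw [hl x hx, blk_add]

end block

end Pool.Agent.Y72.Log
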