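import Mathlib.LinearAlgebra.Matrix.Charpoly.Eigs
import Mathlib.FieldTheory.IsAlgClosed.AlgebraicClosure
import Mathlib.FieldTheory.IsAlgClosed.Spectrum
import Mathlib.RingTheory.Polynomial.Basic
import Mathlib.Tactic

/-!
# The determinant on a generalized eigenspace
-/

set_option autoImplicit false
set_option linter.unusedSectionVars false

namespace Pool.Agent.Y72.Log

open Polynomial

variable {L : Type*} [Field L] {m : Type*} [Fintype m] [DecidableEq m]

/-- the idempotent of an eigenvalue -/
lemma exists_idem (M : Matrix m m L) {x : L} (hx : M.charpoly.IsRoot x) :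
    ∃ (e : Matrix m m L) (N : ℕ), e * e = e ∧ (∀ y : Matrix m m L, y * M = M * y → y * e = e * y) ∧
      (M - Matrix.scalar m x) ^ N * e = 0 ∧ e ≠ 0 ∧ ∃ P : L[X], e = aeval M P := by
  have hne : M.charpoly ≠ 0 := M.charpoly_monic.ne_zero
  obtain ⟨g, hg1, hg2⟩ := exists_eq_pow_rootMultiplicity_mul_and_not_dvd M.charpoly hne x
  set k := rootMultiplicity x M.charpoly
  have hcop : IsCoprime ((X - C x) ^ k) g := by
    apply IsCoprime.pow_left
    exact (irreducible_X_sub_C x).coprime_iff_not_dvd.2 hg2
  obtain ⟨a, b, hab⟩ := hcop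
  have hCH : aeval M M.charpoly = 0 := M.aeval_self_charpoly
  have h0 : ∀ P : L[X], aeval M (P * M.charpoly) = 0 := by
    intro P
    rw [map_mul, hCH, mul_zero]
  refine ⟨aeval M (b * g), k, ?_, ?_, ?_, ?_, ⟨b * g, rfl⟩⟩
  · have h1 : (b * g) * (b * g) = b * g - (a * b) * M.charpoly := by
      rw [hg1]
      linear_combination (b * g) * hab
    rw [← map_mul, h1, map_sub, h0, sub_zero]
  · intro y hy
    have h1 : ∀ P : L[X], y * aeval M P = aeval M P * y := by
      intro P
      induction P using Polynomial.induction_on' with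
      | add p q hp hq => rw [map_add, mul_add, add_mul, hp, hq]
      | monomial n c =>
        rw [aeval_monomial]
        have h2 : Commute y (M ^ n) := (show Commute y M from hy).pow_right n
        rw [← mul_assoc, ← (Algebra.commutes c y), mul_assoc, h2.eq, mul_assoc]
    exact h1 _
  · have h1 : (M - Matrix.scalar m x) = aeval M (X - C x) := by
      rw [map_sub, aeval_X, aeval_C]
      rfl
    rw [h1, ← map_pow, ← map_mul]
    have h2 : (X - C x) ^ k * (b * g) = b * M.charpoly := by
      rw [hg1]
      ring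
    rw [h2, h0]
  · intro h1
    have hk : k ≠ 0 := by
      have := (rootMultiplicity_pos hne).2 hx
      omega
    have hT : (M - Matrix.scalar m x) = aeval M (X - C x) := by
      rw [map_sub, aeval_X, aeval_C]
      rfl
    have h2 : aeval M a * (M - Matrix.scalar m x) ^ k = 1 := by
      have h3 := congrArg (aeval M) hab
      rw [map_add, map_one, h1, add_zero, map_mul, map_pow, ← hT] at h3
      exact h3
    have h7 := congrArg Matrix.det h2
    rw [Matrix.det_mul, Matrix.det_pow, Matrix.det_one] at h7
    have h8 : M.charpoly.eval x = 0 := hx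
    rw [Matrix.eval_charpoly] at h8
    have h9 : M - Matrix.scalar m x = -(Matrix.scalar m x - M) := by rw [neg_sub]
    rw [h9, Matrix.det_neg, h8, mul_zero, zero_pow hk, mul_zero] at h7
    exact zero_ne_one h7

/-- the determinant of the corner -/
noncomputable def cdet (e y : Matrix m m L) : L := (e * y + (1 - e)).det

lemma cdet_one (e : Matrix m m L) : cdet e 1 = 1 := by
  unfold cdet
  rw [mul_one, add_sub_cancel, Matrix.det_one]

lemma cdet_mul {e y z : Matrix m m L} (he : e * e = e) (hy : y * e = e * y) :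
    cdet e (y * z) = cdet e y * cdet e z := by
  unfold cdet
  rw [← Matrix.det_mul]
  congr 1
  have h1 : e * y * (e * z) = e * (y * z) := by
    calc e * y * (e * z) = e * (y * e) * z := by noncomm_ring
      _ = (e * e) * y * z := by rw [hy]; noncomm_ring
      _ = e * (y * z) := by rw [he]; noncomm_ring
  have h2 : e * y * (1 - e) = 0 := by
    calc e * y * (1 - e) = e * y - e * (y * e) := by noncomm_ring
      _ = e * y - (e * e) * y := by rw [hy]; noncomm_ring
      _ = 0 := by rw [he, sub_self]
  have h3 : (1 - e) * (e * z) = 0 := by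
    calc (1 - e) * (e * z) = e * z - (e * e) * z := by noncomm_ring
      _ = 0 := by rw [he, sub_self]
  have h4 : (1 - e) * (1 - e) = 1 - e := by
    calc (1 - e) * (1 - e) = 1 - e - e + e * e := by noncomm_ring
      _ = 1 - e := by rw [he]; abel
  rw [mul_add, add_mul, add_mul, h1, h2, h3, h4, zero_add, add_zero]

/-- over an algebraically closed field -/
lemma det_two_eigenvalues [IsAlgClosed L] (M : Matrix m m L) {x : L} (N : ℕ)
    (h : (M - 1) * (M - Matrix.scalar m x) ^ N = 0) :
    (∃ j : ℕ, 0 < j ∧ M.det = x ^ j) ∨ IsUnit (M - Matrix.scalar m x) ∨ x = 1 := by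
  by_cases hx1 : x = 1
  · exact Or.inr (Or.inr hx1)
  have hroots : ∀ ν ∈ M.charpoly.roots, ν = 1 ∨ ν = x := by
    intro ν hν
    have h1 : ν ∈ spectrum L M :=
      Matrix.mem_spectrum_iff_isRoot_charpoly.2 (Polynomial.isRoot_of_mem_roots hν)
    have h2 : ((X - C 1) * (X - C x) ^ N : L[X]).eval ν ∈
        spectrum L (aeval M ((X - C 1) * (X - C x) ^ N : L[X])) :=
      spectrum.subset_polynomial_aeval M _ ⟨ν, h1, rfl⟩
    have h3 : aeval M ((X - C 1) * (X - C x) ^ N : L[X]) = 0 := by
      rw [map_mul, map_pow, map_sub, map_sub, aeval_X, aeval_C, aeval_C, map_one]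
      exact h
    rw [h3] at h2
    haveI : Nontrivial (Matrix m m L) := by
      by_contra hc
      rw [not_nontrivial_iff_subsingleton] at hc
      rw [spectrum.of_subsingleton] at h1
      exact h1
    rw [spectrum.zero_eq, Set.mem_singleton_iff, eval_mul, eval_pow, eval_sub, eval_sub, eval_X,
      eval_C, eval_C] at h2
    rcases mul_eq_zero.1 h2 with h4 | h4
    · exact Or.inl (sub_eq_zero.1 h4)
    · exact Or.inr (sub_eq_zero.1 (eq_zero_of_pow_eq_zero h4))
  by_cases hxr : x ∈ M.charpoly.roots
  · left
    have h1 : ∀ s : Multiset L, (∀ ν ∈ s, ν = 1 ∨ ν = x) → ∃ j : ℕ, s.prod = x ^ j ∧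
        (x ∈ s → 0 < j) := by
      intro s
      induction s using Multiset.induction_on with
      | empty => intro _; exact ⟨0, by simp, by simp⟩
      | cons a s ih =>
        intro hs
        obtain ⟨j, hj1, hj2⟩ := ih (fun ν hν => hs ν (Multiset.mem_cons_of_mem hν))
        rcases hs a (Multiset.mem_cons_self a s) with h2 | h2
        · refine ⟨j, by rw [Multiset.prod_cons, h2, one_mul, hj1], ?_⟩
          intro h3
          rcases Multiset.mem_cons.1 h3 with h4 | h4
          · exact absurd (h4.trans h2) hx1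
          · exact hj2 h4
        · exact ⟨j + 1, by rw [Multiset.prod_cons, h2, hj1, pow_succ, mul_comm],
            fun _ => Nat.succ_pos j⟩
    obtain ⟨j, hj1, hj2⟩ := h1 _ hroots
    exact ⟨j, hj2 hxr, by rw [Matrix.det_eq_prod_roots_charpoly, hj1]⟩
  · right; left
    have h1 : M.charpoly.eval x ≠ 0 := by
      intro hc
      exact hxr ((mem_roots M.charpoly_monic.ne_zero).2 hc)
    rw [Matrix.eval_charpoly] at h1
    rw [Matrix.isUnit_iff_isUnit_det, isUnit_iff_ne_zero]
    have h9 : M - Matrix.scalar m x = -(Matrix.scalar m x - M) := by rw [neg_sub]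
    rw [h9, Matrix.det_neg]
    exact mul_ne_zero (pow_ne_zero _ (neg_ne_zero.2 one_ne_zero)) h1

/-- the value on the matrix itself, algebraically closed case -/
lemma cdet_self_closed [IsAlgClosed L] {M e : Matrix m m L} {x : L} {N : ℕ} (he : e * e = e)
    (hM : M * e = e * M) (hN : (M - Matrix.scalar m x) ^ N * e = 0) (he0 : e ≠ 0) (hx : x ≠ 1) :
    ∃ j : ℕ, 0 < j ∧ cdet e M = x ^ j := by
  set M' := e * M + (1 - e) with hM'
  set T := M' - Matrix.scalar m x with hT
  set T0 := M - Matrix.scalar m x with hT0
  have hs : Matrix.scalar m x * e = e * Matrix.scalar m x :=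
    (Matrix.scalar_commute x (fun y => Commute.all x y) e).eq
  have hz2 : (1 - e) * e = 0 := by rw [sub_mul, one_mul, he, sub_self]
  have hz1 : e * (1 - e) = 0 := by rw [mul_sub, mul_one, he, sub_self]
  have hf : (1 - e) * (1 - e) = 1 - e := by rw [mul_sub, mul_one, hz2, sub_zero]
  have hMe : M' * e = M * e := by
    rw [hM', add_mul, hz2, add_zero, mul_assoc, hM, ← mul_assoc, he]
  have hTe : T * e = T0 * e := by rw [hT, hT0, sub_mul, sub_mul, hMe]
  have hcT0 : T0 * e = e * T0 := by rw [hT0, sub_mul, mul_sub, hM, hs]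
  have h2 : ∀ n : ℕ, T ^ n * e = T0 ^ n * e := by
    intro n
    induction n with
    | zero => rw [pow_zero, pow_zero]
    | succ n ih =>
      calc T ^ (n + 1) * e = T ^ n * (T * e) := by rw [pow_succ, mul_assoc]
        _ = T ^ n * e * T0 := by rw [hTe, hcT0, mul_assoc]
        _ = T0 ^ n * (e * T0) := by rw [ih, mul_assoc]
        _ = T0 ^ (n + 1) * e := by rw [← hcT0, ← mul_assoc, ← pow_succ]
  have h3 : (M' - 1) * (1 - e) = 0 := by
    have h4 : e * M * (1 - e) = 0 := by
      calc e * M * (1 - e) = e * M - e * (M * e) := by rw [mul_sub, mul_one, mul_assoc]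
        _ = e * M - e * e * M := by rw [hM, mul_assoc]
        _ = 0 := by rw [he, sub_self]
    rw [sub_mul, one_mul, hM', add_mul, h4, hf, zero_add, sub_self]
  have hcomm : Commute (M' - 1) T := by
    rw [hT]
    apply Commute.sub_right
    · exact (Commute.refl M').sub_left (Commute.one_left M')
    · exact (Matrix.scalar_commute x (fun y => Commute.all x y) _).symm
  have h5 : (M' - 1) * T ^ N = 0 := by
    calc (M' - 1) * T ^ N = (M' - 1) * (T ^ N * e) + T ^ N * ((M' - 1) * (1 - e)) := by
          rw [← mul_assoc (T ^ N), ← (hcomm.pow_right N).eq]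
          rw [mul_assoc, ← mul_add, ← mul_add, add_sub_cancel, mul_one]
      _ = 0 := by rw [h2, hN, h3, mul_zero, mul_zero, add_zero]
  rcases det_two_eigenvalues M' N h5 with h6 | h6 | h6
  · exact h6
  · exfalso
    apply he0
    have h7 : IsUnit (T ^ N) := h6.pow N
    have h8 : T ^ N * e = 0 := by rw [h2, hN]
    exact (h7.mul_right_eq_zero).1 h8
  · exact absurd h6 hx

lemma cdet_self {M e : Matrix m m L} {x : L} {N : ℕ} (he : e * e = e)
    (hM : M * e = e * M) (hN : (M - Matrix.scalar m x) ^ N * e = 0) (he0 : e ≠ 0) (hx : x ≠ 1) :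
    ∃ j : ℕ, 0 < j ∧ cdet e M = x ^ j := by
  let f : L →+* AlgebraicClosure L := algebraMap L (AlgebraicClosure L)
  let φ : Matrix m m L →+* Matrix m m (AlgebraicClosure L) := f.mapMatrix
  have hφs : φ (Matrix.scalar m x) = Matrix.scalar m (f x) := by
    ext i j
    show f (Matrix.scalar m x i j) = _
    rw [Matrix.scalar_apply, Matrix.scalar_apply, Matrix.diagonal_apply, Matrix.diagonal_apply]
    split_ifs
    · rfl
    · exact map_zero f
  obtain ⟨j, hj, h1⟩ := cdet_self_closed (M := φ M) (e := φ e) (x := f x) (N := N)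
    (by rw [← map_mul, he]) (by rw [← map_mul, hM, map_mul])
    (by rw [← hφs, ← map_sub, ← map_pow, ← map_mul, hN, map_zero])
    (by
      intro hc
      apply he0
      ext i j
      apply f.injective
      have := congrFun (congrFun hc i) j
      rw [Matrix.zero_apply, map_zero]
      exact this)
    (by
      intro hc
      apply hx
      apply f.injective
      rw [hc, map_one])
  refine ⟨j, hj, ?_⟩
  apply f.injective
  rw [map_pow, ← h1]
  unfold cdet
  rw [RingHom.map_det, ← map_one φ, ← map_sub, ← map_mul, ← map_add]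

end Pool.Agent.Y72.Log
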