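import Pool.Agent.Y72.Log.Val
import Mathlib.NumberTheory.NumberField.Units.DirichletTheorem
import Mathlib.NumberTheory.NumberField.ClassNumber
import Mathlib.RingTheory.DedekindDomain.FiniteAdeleRing
import Mathlib.Tactic

/-!
# Homomorphisms from the multiplicative group of a number field to the integers
-/

set_option autoImplicit false
set_option linter.unusedSectionVars false

namespace Pool.Agent.Y72.Log

open NumberField IsDedekindDomain
open scoped Classical

section nf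

variable {K : Type*} [Field K] [NumberField K]

/-- the logarithmic valuation -/
noncomputable def lv (P : HeightOneSpectrum (𝓞 K)) (x : K) : ℤ := WithZero.log (P.valuation K x)

lemma val_ne_zero (P : HeightOneSpectrum (𝓞 K)) {x : K} (hx : x ≠ 0) : P.valuation K x ≠ 0 :=
  (Valuation.ne_zero_iff _).2 hx

lemma lv_isVal (P : HeightOneSpectrum (𝓞 K)) : IsVal (lv P) := by
  intro x y hx hy
  unfold lv
  rw [map_mul, WithZero.log_mul (val_ne_zero P hx) (val_ne_zero P hy)]

lemma lv_eq_zero_iff (P : HeightOneSpectrum (𝓞 K)) {x : K} (hx : x ≠ 0) :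
    lv P x = 0 ↔ P.valuation K x = 1 := by
  unfold lv
  constructor
  · intro h
    rw [← WithZero.exp_log (val_ne_zero P hx), h, WithZero.exp_zero]
  · intro h
    rw [h, WithZero.log_one]

lemma lv_finite {x : K} (hx : x ≠ 0) : {P : HeightOneSpectrum (𝓞 K) | lv P x ≠ 0}.Finite := by
  refine ((HeightOneSpectrum.Support.finite (𝓞 K) x).union
    (HeightOneSpectrum.Support.finite (𝓞 K) x⁻¹)).subset ?_
  intro P hP
  rcases lt_trichotomy (P.valuation K x) 1 with h | h | h
  · right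
    show 1 < P.valuation K x⁻¹
    rw [map_inv₀]
    exact (one_lt_inv₀ (zero_lt_iff.2 (val_ne_zero P hx))).2 h
  · exact absurd ((lv_eq_zero_iff P hx).2 h) hP
  · left
    exact h

/-- a generator of a power of a prime ideal -/
lemma exists_gen (P : HeightOneSpectrum (𝓞 K)) :
    ∃ a : 𝓞 K, a ≠ 0 ∧ P.asIdeal ^ (classNumber K) = Ideal.span {a} := by
  have h0 : P.asIdeal ∈ nonZeroDivisors (Ideal (𝓞 K)) :=
    mem_nonZeroDivisors_iff_ne_zero.2 P.ne_bot
  have h1 : (ClassGroup.mk0 (⟨P.asIdeal, h0⟩ : nonZeroDivisors (Ideal (𝓞 K)))) ^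
      (classNumber K) = 1 := by
    unfold classNumber
    exact pow_card_eq_one
  rw [← map_pow, ClassGroup.mk0_eq_one_iff] at h1
  obtain ⟨a, ha⟩ := h1.1
  have ha' : P.asIdeal ^ (classNumber K) = Ideal.span {a} := by
    rw [← Ideal.submodule_span_eq, ← ha]
    rfl
  refine ⟨a, ?_, ha'⟩
  rintro rfl
  rw [Ideal.span_singleton_eq_bot.2 rfl] at ha'
  exact (pow_ne_zero _ P.ne_bot) ha'

/-- the generator -/
noncomputable def gen (P : HeightOneSpectrum (𝓞 K)) : 𝓞 K := (exists_gen P).choose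

lemma gen_ne (P : HeightOneSpectrum (𝓞 K)) : ((gen P : 𝓞 K) : K) ≠ 0 := by
  have := (exists_gen P).choose_spec.1
  exact_mod_cast this

lemma gen_span (P : HeightOneSpectrum (𝓞 K)) :
    P.asIdeal ^ (classNumber K) = Ideal.span {gen P} := (exists_gen P).choose_spec.2

lemma lv_gen_self (P : HeightOneSpectrum (𝓞 K)) :
    lv P ((gen P : 𝓞 K) : K) = -(classNumber K : ℤ) := by
  have h1 : P.valuation K ((gen P : 𝓞 K) : K) = P.intValuation (gen P) :=
    HeightOneSpectrum.valuation_of_algebraMap P (gen P)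
  have h2 : P.intValuation (gen P) ≤ WithZero.exp (-(classNumber K : ℤ)) := by
    rw [HeightOneSpectrum.intValuation_le_pow_iff_dvd, gen_span]
  have h3 : ¬ P.intValuation (gen P) ≤ WithZero.exp (-((classNumber K + 1 : ℕ) : ℤ)) := by
    rw [HeightOneSpectrum.intValuation_le_pow_iff_dvd, ← gen_span]
    intro hc
    have h4 := Ideal.le_of_dvd hc
    have h5 : P.asIdeal ^ (classNumber K) = P.asIdeal ^ (classNumber K + 1) :=
      le_antisymm h4 (Ideal.pow_le_pow_right (Nat.le_succ _))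
    have h6 := (Ideal.pow_right_strictAnti P.asIdeal P.ne_bot P.isPrime.ne_top)
      (Nat.lt_succ_self (classNumber K))
    exact absurd h5 h6.ne'
  have h0 := val_ne_zero P (gen_ne P)
  unfold lv
  rw [h1] at h0 ⊢
  rw [← WithZero.log_le_iff_le_exp h0] at h2 h3
  push_cast at h3
  omega

lemma lv_gen_ne {P Q : HeightOneSpectrum (𝓞 K)} (h : Q ≠ P) :
    lv Q ((gen P : 𝓞 K) : K) = 0 := by
  rw [lv_eq_zero_iff Q (gen_ne P), HeightOneSpectrum.valuation_of_algebraMap]
  rcases lt_or_eq_of_le (HeightOneSpectrum.intValuation_le_one Q (gen P)) with h1 | h1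
  · exfalso
    rw [HeightOneSpectrum.intValuation_lt_one_iff_dvd, ← gen_span] at h1
    have h2 : P.asIdeal ≤ Q.asIdeal := Q.isPrime.le_of_pow_le (Ideal.le_of_dvd h1)
    apply h
    have h3 : P.asIdeal = Q.asIdeal := (P.isPrime.isMaximal P.ne_bot).eq_of_le Q.isPrime.ne_top h2
    exact (HeightOneSpectrum.ext h3).symm
  · exact h1

/-- the product of the generators -/
noncomputable def prodGen (x : K) : K :=
  ∏ᶠ P : HeightOneSpectrum (𝓞 K), ((gen P : 𝓞 K) : K) ^ (lv P x)

lemma supp_finite {x : K} (hx : x ≠ 0) : (Function.mulSupport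
    (fun P : HeightOneSpectrum (𝓞 K) => ((gen P : 𝓞 K) : K) ^ (lv P x))).Finite := by
  refine (lv_finite hx).subset ?_
  intro P hP hc
  apply hP
  show ((gen P : 𝓞 K) : K) ^ (lv P x) = 1
  rw [hc, zpow_zero]

lemma prodGen_mul {x y : K} (hx : x ≠ 0) (hy : y ≠ 0) :
    prodGen (x * y) = prodGen x * prodGen y := by
  unfold prodGen
  rw [← finprod_mul_distrib (supp_finite hx) (supp_finite hy)]
  apply finprod_congr
  intro P
  rw [lv_isVal P x y hx hy, zpow_add₀ (gen_ne P)]

lemma IsVal.inv {L : Type*} [Field L] {v : L → ℤ} (h : IsVal v) {x : L} (hx : x ≠ 0) :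
    v x⁻¹ = - v x := by
  have h1 := h x x⁻¹ hx (inv_ne_zero hx)
  rw [mul_inv_cancel₀ hx, h.one] at h1
  omega

lemma IsVal.zpow {L : Type*} [Field L] {v : L → ℤ} (h : IsVal v) {x : L} (hx : x ≠ 0) (n : ℤ) :
    v (x ^ n) = n * v x := by
  cases n with
  | ofNat n => rw [Int.ofNat_eq_natCast, zpow_natCast, h.pow hx]
  | negSucc n =>
    rw [zpow_negSucc, h.inv (pow_ne_zero _ hx), h.pow hx, Int.negSucc_eq]
    push_cast
    ring

lemma IsVal.prod {L : Type*} [Field L] {v : L → ℤ} (h : IsVal v) {J : Type*} (s : Finset J)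
    (f : J → L) (hf : ∀ j ∈ s, f j ≠ 0) : v (∏ j ∈ s, f j) = ∑ j ∈ s, v (f j) := by
  induction s using Finset.induction_on with
  | empty => rw [Finset.prod_empty, Finset.sum_empty, h.one]
  | insert a s ha ih =>
    rw [Finset.prod_insert ha, Finset.sum_insert ha, h _ _ (hf a (Finset.mem_insert_self a s))
      (Finset.prod_ne_zero_iff.2 (fun j hj => hf j (Finset.mem_insert_of_mem hj))),
      ih (fun j hj => hf j (Finset.mem_insert_of_mem hj))]

lemma prodGen_eq {x : K} (hx : x ≠ 0) : prodGen x =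
    ∏ P ∈ (lv_finite hx).toFinset, ((gen P : 𝓞 K) : K) ^ (lv P x) := by
  unfold prodGen
  apply finprod_eq_prod_of_mulSupport_subset
  intro P hP
  rw [Set.Finite.coe_toFinset]
  intro hc
  apply hP
  show ((gen P : 𝓞 K) : K) ^ (lv P x) = 1
  rw [hc, zpow_zero]

lemma prodGen_ne {x : K} (hx : x ≠ 0) : prodGen x ≠ 0 := by
  rw [prodGen_eq hx]
  exact Finset.prod_ne_zero_iff.2 (fun P _ => zpow_ne_zero _ (gen_ne P))

lemma lv_prodGen {x : K} (hx : x ≠ 0) (Q : HeightOneSpectrum (𝓞 K)) :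
    lv Q (prodGen x) = -(classNumber K : ℤ) * lv Q x := by
  rw [prodGen_eq hx, (lv_isVal Q).prod _ _ (fun P _ => zpow_ne_zero _ (gen_ne P))]
  have h1 : ∀ P ∈ (lv_finite hx).toFinset, lv Q (((gen P : 𝓞 K) : K) ^ (lv P x)) =
      if P = Q then -(classNumber K : ℤ) * lv Q x else 0 := by
    intro P _
    rw [(lv_isVal Q).zpow (gen_ne P)]
    by_cases h : P = Q
    · rw [if_pos h, h, lv_gen_self, mul_comm]
    · rw [if_neg h, lv_gen_ne (fun hc => h hc.symm), mul_zero]
  rw [Finset.sum_congr rfl h1, Finset.sum_ite_eq']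
  by_cases hQ : lv Q x = 0
  · rw [hQ, mul_zero, ite_self]
  · rw [if_pos]
    rw [Set.Finite.mem_toFinset]
    exact hQ

/-- the unit part -/
noncomputable def uPart (x : K) : K := x ^ (classNumber K) * prodGen x

lemma uPart_mul {x y : K} (hx : x ≠ 0) (hy : y ≠ 0) : uPart (x * y) = uPart x * uPart y := by
  unfold uPart
  rw [prodGen_mul hx hy, mul_pow]
  ring

lemma uPart_ne {x : K} (hx : x ≠ 0) : uPart x ≠ 0 :=
  mul_ne_zero (pow_ne_zero _ hx) (prodGen_ne hx)

lemma lv_uPart {x : K} (hx : x ≠ 0) (Q : HeightOneSpectrum (𝓞 K)) : lv Q (uPart x) = 0 := by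
  unfold uPart
  rw [lv_isVal Q _ _ (pow_ne_zero _ hx) (prodGen_ne hx), (lv_isVal Q).pow hx, lv_prodGen hx]
  ring

lemma exists_unit_of_lv {x : K} (hx : x ≠ 0) (h : ∀ Q : HeightOneSpectrum (𝓞 K), lv Q x = 0) :
    ∃ u : (𝓞 K)ˣ, ((u : 𝓞 K) : K) = x := by
  have h1 : ∀ Q : HeightOneSpectrum (𝓞 K), Q.valuation K x = 1 :=
    fun Q => (lv_eq_zero_iff Q hx).1 (h Q)
  obtain ⟨a, ha⟩ := HeightOneSpectrum.mem_integers_of_valuation_le_one (R := 𝓞 K) K x
    (fun Q => (h1 Q).le)
  obtain ⟨b, hb⟩ := HeightOneSpectrum.mem_integers_of_valuation_le_one (R := 𝓞 K) K x⁻¹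
    (fun Q => by rw [map_inv₀, h1, inv_one])
  have hab : a * b = 1 := by
    apply FaithfulSMul.algebraMap_injective (𝓞 K) K
    rw [map_mul, ha, hb, map_one, mul_inv_cancel₀ hx]
  exact ⟨⟨a, b, hab, by rw [mul_comm]; exact hab⟩, ha⟩

/-- a linear form which does not vanish on an element of infinite order -/
lemma exists_lin_ne (M : Type*) [AddCommGroup M] [Module.Finite ℤ M] (x : M)
    (hx : ∀ n : ℕ, 0 < n → n • x ≠ 0) : ∃ g : M →+ ℤ, g x ≠ 0 := by
  let T := Submodule.torsion ℤ M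
  have h1 : T.mkQ x ≠ 0 := by
    intro hc
    rw [Submodule.mkQ_apply, Submodule.Quotient.mk_eq_zero] at hc
    obtain ⟨a, ha⟩ := (Submodule.mem_torsion_iff x).1 hc
    have ha0 : (a : ℤ) ≠ 0 := nonZeroDivisors.ne_zero a.2
    apply hx (a : ℤ).natAbs (Int.natAbs_pos.2 ha0)
    have ha' : (a : ℤ) • x = 0 := ha
    rw [← natCast_zsmul]
    rcases Int.natAbs_eq (a : ℤ) with h | h
    · rw [← h]
      exact ha'
    · have h2 : (((a : ℤ).natAbs : ℕ) : ℤ) = -(a : ℤ) := by omega
      rw [h2, neg_smul, ha', neg_zero]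
  let b := Module.Free.chooseBasis ℤ (M ⧸ T)
  obtain ⟨i, hi⟩ : ∃ i, b.repr (T.mkQ x) i ≠ 0 := by
    by_contra hc
    push Not at hc
    apply h1
    rw [← b.repr.map_eq_zero_iff]
    ext i
    exact hc i
  exact ⟨(Finsupp.applyAddHom i).comp ((b.repr.toLinearMap.comp T.mkQ).toAddMonoidHom), hi⟩

/-- **a homomorphism which does not vanish on a given element of infinite order** -/
theorem exists_val_nf (x : K) (hx0 : x ≠ 0) (hx : ∀ n : ℕ, 0 < n → x ^ n ≠ 1) :
    ∃ v : K → ℤ, IsVal v ∧ v x ≠ 0 := by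
  by_cases hP : ∃ P : HeightOneSpectrum (𝓞 K), lv P x ≠ 0
  · obtain ⟨P, hP⟩ := hP
    exact ⟨lv P, lv_isVal P, hP⟩
  push Not at hP
  obtain ⟨l, hl⟩ := exists_unit_of_lv hx0 hP
  -- a coordinate
  obtain ⟨g, hg⟩ := exists_lin_ne (Additive (𝓞 K)ˣ) (Additive.ofMul l) (by
    intro n hn h3
    apply hx n hn
    have h4 : l ^ n = 1 := h3
    have h6 : (((l ^ n : (𝓞 K)ˣ) : 𝓞 K) : K) = (((l : 𝓞 K) : K)) ^ n := by
      rw [Units.val_pow_eq_pow_val]
      exact map_pow (algebraMap (𝓞 K) K) _ _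
    rw [← hl, ← h6, h4, Units.val_one]
    exact map_one (algebraMap (𝓞 K) K))
  let w : (𝓞 K)ˣ → ℤ := fun u => g (Additive.ofMul u)
  have hw : ∀ u u', w (u * u') = w u + w u' := by
    intro u u'
    show g (Additive.ofMul (u * u')) = _
    rw [ofMul_mul, map_add]
  have hU : ∀ y : K, ∃ u : (𝓞 K)ˣ, y ≠ 0 → ((u : 𝓞 K) : K) = uPart y := by
    intro y
    by_cases hy : y = 0
    · exact ⟨1, fun h => absurd hy h⟩
    · obtain ⟨u, hu⟩ := exists_unit_of_lv (uPart_ne hy) (lv_uPart hy)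
      exact ⟨u, fun _ => hu⟩
  choose U hU using hU
  have hinj : ∀ u u' : (𝓞 K)ˣ, ((u : 𝓞 K) : K) = ((u' : 𝓞 K) : K) → u = u' := by
    intro u u' h
    apply Units.ext
    exact FaithfulSMul.algebraMap_injective (𝓞 K) K h
  refine ⟨fun y => w (U y), ?_, ?_⟩
  · intro y z hy hz
    show w (U (y * z)) = w (U y) + w (U z)
    have h1 : U (y * z) = U y * U z := by
      apply hinj
      rw [hU _ (mul_ne_zero hy hz), uPart_mul hy hz, Units.val_mul, ← hU _ hy, ← hU _ hz]
      exact (map_mul (algebraMap (𝓞 K) K) _ _).symm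
    rw [h1, hw]
  · show w (U x) ≠ 0
    have h1 : U x = l ^ (classNumber K) := by
      apply hinj
      have h3 : (((l ^ (classNumber K) : (𝓞 K)ˣ) : 𝓞 K) : K) =
          (((l : 𝓞 K) : K)) ^ (classNumber K) := by
        rw [Units.val_pow_eq_pow_val]
        exact map_pow (algebraMap (𝓞 K) K) _ _
      rw [hU x hx0, h3, hl]
      unfold uPart
      have h2 : prodGen x = 1 := by
        unfold prodGen
        rw [finprod_eq_one_of_forall_eq_one]
        intro P
        rw [hP P, zpow_zero]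
      rw [h2, mul_one]
    have h2 : ∀ n : ℕ, w (l ^ n) = n * w l := by
      intro n
      induction n with
      | zero =>
        have h3 := hw 1 1
        rw [mul_one] at h3
        rw [pow_zero, Nat.cast_zero, zero_mul]
        omega
      | succ n ih =>
        rw [pow_succ, hw, ih]
        push_cast
        ring
    rw [h1, h2]
    apply mul_ne_zero _ hg
    have : 0 < classNumber K := classNumber_pos K
    exact_mod_cast this.ne'

end nf

end Pool.Agent.Y72.Log
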