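import Pool.Agent.Y72.Log.Rat
import Pool.Agent.Y72.Log.Idem
import Pool.Agent.Y72.Log.NF
import Pool.Agent.H23R2.Fin

/-!
# Centralisers in linear groups without unipotent elements
-/

set_option autoImplicit false
set_option linter.unusedSectionVars false

namespace Pool.Agent.Y72.Log

open Finset
open scoped Classical

section cen

variable {H L : Type*} [Group H] [Field L] {N : ℕ}

/-- the additive function on the centraliser -/
lemma cen_of (ψ : H →* GL (Fin N) L) (c : H) {x : L} {e : Matrix (Fin N) (Fin N) L} {k : ℕ}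
    (he : e * e = e) (hce : ∀ y : Matrix (Fin N) (Fin N) L, y * (ψ c).val = (ψ c).val * y →
      y * e = e * y)
    (hN : ((ψ c).val - Matrix.scalar (Fin N) x) ^ k * e = 0) (he0 : e ≠ 0) (hx1 : x ≠ 1)
    (R : Subring L) (hψ : ∀ h i j, (ψ h).val i j ∈ R) (heR : ∀ i j, e i j ∈ R) (hxR : x ∈ R)
    (w : R → ℤ) (hw : ∀ a b : R, IsUnit a → IsUnit b → w (a * b) = w a + w b)
    (hwx : w ⟨x, hxR⟩ ≠ 0) : ∃ f : H → ℤ, AddOn c f ∧ f c ≠ 0 := by
  have hmem : ∀ h, cdet e (ψ h).val ∈ R := by
    intro h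
    let e' : Matrix (Fin N) (Fin N) R := Matrix.of fun i j => ⟨e i j, heR i j⟩
    let p' : Matrix (Fin N) (Fin N) R := Matrix.of fun i j => ⟨(ψ h).val i j, hψ h i j⟩
    have h1 : cdet e (ψ h).val = R.subtype ((e' * p' + (1 - e')).det) := by
      rw [RingHom.map_det, map_add, map_mul, map_sub, map_one]
      rfl
    rw [h1]
    exact Subtype.property _
  let D : H → R := fun h => ⟨cdet e (ψ h).val, hmem h⟩
  have hcomm : ∀ h, h * c = c * h → (ψ h).val * e = e * (ψ h).val := by
    intro h hh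
    apply hce
    rw [← Units.val_mul, ← Units.val_mul, ← map_mul, ← map_mul, hh]
  have hD : ∀ h h', h * c = c * h → D (h * h') = D h * D h' := by
    intro h h' hh
    apply Subtype.ext
    show cdet e (ψ (h * h')).val = cdet e (ψ h).val * cdet e (ψ h').val
    rw [map_mul, Units.val_mul, cdet_mul he (hcomm h hh)]
  have hD1 : D 1 = 1 := by
    apply Subtype.ext
    show cdet e (ψ 1).val = 1
    rw [map_one, Units.val_one, cdet_one]
  have hU : ∀ h, h * c = c * h → IsUnit (D h) := by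
    intro h hh
    have h1 : D h * D h⁻¹ = 1 := by rw [← hD h h⁻¹ hh, mul_inv_cancel, hD1]
    exact IsUnit.of_mul_eq_one _ h1
  refine ⟨fun h => w (D h), ?_, ?_⟩
  · intro h h' hh hh'
    show w (D (h * h')) = w (D h) + w (D h')
    rw [hD h h' hh, hw _ _ (hU h hh) (hU h' hh')]
  · show w (D c) ≠ 0
    obtain ⟨j, hj, h1⟩ := cdet_self he (hce _ rfl) hN he0 hx1
    have h2 : D c = (⟨x, hxR⟩ : R) ^ j := by
      apply Subtype.ext
      show cdet e (ψ c).val = x ^ j
      exact h1
    have h3 : IsUnit (⟨x, hxR⟩ : R) := by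
      have h4 := hU c rfl
      rw [h2] at h4
      exact (isUnit_pow_iff hj.ne').1 h4
    have hw1 : w 1 = 0 := by
      have := hw 1 1 isUnit_one isUnit_one
      rw [mul_one] at this
      exact left_eq_add.1 this
    have h4 : ∀ n : ℕ, w ((⟨x, hxR⟩ : R) ^ n) = n * w ⟨x, hxR⟩ := by
      intro n
      induction n with
      | zero => rw [pow_zero, hw1, Nat.cast_zero, zero_mul]
      | succ n ih =>
        rw [pow_succ, hw _ _ (h3.pow n) h3, ih]
        push_cast
        ring
    rw [h2, h4]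
    exact mul_ne_zero (by exact_mod_cast hj.ne') hwx

/-- entries of all elements -/
lemma entries_mem' (φ : H →* GL (Fin N) L) (T : Set H) (hT : Subgroup.closure T = ⊤)
    (R : Subring L)
    (h1 : ∀ t ∈ T, ∀ i j, (φ t).val i j ∈ R) (h2 : ∀ t ∈ T, ∀ i j, (φ t⁻¹).val i j ∈ R)
    (h : H) : ∀ i j, (φ h).val i j ∈ R := by
  have hmem : h ∈ Subgroup.closure T := by rw [hT]; trivial
  have hmul : ∀ x y : H, (∀ i j, (φ x).val i j ∈ R) → (∀ i j, (φ y).val i j ∈ R) →
      ∀ i j, (φ (x * y)).val i j ∈ R := by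
    intro x y hx hy i j
    rw [map_mul, Units.val_mul, Matrix.mul_apply]
    exact R.sum_mem (fun k _ => R.mul_mem (hx i k) (hy k j))
  induction hmem using Subgroup.closure_induction_left with
  | one =>
    intro i j
    rw [map_one, Units.val_one, Matrix.one_apply]
    split_ifs
    · exact R.one_mem
    · exact R.zero_mem
  | mul_left x hx y _ ih => exact hmul x y (h1 x hx) ih
  | inv_mul_cancel x hx y _ ih => exact hmul x⁻¹ y (h2 x hx) ih

end cen

section trans

variable {H : Type*} [Group H] {L : Type*} [Field L] {N : ℕ}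

/-- a finite set of generators of the ring of coefficients -/
lemma exists_gens [Group.FG H] (φ : H →* GL (Fin N) L) (e : Matrix (Fin N) (Fin N) L) (x : L) :
    ∃ s : Finset L, x ∈ s ∧ (∀ i j, e i j ∈ s) ∧ ∀ R : Subring L, (s : Set L) ⊆ R →
      ∀ h i j, (φ h).val i j ∈ R := by
  obtain ⟨T, hT⟩ := Group.fg_def.1 (inferInstance : Group.FG H)
  let s1 : Finset L := T.biUnion fun t => Finset.univ.biUnion fun i : Fin N =>
    Finset.univ.biUnion fun j : Fin N => {(φ t).val i j, (φ t⁻¹).val i j}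
  let s2 : Finset L := Finset.univ.biUnion fun i : Fin N =>
    Finset.univ.biUnion fun j : Fin N => {e i j}
  refine ⟨s1 ∪ s2 ∪ {x}, by simp, ?_, ?_⟩
  · intro i j
    simp only [Finset.mem_union]
    left; right
    simp only [s2, Finset.mem_biUnion, Finset.mem_univ, true_and, Finset.mem_singleton]
    exact ⟨i, j, rfl⟩
  · intro R hR
    apply entries_mem' φ (T : Set H) hT R
    · intro t ht i j
      apply hR
      simp only [Finset.coe_union, Set.mem_union]
      left; left
      simp only [s1, Finset.coe_biUnion, Set.mem_iUnion]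
      exact ⟨t, ht, i, by simp, j, by simp, by simp⟩
    · intro t ht i j
      apply hR
      simp only [Finset.coe_union, Set.mem_union]
      left; left
      simp only [s1, Finset.coe_biUnion, Set.mem_iUnion]
      exact ⟨t, ht, i, by simp, j, by simp, by simp⟩

/-- the transcendental case -/
lemma cen_trans [Group.FG H] (φ : H →* GL (Fin N) L) (F : Type*) [Field F] [Algebra F L] (c : H)
    {x : L} (hx : (φ c).val.charpoly.IsRoot x) (htr : Transcendental F x) :
    ∃ f : H → ℤ, AddOn c f ∧ f c ≠ 0 := by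
  obtain ⟨e, k, he, hce, hN, he0, _⟩ := exists_idem (φ c).val hx
  obtain ⟨s, hxs, hes, hφs⟩ := exists_gens φ e x
  let E : IntermediateField F L := IntermediateField.adjoin F (s : Set L)
  have hsE : (s : Set L) ⊆ E := IntermediateField.subset_adjoin F _
  have hx1 : x ≠ 1 := by
    rintro rfl
    exact htr (isAlgebraic_one)
  let s' : Set E := (fun y : E => (y : L)) ⁻¹' (s : Set L)
  have hs' : s'.Finite := s.finite_toSet.preimage Subtype.val_injective.injOn
  have htop : IntermediateField.adjoin F s' = ⊤ := by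
    apply IntermediateField.map_injective E.val
    rw [IntermediateField.adjoin_map, ← AlgHom.fieldRange_eq_map, IntermediateField.fieldRange_val]
    congr 1
    ext y
    constructor
    · rintro ⟨z, hz, rfl⟩
      exact hz
    · intro hy
      exact ⟨⟨y, hsE hy⟩, hy, rfl⟩
  have hxE : Transcendental F (⟨x, hsE hxs⟩ : E) := by
    intro hc
    apply htr
    exact hc.algHom E.val
  obtain ⟨v, hv, hvx⟩ := exists_val s' hs' htop hxE
  refine cen_of φ c he hce hN he0 hx1 E.toSubfield.toSubring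
    (hφs _ hsE) (fun i j => hsE (hes i j)) (hsE hxs) (fun y => v ⟨y.1, y.2⟩) ?_ hvx
  intro a b ha hb
  have h0 : ∀ a : E.toSubfield.toSubring, IsUnit a → (⟨a.1, a.2⟩ : E) ≠ 0 := by
    intro a ha hc
    have h1 : a = 0 := Subtype.ext (congrArg Subtype.val hc)
    rw [h1] at ha
    exact not_isUnit_zero ha
  exact hv _ _ (h0 a ha) (h0 b hb)

/-- the algebraic case -/
lemma cen_alg [Group.FG H] [CharZero L] (φ : H →* GL (Fin N) L) (c : H)
    {x : L} (hx : (φ c).val.charpoly.IsRoot x) (halg : IsAlgebraic ℚ x)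
    (hxn : ∀ n : ℕ, 0 < n → x ^ n ≠ 1) :
    ∃ f : H → ℤ, AddOn c f ∧ f c ≠ 0 := by
  obtain ⟨e, k, he, hce, hN, he0, _⟩ := exists_idem (φ c).val hx
  obtain ⟨s, hxs, hes, hφs⟩ := exists_gens φ e x
  let T : Subalgebra ℚ L := Algebra.adjoin ℚ (s : Set L)
  have hsT : (s : Set L) ⊆ T := Algebra.subset_adjoin
  haveI hft : Algebra.FiniteType ℚ T := by
    rw [← Subalgebra.fg_iff_finiteType]
    exact ⟨s, rfl⟩
  obtain ⟨K, iK, iA, iF, ⟨σ⟩⟩ := Pool.Agent.H23R2.exists_point T
  haveI : CharZero K := charZero_of_injective_algebraMap (algebraMap ℚ K).injective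
  have hfd : @Module.Finite ℚ K _ _ (DivisionRing.toRatAlgebra).toModule := by
    have h : (DivisionRing.toRatAlgebra : Algebra ℚ K) = iA := Subsingleton.elim _ _
    rw [h]
    exact iF
  haveI : NumberField K := { to_charZero := inferInstance, to_finiteDimensional := hfd }
  have hx1 : x ≠ 1 := by
    intro hc
    exact hxn 1 one_pos (by rw [pow_one, hc])
  have hdet : (φ c).val.det ≠ 0 := by
    have h1 : IsUnit (φ c).val.det := (Matrix.isUnit_iff_isUnit_det _).1 (φ c).isUnit
    exact h1.ne_zero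
  have hx0 : x ≠ 0 := by
    rintro rfl
    apply hdet
    have h1 : (φ c).val.charpoly.eval 0 = 0 := hx
    rw [Matrix.eval_charpoly, map_zero, zero_sub, Matrix.det_neg] at h1
    rcases mul_eq_zero.1 h1 with h2 | h2
    · exact absurd h2 (pow_ne_zero _ (neg_ne_zero.2 one_ne_zero))
    · exact h2
  -- nonzero algebraic elements have nonzero image
  have hne : ∀ y : L, ∀ hy : y ∈ T, IsAlgebraic ℚ y → y ≠ 0 → σ ⟨y, hy⟩ ≠ 0 := by
    intro y hy hya hy0 hc
    have h1 : y⁻¹ ∈ Algebra.adjoin ℚ {y} := hya.isIntegral.inv_mem_adjoin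
    have h2 : y⁻¹ ∈ T := (Algebra.adjoin_le (Set.singleton_subset_iff.2 hy)) h1
    have h3 : (⟨y, hy⟩ : T) * ⟨y⁻¹, h2⟩ = 1 := Subtype.ext (mul_inv_cancel₀ hy0)
    have h4 := congrArg σ h3
    rw [map_mul, hc, zero_mul, map_one] at h4
    exact zero_ne_one h4
  have hxT : x ∈ T := hsT hxs
  obtain ⟨v, hv, hvx⟩ := exists_val_nf (σ ⟨x, hxT⟩) (hne x hxT halg hx0) (by
    intro n hn hc
    have h1 : (⟨x ^ n - 1, T.sub_mem (T.pow_mem hxT n) T.one_mem⟩ : T) =
        (⟨x, hxT⟩ : T) ^ n - 1 := rfl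
    have h2 := hne (x ^ n - 1) (T.sub_mem (T.pow_mem hxT n) T.one_mem)
      ((halg.pow n).sub isAlgebraic_one) (sub_ne_zero.2 (hxn n hn))
    rw [h1, map_sub, map_pow, hc, map_one, sub_self] at h2
    exact h2 rfl)
  refine cen_of φ c he hce hN he0 hx1 T.toSubring
    (hφs _ hsT) (fun i j => hsT (hes i j)) hxT (fun y => v (σ ⟨y.1, y.2⟩)) ?_ hvx
  intro a b ha hb
  have h0 : ∀ a : T.toSubring, IsUnit a → σ (⟨a.1, a.2⟩ : T) ≠ 0 := by
    intro a ha hc
    obtain ⟨b, hb⟩ := isUnit_iff_exists_inv.1 ha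
    have h1 : (⟨a.1, a.2⟩ : T) * ⟨b.1, b.2⟩ = 1 := Subtype.ext (congrArg Subtype.val hb)
    have h2 := congrArg σ h1
    rw [map_mul, hc, zero_mul, map_one] at h2
    exact zero_ne_one h2
  have h3 : (⟨(a * b).1, (a * b).2⟩ : T) = ⟨a.1, a.2⟩ * ⟨b.1, b.2⟩ := rfl
  show v (σ _) = _
  rw [h3, map_mul, hv _ _ (h0 a ha) (h0 b hb)]

end trans

end Pool.Agent.Y72.Log
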