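import Pool.Agent.Y72.Log.Eval

/-!
# The cocycle of a homomorphism on a centraliser
-/

set_option autoImplicit false
set_option linter.unusedSectionVars false

namespace Pool.Agent.Y72.Log

open Finset Pool.Agent.H23R2 H219.Wh
open scoped Classical

section coc

variable {Γ : Type*} [Group Γ] {M : Type*} [AddCommGroup M]

/-- a function which is additive on the centraliser of `c` -/
def AddOn (c : Γ) (f : Γ → M) : Prop :=
  ∀ x y, x * c = c * x → y * c = c * y → f (x * y) = f x + f y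

/-- a conjugating element -/
noncomputable def tc (c w : Γ) : Γ := if h : ∃ t, t * c * t⁻¹ = w then Classical.choose h else 1

lemma tc_spec {c w : Γ} (h : IsConj c w) : tc c w * c * (tc c w)⁻¹ = w := by
  have h1 : ∃ t, t * c * t⁻¹ = w := isConj_iff.1 h
  unfold tc
  rw [dif_pos h1]
  exact Classical.choose_spec h1

/-- the cocycle on the conjugacy class of `c` -/
noncomputable def cocF (c : Γ) (f : Γ → M) (w x : Γ) : M :=
  if IsConj c w then f ((tc c w)⁻¹ * x * tc c (x⁻¹ * w * x)) else 0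

lemma isConj_conj_iff (c w x : Γ) : IsConj c (x⁻¹ * w * x) ↔ IsConj c w := by
  have h1 : IsConj w (x⁻¹ * w * x) := isConj_iff.2 ⟨x⁻¹, by rw [inv_inv]⟩
  exact ⟨fun h => h.trans h1.symm, fun h => h.trans h1⟩

lemma tc_comm {c w : Γ} (h : IsConj c w) (x : Γ) :
    ((tc c w)⁻¹ * x * tc c (x⁻¹ * w * x)) * c = c * ((tc c w)⁻¹ * x * tc c (x⁻¹ * w * x)) := by
  have h1 := tc_spec h
  have h2 := tc_spec ((isConj_conj_iff c w x).2 h)
  set t := tc c w
  set s := tc c (x⁻¹ * w * x)
  have h3 : c = t⁻¹ * w * t := by rw [← h1]; group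
  have h4 : s * c = x⁻¹ * w * x * s := by rw [← h2]; group
  calc t⁻¹ * x * s * c = t⁻¹ * x * (s * c) := by group
    _ = t⁻¹ * w * (x * s) := by rw [h4]; group
    _ = (t⁻¹ * w * t) * (t⁻¹ * x * s) := by group
    _ = c * (t⁻¹ * x * s) := by rw [← h3]

lemma cocF_coc {c : Γ} {f : Γ → M} (hf : AddOn c f) : IsCoc (cocF c f) := by
  intro w x y
  unfold cocF
  by_cases h : IsConj c w
  · rw [if_pos h, if_pos h, if_pos ((isConj_conj_iff c w x).2 h)]
    rw [← hf _ _ (tc_comm h x) (tc_comm ((isConj_conj_iff c w x).2 h) y)]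
    congr 1
    have h5 : (x * y)⁻¹ * w * (x * y) = y⁻¹ * (x⁻¹ * w * x) * y := by group
    rw [h5]
    group
  · rw [if_neg h, if_neg h, if_neg (fun hc => h ((isConj_conj_iff c w x).1 hc)), add_zero]

lemma cocF_neg {c : Γ} (f : Γ → M) {w : Γ} (h : ¬ IsConj c w) (x : Γ) : cocF c f w x = 0 :=
  if_neg h

lemma cocF_diag {c : Γ} (f : Γ → M) {w : Γ} (h : IsConj c w) : cocF c f w w = f c := by
  unfold cocF
  rw [if_pos h]
  have h1 := tc_spec h
  have h2 : w⁻¹ * w * w = w := by group
  rw [h2]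
  congr 1
  have h3 : (tc c w)⁻¹ * (tc c w * c * (tc c w)⁻¹) * tc c w = c := by group
  rwa [h1] at h3

lemma AddOn.pow {c : Γ} {f : Γ → M} (hf : AddOn c f) {x : Γ} (hx : x * c = c * x) (n : ℕ) :
    f (x ^ n) = n • f x := by
  have h1 : f 1 = 0 := by
    have := hf 1 1 (by group) (by group)
    rw [one_mul] at this
    exact left_eq_add.1 this
  induction n with
  | zero => rw [pow_zero, h1, zero_smul]
  | succ n ih =>
    have h2 : x ^ n * c = c * x ^ n := (Commute.pow_left hx n)
    rw [pow_succ, hf _ _ h2 hx, ih, succ_nsmul]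

end coc

end Pool.Agent.Y72.Log
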