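import Pool.Agent.Y72.Log.Fibre

/-!
# Contraction of the inner letters of blocks
-/

set_option autoImplicit false
set_option linter.unusedSectionVars false

namespace Pool.Agent.Y72.Log

open Finset Pool.Agent.H23R2 H219.Wh
open scoped Classical

section pos

variable {m r : ℕ} [NeZero m] [NeZero r]

lemma val_small {i : ℕ} (hi : i < r) : (i : ZMod (m * r)).val = i := by
  have hm : 0 < m := Nat.pos_of_ne_zero (NeZero.ne m)
  rw [ZMod.val_natCast, Nat.mod_eq_of_lt (lt_of_lt_of_le hi (Nat.le_mul_of_pos_left r hm))]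

lemma blk_small {i : ℕ} (hi : i < r) : blk m r (i : ZMod (m * r)) = 0 := by
  rw [blk_eq_zero, val_small hi]
  exact hi

lemma blk_emb_add (k : ZMod m) {i : ℕ} (hi : i < r) :
    blk m r (emb m r k + (i : ZMod (m * r))) = k := by
  rw [add_comm, blk_add, blk_small hi, zero_add]

lemma blk_emb (k : ZMod m) : blk m r (emb m r k) = k := by
  have h := blk_emb_add (m := m) (r := r) k (i := 0) (Nat.pos_of_ne_zero (NeZero.ne r))
  rwa [Nat.cast_zero, add_zero] at h

lemma pos_decomp (j : ZMod (m * r)) : ∃ i : ℕ, i < r ∧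
    j = emb m r (blk m r j) + (i : ZMod (m * r)) := by
  haveI : NeZero (m * r) := ⟨mul_ne_zero (NeZero.ne m) (NeZero.ne r)⟩
  refine ⟨j.val % r, Nat.mod_lt _ (Nat.pos_of_ne_zero (NeZero.ne r)), ?_⟩
  unfold blk
  rw [emb_natCast, ← Nat.cast_add, Nat.div_add_mod' j.val r, ZMod.natCast_zmod_val]

lemma emb_add_ne (k : ZMod m) {i : ℕ} (hi : i < r) (h0 : i ≠ 0) :
    emb m r k + (i : ZMod (m * r)) ≠ emb m r k := by
  intro h
  have h1 : (i : ZMod (m * r)) = 0 := by simpa using h
  have h2 := congrArg ZMod.val h1
  rw [val_small hi, ZMod.val_zero] at h2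
  exact h0 h2

lemma emb_succ (k : ZMod m) : emb m r (k + 1) = emb m r k + ((r : ℕ) : ZMod (m * r)) := by
  rw [map_add, emb_one]

end pos

section heads

variable {I S : Type*} [Fintype I] [Fintype S] {Γ : Type*} [Group Γ] {gr : S → Γ}
  {A B : I → I → S → ℤ} {m r : ℕ} [NeZero m] [NeZero r]

/-- the heads of the blocks -/
def head (o : ZMod (m * r) → Yy I S) : ZMod m → Yy I S := fun k => o (emb m r k)

/-- the target sequence of a contracted word -/
noncomputable def tt (gr : S → Γ) (hd : ZMod m → Yy I S) : ZMod (m * r) → I × Γ := fun j =>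
  if j = emb m r (blk m r j) then
    ((hd (blk m r j)).1, gr (hd (blk m r j)).2.2.1 * gr (hd (blk m r j)).2.2.2)
  else ((hd (blk m r j + 1)).1, 1)

lemma tt_emb (hd : ZMod m → Yy I S) (k : ZMod m) :
    tt (r := r) gr hd (emb m r k) = ((hd k).1, gr (hd k).2.2.1 * gr (hd k).2.2.2) := by
  unfold tt
  rw [blk_emb, if_pos rfl]

lemma tt_inner (hd : ZMod m → Yy I S) (k : ZMod m) {i : ℕ} (hi : i < r) (h0 : i ≠ 0) :
    tt (r := r) gr hd (emb m r k + (i : ZMod (m * r))) = ((hd (k + 1)).1, 1) := by
  unfold tt
  rw [blk_emb_add k hi, if_neg (emb_add_ne k hi h0)]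

lemma tt_succ (hd : ZMod m → Yy I S) (j : ZMod (m * r)) :
    (tt (r := r) gr hd (j + 1)).1 = (hd (blk m r j + 1)).1 := by
  obtain ⟨i, hi, hj⟩ := pos_decomp j
  set k := blk m r j with hk
  rw [hj, add_assoc]
  have h1 : ((i : ZMod (m * r)) + 1) = ((i + 1 : ℕ) : ZMod (m * r)) := by push_cast; rfl
  rw [h1]
  rcases Nat.lt_or_ge (i + 1) r with h | h
  · rw [tt_inner hd k h (Nat.succ_ne_zero i)]
  · have h2 : i + 1 = r := by omega
    rw [h2, ← emb_succ, tt_emb]

lemma prod_heads {R : Type*} [CommMonoid R] [NeZero (m * r)] (f : ZMod m → R) :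
    ∏ j : ZMod (m * r), (if j = emb m r (blk m r j) then f (blk m r j) else 1) =
      ∏ k : ZMod m, f k := by
  rw [← Finset.prod_filter]
  refine Finset.prod_nbij' (fun j => blk m r j) (fun k => emb m r k) ?_ ?_ ?_ ?_ ?_
  · intro j _; exact Finset.mem_univ _
  · intro k _
    simp only [Finset.mem_filter, Finset.mem_univ, true_and]
    rw [blk_emb]
  · intro j hj
    simp only [Finset.mem_filter, Finset.mem_univ, true_and] at hj
    exact hj.symm
  · intro k _
    exact blk_emb k
  · intro j _
    rfl

/-- the weights over the words with given heads and given target sequence -/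
lemma sum_wt_heads [NeZero (m * r)] (h : IP gr A B) (hd : ZMod m → Yy I S)
    (t : ZMod (m * r) → I × Γ)
    (ht : ∀ k, t (emb m r k) = ((hd k).1, gr (hd k).2.2.1 * gr (hd k).2.2.2)) :
    ∑ o : ZMod (m * r) → Yy I S with (head o = hd ∧ TT gr o = t), wt A B o =
      if t = tt gr hd then wt A B hd else 0 := by
  have h1 := sum_wt_pi (A := A) (B := B) t
    (fun j => if j = emb m r (blk m r j) then {hd (blk m r j)} else
      Finset.univ.filter (fun y : Yy I S => (y.1, gr y.2.2.1 * gr y.2.2.2) = t j))
    (by
      intro j z hz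
      by_cases hj : j = emb m r (blk m r j)
      · rw [if_pos hj, Finset.mem_singleton] at hz
        rw [hz]
        conv_rhs => rw [hj]
        rw [ht]
      · simp only [if_neg hj, Finset.mem_filter, Finset.mem_univ, true_and] at hz
        rw [← hz])
  have h2 : Finset.univ.filter
      (fun o : ZMod (m * r) → Yy I S => head o = hd ∧ TT gr o = t) =
      Fintype.piFinset (fun j => if j = emb m r (blk m r j) then {hd (blk m r j)} else
      Finset.univ.filter (fun y : Yy I S => (y.1, gr y.2.2.1 * gr y.2.2.2) = t j)) := by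
    ext o
    simp only [Finset.mem_filter, Finset.mem_univ, true_and, Fintype.mem_piFinset]
    constructor
    · rintro ⟨h0, ho⟩ j
      by_cases hj : j = emb m r (blk m r j)
      · rw [if_pos hj, Finset.mem_singleton, ← h0]
        show o j = o (emb m r (blk m r j))
        rw [← hj]
      · rw [if_neg hj]
        simp only [Finset.mem_filter, Finset.mem_univ, true_and]
        rw [← ho]; rfl
    · intro ho
      have h0 : head o = hd := by
        funext k
        have := ho (emb m r k)
        rw [blk_emb, if_pos rfl, Finset.mem_singleton] at this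
        exact this
      refine ⟨h0, ?_⟩
      funext j
      by_cases hj : j = emb m r (blk m r j)
      · have h3 := ho j
        rw [if_pos hj, Finset.mem_singleton] at h3
        show ((o j).1, gr (o j).2.2.1 * gr (o j).2.2.2) = t j
        rw [h3]
        conv_rhs => rw [hj]
        rw [ht]
      · have := ho j
        rw [if_neg hj] at this
        simp only [Finset.mem_filter, Finset.mem_univ, true_and] at this
        exact this
  rw [h2, h1]
  have h3 : ∀ j : ZMod (m * r), (∑ z ∈ (if j = emb m r (blk m r j) then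
      ({hd (blk m r j)} : Finset (Yy I S)) else
      Finset.univ.filter (fun y : Yy I S => (y.1, gr y.2.2.1 * gr y.2.2.2) = t j)),
      A z.1 z.2.1 z.2.2.1 * B z.2.1 (t (j + 1)).1 z.2.2.2) =
      if j = emb m r (blk m r j) then
        A (hd (blk m r j)).1 (hd (blk m r j)).2.1 (hd (blk m r j)).2.2.1 *
          B (hd (blk m r j)).2.1 (t (j + 1)).1 (hd (blk m r j)).2.2.2 else
        (if (t j).1 = (t (j + 1)).1 ∧ (t j).2 = 1 then 1 else 0) := by
    intro j
    by_cases hj : j = emb m r (blk m r j)
    · rw [if_pos hj, if_pos hj, Finset.sum_singleton]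
    · rw [if_neg hj, if_neg hj, inner_sum h]
  simp_rw [h3]
  by_cases hte : t = tt gr hd
  · rw [if_pos hte]
    have h4 : ∀ j : ZMod (m * r), (if j = emb m r (blk m r j) then
        A (hd (blk m r j)).1 (hd (blk m r j)).2.1 (hd (blk m r j)).2.2.1 *
          B (hd (blk m r j)).2.1 (t (j + 1)).1 (hd (blk m r j)).2.2.2 else
        (if (t j).1 = (t (j + 1)).1 ∧ (t j).2 = 1 then 1 else 0)) =
        (if j = emb m r (blk m r j) then (fun k => A (hd k).1 (hd k).2.1 (hd k).2.2.1 *
          B (hd k).2.1 (hd (k + 1)).1 (hd k).2.2.2) (blk m r j) else 1) := by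
      intro j
      by_cases hj : j = emb m r (blk m r j)
      · rw [if_pos hj, if_pos hj, hte, tt_succ]
      · rw [if_neg hj, if_neg hj, if_pos]
        rw [hte, tt_succ]
        unfold tt
        rw [if_neg hj]
        exact ⟨rfl, rfl⟩
    rw [Finset.prod_congr rfl (fun j _ => h4 j)]
    convert prod_heads (m := m) (r := r) (fun k => A (hd k).1 (hd k).2.1 (hd k).2.2.1 *
      B (hd k).2.1 (hd (k + 1)).1 (hd k).2.2.2) using 1
    rfl
  · rw [if_neg hte]
    by_contra hne
    apply hte
    have hall : ∀ j : ZMod (m * r), j ≠ emb m r (blk m r j) →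
        ((t j).1 = (t (j + 1)).1 ∧ (t j).2 = 1) := by
      intro j hj
      by_contra hc
      apply hne
      apply Finset.prod_eq_zero (Finset.mem_univ j)
      rw [if_neg hj, if_neg hc]
    have hfst : ∀ (k : ZMod m) (n : ℕ), n < r →
        (t (emb m r k + ((r - n : ℕ) : ZMod (m * r)))).1 = (hd (k + 1)).1 := by
      intro k n
      induction n with
      | zero =>
        intro _
        rw [Nat.sub_zero, ← emb_succ, ht]
      | succ n ih =>
        intro hn
        rw [← ih (by omega)]
        have hj : emb m r k + ((r - (n + 1) : ℕ) : ZMod (m * r)) ≠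
            emb m r (blk m r (emb m r k + ((r - (n + 1) : ℕ) : ZMod (m * r)))) := by
          rw [blk_emb_add k (by omega)]
          exact emb_add_ne k (by omega) (by omega)
        rw [(hall _ hj).1]
        congr 2
        rw [add_assoc]
        congr 1
        have : r - n = (r - (n + 1)) + 1 := by omega
        rw [this]
        push_cast
        rfl
    funext j
    obtain ⟨i, hi, hj⟩ := pos_decomp j
    by_cases h0 : i = 0
    · rw [h0, Nat.cast_zero, add_zero] at hj
      rw [hj, tt_emb, ht]
    · rw [hj, tt_inner _ _ hi h0]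
      have h5 := hfst (blk m r j) (r - i) (by omega)
      have h6 : r - (r - i) = i := by omega
      rw [h6] at h5
      have h7 := (hall (emb m r (blk m r j) + (i : ZMod (m * r))) (by
        rw [blk_emb_add _ hi]
        exact emb_add_ne _ hi h0)).2
      exact Prod.ext h5 h7

/-- **contraction** -/
lemma sum_contract [NeZero (m * r)] {M : Type*} [AddCommGroup M] (h : IP gr A B)
    (Θ : (ZMod m → Yy I S) → (ZMod (m * r) → I × Γ) → M) :
    ∑ o : ZMod (m * r) → Yy I S, wt A B o • Θ (head o) (TT gr o) =
      ∑ hd : ZMod m → Yy I S, wt A B hd • Θ hd (tt gr hd) := by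
  rw [← Finset.sum_fiberwise (s := Finset.univ)
    (g := fun o : ZMod (m * r) → Yy I S => head o)]
  apply Finset.sum_congr rfl
  intro hd _
  set s : Finset (ZMod (m * r) → Yy I S) := Finset.univ.filter (fun o => head o = hd) with hs
  set T : Finset (ZMod (m * r) → I × Γ) := insert (tt gr hd) (s.image (TT gr)) with hT
  rw [← Finset.sum_fiberwise_of_maps_to (s := s) (t := T) (g := TT gr)
    (fun o ho => Finset.mem_insert_of_mem (Finset.mem_image_of_mem _ ho))]
  have key : ∀ t ∈ T, ∑ o ∈ s with TT gr o = t, wt A B o • Θ (head o) (TT gr o) =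
      (if t = tt gr hd then wt A B hd else 0) • Θ hd t := by
    intro t ht
    have hty : ∀ k, t (emb m r k) = ((hd k).1, gr (hd k).2.2.1 * gr (hd k).2.2.2) := by
      intro k
      rw [hT, Finset.mem_insert] at ht
      rcases ht with ht | ht
      · rw [ht, tt_emb]
      · rw [Finset.mem_image] at ht
        obtain ⟨o, ho, rfl⟩ := ht
        rw [hs, Finset.mem_filter] at ho
        rw [← ho.2]; rfl
    rw [← sum_wt_heads h hd t hty, Finset.sum_smul]
    rw [hs, Finset.filter_filter]
    apply Finset.sum_congr rfl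
    intro o ho
    rw [Finset.mem_filter] at ho
    obtain ⟨_, h0, hT⟩ := ho
    rw [h0, hT]
  rw [Finset.sum_congr rfl key]
  rw [Finset.sum_eq_single_of_mem (tt gr hd) (Finset.mem_insert_self _ _)]
  · rw [if_pos rfl]
  · intro t _ ht
    rw [if_neg ht, zero_smul]

/-- the products of the contracted word -/
lemma bl_tt (hd : ZMod m → Yy I S) :
    bl (fun j => (tt (r := r) gr hd j).2) = UU gr hd := by
  funext k
  show pr (fun j => (tt (r := r) gr hd j).2) (emb m r k) r = _
  have h : ∀ n : ℕ, n < r → pr (fun j => (tt (r := r) gr hd j).2) (emb m r k) (n + 1) =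
      UU gr hd k := by
    intro n
    induction n with
    | zero =>
      intro _
      rw [pr_succ, pr_zero, one_mul, Nat.cast_zero, add_zero]
      show (tt (r := r) gr hd (emb m r k)).2 = _
      rw [tt_emb]
      rfl
    | succ n ih =>
      intro hn
      rw [pr_succ, ih (by omega)]
      show _ * (tt (r := r) gr hd (emb m r k + ((n + 1 : ℕ) : ZMod (m * r)))).2 = _
      rw [tt_inner _ _ hn (Nat.succ_ne_zero n), mul_one]
  have hp : 0 < r := Nat.pos_of_ne_zero (NeZero.ne r)
  have := h (r - 1) (by omega)
  rwa [Nat.sub_add_cancel hp] at this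

end heads

end Pool.Agent.Y72.Log
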