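import Pool.Agent.Y72.Log.Contract

/-!
# Evaluation of conjugation cocycles by phases

Let `m` be a power of `p`, `P` a conjugation invariant set without `p`-th powers, `κ` a phase on the
words of length `m` with product in `P`. The integer `EE κ P` modulo `m` is the `P`-coefficient of
the integral `p`-adic logarithm.
-/

set_option autoImplicit false
set_option linter.unusedSectionVars false

namespace Pool.Agent.Y72.Log

open Finset Pool.Agent.H23R2 H219.Wh
open scoped Classical

section main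

variable {I S : Type*} [Fintype I] [Fintype S] {Γ : Type*} [Group Γ] {gr : S → Γ}
  {A B : I → I → S → ℤ} {p : ℕ} {P : Γ → Prop} {m r : ℕ} [NeZero m] [NeZero r]

/-- `κ` is a phase on the words with product in `P` -/
def IsPh (P : Γ → Prop) (κ : (ZMod m → Γ) → ZMod m) : Prop :=
  ∀ g, P (W g 0) → ∀ c, κ (shift c g) = κ g + c

/-- the sum over the slice -/
noncomputable def EE (gr : S → Γ) (A B : I → I → S → ℤ) (P : Γ → Prop)
    (κ : (ZMod m → Γ) → ZMod m) : ℤ :=
  ∑ o : ZMod m → Yy I S with (RR gr P o ∧ κ (UU gr o) = 0), wt A B o * ((κ (VV gr o)).val : ℤ)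

/-- the averaged phase -/
def sp (κ : (ZMod m → Γ) → ZMod m) (g : ZMod (m * r) → Γ) : ZMod m :=
  ∑ i ∈ range r, κ (bl (shift (i : ZMod (m * r)) g))

lemma sp_shift_one (hP : IsCls p P) {κ : (ZMod m → Γ) → ZMod m} (hκ : IsPh P κ)
    (g : ZMod (m * r) → Γ) (hg : P (W g 0)) [NeZero (m * r)] :
    sp κ (shift 1 g) = sp κ g + 1 := by
  unfold sp
  have h1 : ∀ i : ℕ, κ (bl (shift (i : ZMod (m * r)) (shift 1 g))) =
      κ (bl (shift ((i + 1 : ℕ) : ZMod (m * r)) g)) := by
    intro i
    rw [shift_shift]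
    push_cast
    rfl
  simp_rw [h1]
  have h2 := Finset.sum_range_succ' (fun i : ℕ => κ (bl (shift (i : ZMod (m * r)) g))) r
  have h3 := Finset.sum_range_succ (fun i : ℕ => κ (bl (shift (i : ZMod (m * r)) g))) r
  have h4 : κ (bl (shift ((r : ℕ) : ZMod (m * r)) g)) =
      κ (bl (shift ((0 : ℕ) : ZMod (m * r)) g)) + 1 := by
    rw [← emb_one, bl_shift, Nat.cast_zero, shift_zero]
    exact hκ _ (by rw [W_bl]; exact hg) 1
  rw [h3, h4] at h2
  have h5 := add_right_cancel (a := ∑ i ∈ range r, κ (bl (shift (i : ZMod (m * r)) g)) + 1)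
    (b := κ (bl (shift ((0 : ℕ) : ZMod (m * r)) g)))
    (c := ∑ i ∈ range r, κ (bl (shift ((i + 1 : ℕ) : ZMod (m * r)) g))) (by rw [← h2]; abel)
  exact h5.symm

/-- **evaluation** -/
theorem eval (hp : p.Prime) (h : IP gr A B) (hP : IsCls p P) {i v : ℕ} (hm : m = p ^ (i + 1))
    (hr : r = p ^ v) {κ : (ZMod m → Γ) → ZMod m} (hκ : IsPh P κ)
    {M : Type*} [AddCommGroup M] (hM : ∀ x : M, (m * r) • x = 0) {F : Γ → Γ → M} (hF : IsCoc F)
    {f : M} (hf : ∀ w, P w → F w w = f) (hF0 : ∀ w x, ¬ P w → F w x = 0) (hmf : m • f = 0) :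
    EE gr A B P κ • f = Dsum gr A B F := by
  haveI : NeZero (m * r) := ⟨mul_ne_zero (NeZero.ne m) (NeZero.ne r)⟩
  letI : Module (ZMod (m * r)) M := AddCommGroup.zmodModule hM
  have hmr : m * r = p ^ (i + v + 1) := by rw [hm, hr, ← pow_add]; congr 1; ring
  let τ : ZMod m →+ M := ZMod.lift m ⟨zmultiplesHom M f, by
    rw [zmultiplesHom_apply, natCast_zsmul]; exact hmf⟩
  have hτ : ∀ x : ZMod m, τ x = (x.val : ℤ) • f := by
    intro x
    have h1 := ZMod.lift_coe m (⟨zmultiplesHom M f, by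
      rw [zmultiplesHom_apply, natCast_zsmul]; exact hmf⟩ : {f : ℤ →+ M // f m = 0}) (x.val : ℤ)
    rw [Int.cast_natCast, ZMod.natCast_zmod_val] at h1
    exact h1
  have hτ1 : τ 1 = f := by
    have h1 := ZMod.lift_coe m (⟨zmultiplesHom M f, by
      rw [zmultiplesHom_apply, natCast_zsmul]; exact hmf⟩ : {f : ℤ →+ M // f m = 0}) 1
    rw [Int.cast_one] at h1
    exact h1.trans (one_zsmul f)
  -- the invariant function
  let G : (ZMod (m * r) → Γ) → M := fun g => Psi' F g + τ (sp κ g)
  have hG1 : ∀ g, P (W g 0) → G (shift 1 g) = G g := by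
    intro g hg
    show Psi' F (shift 1 g) + τ (sp κ (shift 1 g)) = Psi' F g + τ (sp κ g)
    rw [Psi'_shift_gen hF, hf _ hg, one_smul, sp_shift_one hP hκ g hg, map_add, hτ1]
    abel
  have hG : ∀ g, P (W g 0) → ∀ c, G (shift c g) = G g := by
    intro g hg c
    have h1 : ∀ n : ℕ, G (shift (n : ZMod (m * r)) g) = G g := by
      intro n
      induction n with
      | zero => rw [Nat.cast_zero, shift_zero]
      | succ n ih =>
        have h2 : shift ((n + 1 : ℕ) : ZMod (m * r)) g = shift 1 (shift (n : ZMod (m * r)) g) := by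
          rw [shift_shift]
          congr 1
          push_cast
          ring
        rw [h2, hG1 _ ((hP.shift_iff g _).2 hg), ih]
    rw [← ZMod.natCast_zmod_val c]
    exact h1 _
  obtain ⟨κ1, hκ1⟩ := exists_phase' (N := m * r) Γ
  have hfr : ∀ g : ZMod (m * r) → Γ, P (W g 0) → Fr g := fun g hg => hP.fr hp hmr g hg
  have hκ1' : ∀ g : ZMod (m * r) → Γ, P (W g 0) → ∀ c, κ1 (shift c g) = κ1 g + c :=
    fun g hg c => hκ1 g (hfr g hg) c
  -- the two invariant sums
  have hGU : ∑ o : ZMod (m * r) → Yy I S with (RR gr P o ∧ κ1 (UU gr o) = 0),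
      wt A B o • G (UU gr o) = 0 := by
    convert sum_UU (gr := gr) h hP (fun g => κ1 g = 0) G
  have hGV : ∑ o : ZMod (m * r) → Yy I S with (RR gr P o ∧ κ1 (UU gr o) = 0),
      wt A B o • G (VV gr o) = 0 := by
    have hV0 := sum_VV (gr := gr) h hP (fun g => κ1 g = 0) G
    rw [← hV0]
    convert sum_slice (fun c o => shift c o) (fun o => shift_zero o)
      (fun a b o => shift_shift a b o) (RR gr P) (fun c o ho => (RR_shift hP o c).2 ho)
      (fun o => κ1 (UU gr o)) (fun o => κ1 (VV gr o)) ?_ ?_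
      (fun o => wt A B o • G (VV gr o)) ?_
    · intro o ho c
      show κ1 (UU gr (shift c o)) = _
      rw [UU_shift]
      exact hκ1' _ ho c
    · intro o ho c
      show κ1 (VV gr (shift c o)) = _
      rw [VV_shift]
      exact hκ1' _ ((RR_VV hP o).2 ho) c
    · intro o ho c
      show wt A B (shift c o) • G (VV gr (shift c o)) = _
      rw [wt_shift, VV_shift, hG _ ((RR_VV hP o).2 ho)]
  -- the pairing
  rw [← total_sum (N := m * r) h F]
  have h1 : ∑ o : ZMod (m * r) → Yy I S, wt A B o • Gf gr F o =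
      ∑ o : ZMod (m * r) → Yy I S with RR gr P o, wt A B o • Gf gr F o := by
    rw [Finset.sum_filter]
    apply Finset.sum_congr rfl
    intro o _
    by_cases ho : RR gr P o
    · rw [if_pos ho]
    · rw [if_neg ho]
      unfold Gf
      rw [hF0 _ _ ho, smul_zero]
  rw [h1, sum_orbit_act (fun c o => shift c o) (fun o => shift_zero o)
      (fun a b o => shift_shift a b o) (RR gr P) (fun c o ho => (RR_shift hP o c).2 ho)
      (fun o => κ1 (UU gr o)) (by
        intro o ho c
        show κ1 (UU gr (shift c o)) = _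
        rw [UU_shift]
        exact hκ1' _ ho c)]
  have h2 : ∀ o : ZMod (m * r) → Yy I S,
      ∑ c : ZMod (m * r), wt A B (shift c o) • Gf gr F (shift c o) =
      wt A B o • τ (sp κ (VV gr o) - sp κ (UU gr o)) + (wt A B o • G (UU gr o) -
        wt A B o • G (VV gr o)) := by
    intro o
    simp_rw [wt_shift]
    rw [← Finset.smul_sum, ← smul_sub, ← smul_add]
    congr 1
    have h3 : ∑ c : ZMod (m * r), Gf gr F (shift c o) =
        Psi' F (UU gr o) - Psi' F (VV gr o) := by
      rw [show UU gr o = fun k => la gr o k * lb gr o k from rfl,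
        show VV gr o = fun k => lb gr o k * la gr o (k + 1) from rfl, ← sum_coc' hF]
      apply Finset.sum_congr rfl
      intro c _
      unfold Gf
      rw [UU_shift, W_shift, zero_add]
      congr 1
      simp [la]
    rw [h3, map_sub]
    show _ = _ + ((Psi' F (UU gr o) + τ (sp κ (UU gr o))) -
      (Psi' F (VV gr o) + τ (sp κ (VV gr o))))
    abel
  simp_rw [h2]
  rw [Finset.sum_add_distrib, Finset.sum_sub_distrib, hGU, hGV, sub_zero, add_zero]
  -- the averaged phase
  have h4 : ∀ o : ZMod (m * r) → Yy I S, wt A B o • τ (sp κ (VV gr o) - sp κ (UU gr o)) =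
      ∑ j ∈ range r, (fun o => wt A B o • τ (κ (bl (VV gr o)) - κ (bl (UU gr o))))
        (shift (j : ZMod (m * r)) o) := by
    intro o
    simp only [wt_shift]
    rw [← Finset.smul_sum]
    congr 1
    unfold sp
    rw [← Finset.sum_sub_distrib, map_sum]
    apply Finset.sum_congr rfl
    intro j _
    rw [VV_shift, UU_shift]
  simp_rw [h4]
  have hblU : ∀ o : ZMod (m * r) → Yy I S, RR gr P o → ∀ c : ZMod m,
      κ (bl (UU gr (shift (emb m r c) o))) = κ (bl (UU gr o)) + c := by
    intro o ho c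
    rw [UU_shift, bl_shift]
    exact hκ _ (by rw [W_bl]; exact ho) c
  have hblV : ∀ o : ZMod (m * r) → Yy I S, RR gr P o → ∀ c : ZMod m,
      κ (bl (VV gr (shift (emb m r c) o))) = κ (bl (VV gr o)) + c := by
    intro o ho c
    rw [VV_shift, bl_shift]
    exact hκ _ (by rw [W_bl]; exact (RR_VV hP o).2 ho) c
  have h5 := sum_block (m := m) (r := r) (fun c (o : ZMod (m * r) → Yy I S) => shift c o)
    (fun o => shift_zero o)
    (fun a b o => shift_shift a b o) (RR gr P) (fun c o ho => (RR_shift hP o c).2 ho)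
    (fun o => κ1 (UU gr o)) (by
        intro o ho c
        show κ1 (UU gr (shift c o)) = _
        rw [UU_shift]
        exact hκ1' _ ho c)
    (fun o => κ (bl (UU gr o))) hblU
    (fun o => wt A B o • τ (κ (bl (VV gr o)) - κ (bl (UU gr o)))) (by
      intro o ho c
      show wt A B (shift (emb m r c) o) • τ _ = _
      rw [wt_shift, hblU o ho, hblV o ho, add_sub_add_right_eq_sub])
  rw [h5]
  -- contraction
  let Θ : (ZMod m → Yy I S) → (ZMod (m * r) → I × Γ) → M := fun hd t =>
    if P (W (fun j => (t j).2) 0) ∧ κ (bl fun j => (t j).2) = 0 then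
      τ (κ (fun k => (gr (hd k).2.2.1)⁻¹ * bl (fun j => (t j).2) k * gr (hd (k + 1)).2.2.1))
    else 0
  have h6 := sum_contract (gr := gr) (m := m) (r := r) h Θ
  have h7 : ∀ o : ZMod (m * r) → Yy I S, Θ (head o) (TT gr o) =
      if (RR gr P o ∧ κ (bl (UU gr o)) = 0) then τ (κ (bl (VV gr o))) else 0 := by
    intro o
    have e2 : (fun k => (gr (head o k).2.2.1)⁻¹ * bl (UU gr o) k *
        gr (head o (k + 1)).2.2.1) = bl (VV gr o) := by
      funext k
      exact (bl_interleave (la gr o) (lb gr o) k).symm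
    show (if P (W (UU gr o) 0) ∧ κ (bl (UU gr o)) = 0 then
      τ (κ (fun k => (gr (head o k).2.2.1)⁻¹ * bl (UU gr o) k * gr (head o (k + 1)).2.2.1))
      else 0) = _
    rw [e2]
    rfl
  have h8 : ∀ hd : ZMod m → Yy I S, Θ hd (tt (r := r) gr hd) =
      if (RR gr P hd ∧ κ (UU gr hd) = 0) then τ (κ (VV gr hd)) else 0 := by
    intro hd
    have e1 : bl (fun j => (tt (r := r) gr hd j).2) = UU gr hd := bl_tt hd
    have e2 : (fun k => (gr (hd k).2.2.1)⁻¹ * UU gr hd k * gr (hd (k + 1)).2.2.1) =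
        VV gr hd := by
      funext k
      show (gr (hd k).2.2.1)⁻¹ * (gr (hd k).2.2.1 * gr (hd k).2.2.2) * gr (hd (k + 1)).2.2.1 =
        gr (hd k).2.2.2 * gr (hd (k + 1)).2.2.1
      group
    have e3 : W (fun j => (tt (r := r) gr hd j).2) 0 = W (UU gr hd) 0 := by
      rw [← e1, W_bl]
    show (if P (W (fun j => (tt (r := r) gr hd j).2) 0) ∧
        κ (bl fun j => (tt (r := r) gr hd j).2) = 0 then
      τ (κ (fun k => (gr (hd k).2.2.1)⁻¹ * bl (fun j => (tt (r := r) gr hd j).2) k *
        gr (hd (k + 1)).2.2.1)) else 0) = _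
    rw [e1, e2, e3]
    rfl
  simp_rw [h7, h8] at h6
  have h9 : ∑ o : ZMod (m * r) → Yy I S with (RR gr P o ∧ κ (bl (UU gr o)) = 0),
      wt A B o • τ (κ (bl (VV gr o)) - κ (bl (UU gr o))) =
      ∑ o : ZMod (m * r) → Yy I S, wt A B o •
        (if (RR gr P o ∧ κ (bl (UU gr o)) = 0) then τ (κ (bl (VV gr o))) else 0) := by
    rw [Finset.sum_filter]
    apply Finset.sum_congr rfl
    intro o _
    by_cases ho : RR gr P o ∧ κ (bl (UU gr o)) = 0
    · rw [if_pos ho, if_pos ho, ho.2, sub_zero]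
    · rw [if_neg ho, if_neg ho, smul_zero]
  rw [h9, h6]
  unfold EE
  rw [Finset.sum_filter, Finset.sum_smul]
  apply Finset.sum_congr rfl
  intro o _
  by_cases ho : RR gr P o ∧ κ (UU gr o) = 0
  · rw [if_pos ho, if_pos ho, hτ, mul_smul]
  · rw [if_neg ho, if_neg ho, smul_zero, zero_smul]

end main

end Pool.Agent.Y72.Log
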