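import Mathlib.Algebra.MonoidAlgebra.Basic
import Mathlib.Algebra.MonoidAlgebra.Lift
import Mathlib.Data.Matrix.Composition
import Mathlib.LinearAlgebra.Matrix.Charpoly.Coeff
import Mathlib.LinearAlgebra.Matrix.Trace
import Mathlib.GroupTheory.Coset.Card
import Mathlib.Tactic

/-!
# Restriction of matrices to a commutative subgroup
-/

set_option autoImplicit false
set_option linter.unusedSectionVars false

namespace Pool.Agent.Y72.Log

open Finset
open scoped Classical

section blk

variable {A R : Type*} [Ring A] [CommRing R] {n d : Type*} [Fintype n] [Fintype d]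
  [DecidableEq n] [DecidableEq d]

/-- the block matrix of a matrix representation -/
noncomputable def blkR (θ : A →+* Matrix d d R) : Matrix n n A →+* Matrix (n × d) (n × d) R :=
  (Matrix.compRingEquiv n d R).toRingHom.comp θ.mapMatrix

lemma blkR_apply (θ : A →+* Matrix d d R) (X : Matrix n n A) (x y : n × d) :
    blkR θ X x y = θ (X x.1 y.1) x.2 y.2 := rfl

lemma trace_blkR (θ : A →+* Matrix d d R) (X : Matrix n n A) :
    (blkR θ X).trace = ∑ i, (θ (X i i)).trace := by
  unfold Matrix.trace
  rw [Fintype.sum_prod_type]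
  rfl

end blk

section ind

variable {G C T : Type*} [Group G] [CommGroup C] [Fintype T] [DecidableEq T] (e : G ≃ T × C)
  (ι : C →* G) (he : ∀ z c, e (z * ι c) = ((e z).1, (e z).2 * c))

/-- the coset representatives -/
def ta (t : T) : G := e.symm (t, 1)

lemma e_ta (t : T) : e (ta e t) = (t, 1) := e.apply_symm_apply _

include he in
lemma eq_ta_mul (z : G) : z = ta e (e z).1 * ι (e z).2 := by
  apply e.injective
  rw [he, e_ta, one_mul]

include he in
lemma symm_eq (t : T) (c : C) : e.symm (t, c) = ta e t * ι c := by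
  apply e.injective
  rw [he, e_ta, one_mul, e.apply_symm_apply]

/-- the monomial representation -/
noncomputable def ind : G →* Matrix T T (MonoidAlgebra ℤ C) where
  toFun x := Matrix.of fun t t' =>
    if (e (x * ta e t')).1 = t then MonoidAlgebra.single (e (x * ta e t')).2 1 else 0
  map_one' := by
    ext1 t t'
    rw [Matrix.of_apply, one_mul, e_ta, Matrix.one_apply]
    simp only [eq_comm, MonoidAlgebra.one_def]
  map_mul' x y := by
    ext1 t t'
    rw [Matrix.mul_apply]
    simp only [Matrix.of_apply]
    rw [Finset.sum_eq_single (e (y * ta e t')).1]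
    · have h1 : x * y * ta e t' = x * ta e (e (y * ta e t')).1 * ι (e (y * ta e t')).2 := by
        rw [mul_assoc, mul_assoc, ← eq_ta_mul e ι he]
      rw [h1, he]
      simp only [if_true]
      split_ifs
      · rw [MonoidAlgebra.single_mul_single, one_mul]
      · rw [zero_mul]
    · intro s _ hs
      rw [if_neg (c := (e (y * ta e t')).1 = s) (fun h => hs h.symm), mul_zero]
    · intro hc
      exact absurd (Finset.mem_univ _) hc

/-- the restriction homomorphism -/
noncomputable def indR : MonoidAlgebra ℤ G →+* Matrix T T (MonoidAlgebra ℤ C) :=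
  (MonoidAlgebra.lift ℤ _ _ (ind e ι he)).toRingHom

lemma indR_single (g : G) (a : ℤ) : indR e ι he (MonoidAlgebra.single g a) = a • ind e ι he g :=
  MonoidAlgebra.lift_single _ _ _

lemma indR_coeff (x : MonoidAlgebra ℤ G) (t t' : T) (c : C) :
    (indR e ι he x t t').coeff c = x.coeff (ta e t * ι c * (ta e t')⁻¹) := by
  induction x using MonoidAlgebra.induction_linear with
  | zero => rw [map_zero]; rfl
  | add x y hx hy =>
    rw [map_add, Matrix.add_apply, MonoidAlgebra.coeff_add, Finsupp.add_apply, hx, hy]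
    rfl
  | single g a =>
    rw [indR_single, Matrix.smul_apply, MonoidAlgebra.coeff_smul, Finsupp.smul_apply,
      MonoidAlgebra.coeff_single]
    have h1 : (g = ta e t * ι c * (ta e t')⁻¹) ↔ e (g * ta e t') = (t, c) := by
      rw [eq_mul_inv_iff_mul_eq, ← symm_eq e ι he, Equiv.eq_symm_apply]
    have h2 : (ind e ι he g t t').coeff c = if e (g * ta e t') = (t, c) then 1 else 0 := by
      show (if (e (g * ta e t')).1 = t then MonoidAlgebra.single (e (g * ta e t')).2 (1 : ℤ)
        else 0).coeff c = _
      by_cases h3 : (e (g * ta e t')).1 = t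
      · rw [if_pos h3, MonoidAlgebra.coeff_single, Finsupp.single_apply]
        have h4 : (e (g * ta e t')).2 = c ↔ e (g * ta e t') = (t, c) :=
          ⟨fun h => Prod.ext h3 h, fun h => by rw [h]⟩
        simp only [h4]
      · rw [if_neg h3, if_neg (fun h => h3 (by rw [h]))]
        rfl
    rw [h2, Finsupp.single_apply]
    simp only [h1]
    simp

/-- the trace of the restriction -/
lemma trace_indR_coeff (x : MonoidAlgebra ℤ G) (c : C) :
    ((indR e ι he x).trace).coeff c = ∑ t, x.coeff (ta e t * ι c * (ta e t)⁻¹) := by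
  unfold Matrix.trace
  rw [MonoidAlgebra.coeff_sum, Finsupp.finsetSum_apply]
  apply Finset.sum_congr rfl
  intro t _
  exact indR_coeff e ι he x t t c

include he in
/-- the sum over the group -/
lemma sum_conj_ind [Fintype G] [Fintype C] (f : G → ℤ) (c : C) :
    ∑ x : G, f (x * ι c * x⁻¹) = (Fintype.card C : ℤ) *
      ∑ t, f (ta e t * ι c * (ta e t)⁻¹) := by
  rw [← Equiv.sum_comp e.symm, Fintype.sum_prod_type, Finset.mul_sum]
  apply Finset.sum_congr rfl
  intro t _
  have h1 : ∀ c' : C, f (e.symm (t, c') * ι c * (e.symm (t, c'))⁻¹) =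
      f (ta e t * ι c * (ta e t)⁻¹) := by
    intro c'
    rw [symm_eq e ι he, mul_inv_rev]
    congr 1
    have h2 : ι c' * ι c * (ι c')⁻¹ = ι c := by
      rw [← map_mul, mul_comm c' c, map_mul, mul_inv_cancel_right]
    calc ta e t * ι c' * ι c * ((ι c')⁻¹ * (ta e t)⁻¹) =
        ta e t * (ι c' * ι c * (ι c')⁻¹) * (ta e t)⁻¹ := by group
      _ = _ := by rw [h2]
  rw [Finset.sum_congr rfl (fun c' _ => h1 c'), Finset.sum_const, Finset.card_univ, nsmul_eq_mul]

end ind

section exist

/-- existence of the decomposition -/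
lemma exists_equiv {G C : Type*} [Group G] [CommGroup C] [Finite G] (ι : C →* G)
    (hι : Function.Injective ι) : ∃ e : G ≃ (G ⧸ ι.range) × C,
      ∀ z c, e (z * ι c) = ((e z).1, (e z).2 * c) := by
  have h1 : ∀ z : G, ∃ c : C, ι c = (Quotient.out (z : G ⧸ ι.range))⁻¹ * z := by
    intro z
    have h2 : (Quotient.out (z : G ⧸ ι.range))⁻¹ * z ∈ ι.range := by
      rw [← QuotientGroup.eq]
      exact Quotient.out_eq' _
    exact h2
  choose f hf using h1
  have h3 : ∀ z c, ((z * ι c : G) : G ⧸ ι.range) = (z : G ⧸ ι.range) := by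
    intro z c
    symm
    rw [QuotientGroup.eq, inv_mul_cancel_left]
    exact ⟨c, rfl⟩
  refine ⟨⟨fun z => (z, f z), fun x => Quotient.out x.1 * ι x.2, ?_, ?_⟩, ?_⟩
  · intro z
    show Quotient.out (z : G ⧸ ι.range) * ι (f z) = z
    rw [hf, mul_inv_cancel_left]
  · rintro ⟨t, c⟩
    have h4 : ((Quotient.out t * ι c : G) : G ⧸ ι.range) = t := by
      rw [h3]
      exact Quotient.out_eq' _
    show (((Quotient.out t * ι c : G) : G ⧸ ι.range), f (Quotient.out t * ι c)) = (t, c)
    refine Prod.ext h4 ?_
    apply hι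
    rw [hf, h4, inv_mul_cancel_left]
  · intro z c
    show (((z * ι c : G) : G ⧸ ι.range), f (z * ι c)) = ((z : G ⧸ ι.range), f z * c)
    refine Prod.ext (h3 z c) ?_
    apply hι
    rw [hf, h3, map_mul, hf, mul_assoc]

end exist

end Pool.Agent.Y72.Log
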