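import Mathlib.RingTheory.IntegralClosure.IntegrallyClosed
import Mathlib.RingTheory.Coprime.Lemmas
import Mathlib.Algebra.CharP.Lemmas
import Mathlib.Data.Nat.Multiplicity
import Mathlib.Tactic

/-!
# Elements whose `p`-power powers converge to one too fast
-/

set_option autoImplicit false
set_option linter.unusedSectionVars false

namespace Pool.Agent.Y72.Log

section lift

variable {R : Type*} [CommRing R]

lemma one_add_pow_eq {R : Type*} [Ring R] (x : R) (n : ℕ) :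
    ∃ c : R, (1 + x) ^ n = 1 + n * x + x * x * c ∧ Commute x c := by
  induction n with
  | zero => exact ⟨0, by simp, Commute.zero_right x⟩
  | succ n ih =>
    obtain ⟨c, hc, hxc⟩ := ih
    refine ⟨n + c + c * x, ?_, ?_⟩
    · have hcx : x * x * c * x = x * x * (c * x) := by rw [mul_assoc]
      have hn : (n : R) * x * x = x * x * n := by
        rw [mul_assoc]
        exact (Nat.cast_commute n (x * x)).eq
      rw [pow_succ, hc]
      push_cast
      rw [mul_add, mul_one, add_mul, add_mul, one_mul, hn, hcx]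
      noncomm_ring
    · apply Commute.add_right
      · exact Commute.add_right (Nat.cast_commute n x).symm hxc
      · exact hxc.mul_right (Commute.refl x)

/-- the step -/
lemma step {p : ℕ} {z w : R} {b : ℕ} (hb : 2 ≤ b) (hz : z = 1 + (p : R) ^ b * w) :
    ∃ c : R, z ^ p = 1 + (p : R) ^ (b + 1) * (w + p * c) := by
  obtain ⟨c, hc, _⟩ := one_add_pow_eq ((p : R) ^ b * w) p
  obtain ⟨d, rfl⟩ := Nat.exists_eq_add_of_le hb
  refine ⟨(p : R) ^ d * (w * w * c), ?_⟩
  rw [hz, hc]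
  ring

lemma steps {p : ℕ} {z w : R} {b : ℕ} (hb : 2 ≤ b) (hz : z = 1 + (p : R) ^ b * w) (j : ℕ) :
    ∃ c : R, z ^ (p ^ j) = 1 + (p : R) ^ (b + j) * (w + p * c) := by
  induction j with
  | zero => exact ⟨0, by simp [hz]⟩
  | succ j ih =>
    obtain ⟨c, hc⟩ := ih
    obtain ⟨e, he⟩ := step (p := p) (b := b + j) (by omega) hc
    refine ⟨c + e, ?_⟩
    rw [pow_succ, pow_mul, he]
    ring

/-- **powers converging too fast** -/
theorem torsion_of_fast {p : ℕ} (hp : p.Prime) (htf : ∀ x : R, (p : R) * x = 0 → x = 0)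
    (hsep : ∀ x : R, x ≠ 0 → ∃ b : ℕ, ¬ (p : R) ^ b ∣ x) {y : R} {k D : ℕ} (hk : 0 < k)
    (hD : 0 < D)
    (h : ∀ a : ℕ, 1 ≤ a → (p : R) ^ (2 * a) ∣ (D : R) * (y ^ (k * p ^ (a - 1)) - 1)) :
    ∃ N : ℕ, 0 < N ∧ y ^ N = 1 := by
  have htf' : ∀ (b : ℕ) (x : R), (p : R) ^ b * x = 0 → x = 0 := by
    intro b
    induction b with
    | zero => intro x hx; simpa using hx
    | succ b ih =>
      intro x hx
      apply htf
      apply ih
      rw [← hx]
      ring
  obtain ⟨v, D', hD', rfl⟩ := Nat.exists_eq_pow_mul_and_not_dvd hD.ne' p hp.ne_one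
  -- remove the denominator
  have h1 : ∀ a : ℕ, 1 ≤ a → v ≤ a → (p : R) ^ a ∣ y ^ (k * p ^ (a - 1)) - 1 ∧
      (p : R) ^ (2 * a - v) ∣ y ^ (k * p ^ (a - 1)) - 1 := by
    intro a ha hva
    have h2 : (p : R) ^ (2 * a - v) ∣ y ^ (k * p ^ (a - 1)) - 1 := by
      obtain ⟨c, hc⟩ := h a ha
      have h3 : (D' : R) * (y ^ (k * p ^ (a - 1)) - 1) = (p : R) ^ (2 * a - v) * c := by
        rw [← sub_eq_zero]
        apply htf' v
        rw [mul_sub, sub_eq_zero, ← mul_assoc, ← mul_assoc, ← pow_add,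
          Nat.add_sub_cancel' (by omega), ← hc]
        push_cast
        ring
      have h4 : IsCoprime ((p : R) ^ (2 * a - v)) (D' : R) := by
        apply IsCoprime.pow_left
        have h5 : IsCoprime ((p : ℕ) : ℤ) (D' : ℤ) :=
          Nat.isCoprime_iff_coprime.2 ((Nat.Prime.coprime_iff_not_dvd hp).2 hD')
        have h6 := h5.map (Int.castRingHom R)
        simpa using h6
      exact h4.dvd_of_dvd_mul_left (Dvd.intro c h3.symm)
    exact ⟨dvd_trans (pow_dvd_pow _ (by omega)) h2, h2⟩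
  set a0 := v + 2 with ha0
  set z := y ^ (k * p ^ (a0 - 1)) with hz
  refine ⟨k * p ^ (a0 - 1), Nat.mul_pos hk (pow_pos hp.pos _), ?_⟩
  rw [← hz]
  by_contra hne
  have hne' : z - 1 ≠ 0 := sub_ne_zero.2 hne
  -- the exact power
  have hex : ∃ b : ℕ, ¬ (p : R) ^ b ∣ z - 1 := hsep _ hne'
  classical
  obtain ⟨b0, hb1, hmin⟩ : ∃ b0 : ℕ, ¬ (p : R) ^ b0 ∣ z - 1 ∧
      ∀ m < b0, (p : R) ^ m ∣ z - 1 :=
    ⟨Nat.find hex, Nat.find_spec hex, fun m hm => not_not.1 (Nat.find_min hex hm)⟩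
  have hb3 : 2 < b0 := by
    by_contra hc
    apply hb1
    exact dvd_trans (pow_dvd_pow _ (by omega)) (h1 a0 (by omega) (by omega)).1
  have hb2 : (p : R) ^ (b0 - 1) ∣ z - 1 := hmin _ (by omega)
  obtain ⟨w, hw⟩ := hb2
  have hw1 : ¬ (p : R) ∣ w := by
    rintro ⟨w', rfl⟩
    apply hb1
    refine ⟨w', ?_⟩
    have h5 : b0 = (b0 - 1) + 1 := by omega
    rw [hw, ← mul_assoc, ← pow_succ, ← h5]
  -- go up
  set j := b0 with hj
  obtain ⟨c, hc⟩ := steps (p := p) (b := b0 - 1) (by omega) (z := z) (w := w)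
    (by rw [← hw]; ring) j
  have h6 := (h1 (a0 + j) (by omega) (by omega)).2
  have h7 : y ^ (k * p ^ (a0 + j - 1)) = z ^ (p ^ j) := by
    rw [hz, ← pow_mul]
    congr 1
    rw [mul_assoc, ← pow_add]
    congr 2
    omega
  rw [h7, hc, add_sub_cancel_left] at h6
  have h8 : (p : R) ^ (b0 - 1 + j + 1) ∣ (p : R) ^ (b0 - 1 + j) * (w + p * c) :=
    dvd_trans (pow_dvd_pow _ (by omega)) h6
  obtain ⟨e, he⟩ := h8
  apply hw1
  have h9 : w + p * c = p * e := by
    rw [← sub_eq_zero]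
    apply htf' (b0 - 1 + j)
    rw [mul_sub, sub_eq_zero, he]
    ring
  exact ⟨e - c, by rw [mul_sub, ← h9]; ring⟩

end lift

end Pool.Agent.Y72.Log
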