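import Pool.Agent.Y72.Log.Eval

/-!
# The slice sum for matrices congruent to the identity
-/

set_option autoImplicit false
set_option linter.unusedSectionVars false

namespace Pool.Agent.Y72.Log

open Finset Pool.Agent.H23R2 H219.Wh
open scoped Classical

section near

variable {I : Type*} [Fintype I] {G : Type*} [Group G] [Fintype G]
  {A B : I → I → G → ℤ} {p : ℕ} {P : G → Prop} {m : ℕ} [NeZero m]

/-- congruent to the identity matrix -/
def NearOne (q : ℤ) (A : I → I → G → ℤ) : Prop :=
  ∀ i j g, q ∣ A i j g - (if i = j ∧ g = 1 then 1 else 0)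

/-- the word with a single letter -/
def dl (m : ℕ) (g : G) (k : ZMod m) : ZMod m → G := fun j => if j = k then g else 1

lemma dl_shift (g : G) (k c : ZMod m) : shift c (dl m g k) = dl m g (k - c) := by
  funext j
  simp only [shift_apply, dl, eq_sub_iff_add_eq]

lemma W_dl (g : G) : W (dl m g 0) 0 = g := by
  have h : ∀ n : ℕ, n < m → pr (dl m g 0) 0 (n + 1) = g := by
    intro n
    induction n with
    | zero =>
      intro _
      rw [pr_succ, pr_zero, one_mul, Nat.cast_zero, add_zero]
      exact if_pos rfl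
    | succ n ih =>
      intro hn
      rw [pr_succ, ih (by omega)]
      have hk : (0 + ((n + 1 : ℕ) : ZMod m)) ≠ 0 := by
        rw [zero_add]
        intro hc
        rw [ZMod.natCast_eq_zero_iff] at hc
        exact absurd (Nat.le_of_dvd (by omega) hc) (by omega)
      simp only [dl, if_neg hk, mul_one]
  have hp : 0 < m := Nat.pos_of_ne_zero (NeZero.ne m)
  have := h (m - 1) (by omega)
  rwa [Nat.sub_add_cancel hp] at this

/-- products with two small factors -/
lemma prod_small {R : Type*} [CommRing R] {ε : R} (hε : ε * ε = 0) {ι : Type*} (s : Finset ι)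
    (x : ι → R) {i j : ι} (hi : i ∈ s) (hj : j ∈ s) (hij : i ≠ j) (hxi : ε ∣ x i)
    (hxj : ε ∣ x j) : ∏ k ∈ s, x k = 0 := by
  rw [← Finset.mul_prod_erase s x hi, ← Finset.mul_prod_erase (s.erase i) x
    (Finset.mem_erase.2 ⟨hij.symm, hj⟩)]
  obtain ⟨a, ha⟩ := hxi
  obtain ⟨b, hb⟩ := hxj
  rw [ha, hb]
  generalize (∏ k ∈ (s.erase i).erase j, x k) = z
  calc ε * a * (ε * b * z) = (ε * ε) * (a * b * z) := by ring
    _ = 0 := by rw [hε, zero_mul]

lemma mul_prod_near {R : Type*} [CommRing R] {ε : R} (hε : ε * ε = 0) {ι : Type*} (s : Finset ι)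
    (x : ι → R) (hx : ∀ i ∈ s, ε ∣ x i - 1) {y : R} (hy : ε ∣ y) : y * ∏ k ∈ s, x k = y := by
  induction s using Finset.induction_on with
  | empty => simp
  | insert a s ha ih =>
    rw [Finset.prod_insert ha]
    have h1 := ih (fun i hi => hx i (Finset.mem_insert_of_mem hi))
    have h2 := hx a (Finset.mem_insert_self a s)
    obtain ⟨u, hu⟩ := h2
    obtain ⟨w, hw⟩ := hy
    have h3 : y * x a = y := by
      have h4 : x a = 1 + ε * u := by rw [← hu]; ring
      rw [h4, hw]
      calc ε * w * (1 + ε * u) = ε * w + (ε * ε) * (w * u) := by ring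
        _ = ε * w := by rw [hε, zero_mul, add_zero]
    rw [← mul_assoc, h3, h1]

/-- going around the circle -/
lemma const_of_step {J : Type*} {m : ℕ} [NeZero m] (x : ZMod m → J) (k : ZMod m)
    (h : ∀ j, j ≠ k → x j = x (j + 1)) : ∀ j, x j = x (k + 1) := by
  have h1 : ∀ n : ℕ, n < m → x (k + 1 + (n : ZMod m)) = x (k + 1) := by
    intro n
    induction n with
    | zero => intro _; rw [Nat.cast_zero, add_zero]
    | succ n ih =>
      intro hn
      rw [← ih (by omega), Nat.cast_succ, ← add_assoc]
      symm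
      apply h
      intro hc
      have h2 : ((n + 1 : ℕ) : ZMod m) = 0 := by
        push_cast
        have h3 : k + ((n : ZMod m) + 1) = k := by
          calc k + ((n : ZMod m) + 1) = k + 1 + (n : ZMod m) := by ring
            _ = k := hc
        exact left_eq_add.1 h3.symm
      rw [ZMod.natCast_eq_zero_iff] at h2
      exact absurd (Nat.le_of_dvd (by omega) h2) (by omega)
  intro j
  have h2 := h1 (j - (k + 1)).val (ZMod.val_lt _)
  rw [ZMod.natCast_zmod_val] at h2
  rw [← h2]
  congr 1
  ring

theorem near_aux {R : Type*} [CommRing R] {ε : R} (hε : ε * ε = 0) (hm1 : 1 < m)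
    (hP : IsCls p P)
    (hA1 : ∀ i j g, ¬ (i = j ∧ g = 1) → ε ∣ (A i j g : R))
    (hB1 : ∀ i j g, ¬ (i = j ∧ g = 1) → ε ∣ (B i j g : R))
    (hA2 : ∀ i, ε ∣ (A i i 1 : R) - 1) (hB2 : ∀ i, ε ∣ (B i i 1 : R) - 1)
    {κ : (ZMod m → G) → ZMod m} (hκ : IsPh P κ) :
    ((EE (id : G → G) A B P κ : ℤ) : R) = ((∑ g with P g, ∑ i, A i i g : ℤ) : R) := by
  haveI : Fact (1 < m) := ⟨hm1⟩
  -- the summand
  let f : (ZMod m → Yy I G) → R := fun o => (wt A B o : R) * ((κ (VV id o)).val : R)
  have hE : ((EE (id : G → G) A B P κ : ℤ) : R) =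
      ∑ o : ZMod m → Yy I G with (RR id P o ∧ κ (UU id o) = 0), f o := by
    unfold EE
    rw [Int.cast_sum]
    apply Finset.sum_congr rfl
    intro o _
    rw [Int.cast_mul, Int.cast_natCast]
  rw [hE]
  let kk : G → ZMod m := fun g => κ (dl m g 0)
  let Ω : G × I → (ZMod m → Yy I G) := fun x j =>
    if j = kk x.1 then (x.2, x.2, x.1, 1) else (x.2, x.2, 1, 1)
  have hΩU : ∀ x, UU id (Ω x) = dl m x.1 (kk x.1) := by
    intro x
    funext j
    simp only [UU, la, lb, id, Ω, dl]
    split_ifs <;> simp
  have hΩV : ∀ x, VV id (Ω x) = dl m x.1 (kk x.1 - 1) := by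
    intro x
    funext j
    simp only [VV, la, lb, id, Ω, dl, eq_sub_iff_add_eq]
    split_ifs <;> simp
  have hκdl : ∀ g, P g → ∀ k, κ (dl m g k) = kk g - k := by
    intro g hg k
    have h1 := hκ (dl m g 0) (by rw [W_dl]; exact hg) (-k)
    rw [dl_shift, zero_sub, neg_neg] at h1
    rw [h1]
    show kk g + -k = kk g - k
    ring
  have hΩinj : Set.InjOn Ω {x | P x.1} := by
    intro x hx y hy hxy
    have h1 : dl m x.1 (kk x.1) = dl m y.1 (kk y.1) := by rw [← hΩU, ← hΩU, hxy]
    have hne : x.1 ≠ 1 := fun hc => hP.not_one (hc ▸ hx)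
    have h2 := congrFun h1 (kk x.1)
    simp only [dl, if_true] at h2
    have h3 : kk x.1 = kk y.1 := by
      by_contra hc
      rw [if_neg hc] at h2
      exact hne h2
    rw [if_pos h3] at h2
    have h4 : x.2 = y.2 := by
      have h5 := congrArg Prod.fst (congrFun hxy (kk x.1))
      simp only [Ω] at h5
      rw [if_pos trivial, if_pos h3] at h5
      exact h5
    exact Prod.ext h2 h4
  -- the value of the summand
  have hfΩ : ∀ x : G × I, P x.1 → f (Ω x) = (A x.2 x.2 x.1 : R) := by
    intro x hx
    have hne : x.1 ≠ 1 := fun hc => hP.not_one (hc ▸ hx)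
    have h1 : κ (VV id (Ω x)) = 1 := by
      rw [hΩV, hκdl _ hx]
      ring
    show (wt A B (Ω x) : R) * ((κ (VV id (Ω x))).val : R) = _
    rw [h1, ZMod.val_one, Nat.cast_one, mul_one]
    unfold wt
    rw [Int.cast_prod, Finset.prod_congr rfl (fun k _ => Int.cast_mul _ _), Finset.prod_mul_distrib]
    have h2 : ∀ k, (Ω x k).1 = x.2 ∧ (Ω x k).2.1 = x.2 ∧ (Ω x k).2.2.2 = 1 := by
      intro k
      simp only [Ω]
      split_ifs <;> exact ⟨rfl, rfl, rfl⟩
    have h3 : ∏ k, (B (Ω x k).2.1 (Ω x (k + 1)).1 (Ω x k).2.2.2 : R) =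
        ∏ k : ZMod m, (B x.2 x.2 1 : R) := by
      apply Finset.prod_congr rfl
      intro k _
      rw [(h2 k).2.1, (h2 (k + 1)).1, (h2 k).2.2]
    rw [h3, ← Finset.mul_prod_erase _ _ (Finset.mem_univ (kk x.1))]
    have h4 : (Ω x (kk x.1)).2.2.1 = x.1 := by
      simp only [Ω]
      rw [if_pos trivial]
    rw [(h2 _).1, (h2 _).2.1, h4]
    have h5 : ∏ k ∈ Finset.univ.erase (kk x.1), (A (Ω x k).1 (Ω x k).2.1 (Ω x k).2.2.1 : R) =
        ∏ k ∈ Finset.univ.erase (kk x.1), (A x.2 x.2 1 : R) := by
      apply Finset.prod_congr rfl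
      intro k hk
      rw [(h2 _).1, (h2 _).2.1]
      have h6 : (Ω x k).2.2.1 = 1 := by
        simp only [Ω]
        rw [if_neg (Finset.ne_of_mem_erase hk)]
      rw [h6]
    have hy : ε ∣ (A x.2 x.2 x.1 : R) := hA1 _ _ _ (fun hc => hne hc.2)
    rw [h5, mul_prod_near hε _ _ (fun _ _ => hA2 _) hy, mul_prod_near hε _ _ (fun _ _ => hB2 _) hy]
  -- the sum over the image
  have hsub : ∑ o ∈ (Finset.univ.filter (fun x : G × I => P x.1)).image Ω, f o =
      ∑ o : ZMod m → Yy I G with (RR id P o ∧ κ (UU id o) = 0), f o := by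
    apply Finset.sum_subset
    · intro o ho
      rw [Finset.mem_image] at ho
      obtain ⟨x, hx, rfl⟩ := ho
      simp only [Finset.mem_filter, Finset.mem_univ, true_and] at hx ⊢
      have h1 : κ (UU id (Ω x)) = 0 := by
        rw [hΩU, hκdl _ hx, sub_self]
      refine ⟨?_, h1⟩
      unfold RR
      rw [hΩU]
      have h2 : dl m x.1 (kk x.1) = shift (- kk x.1) (dl m x.1 0) := by
        rw [dl_shift, zero_sub, neg_neg]
      rw [h2, hP.shift_iff, W_dl]
      exact hx
    · intro o ho hno
      simp only [Finset.mem_filter, Finset.mem_univ, true_and] at ho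
      by_cases hdA : ∃ k, ¬ ((o k).1 = (o k).2.1 ∧ (o k).2.2.1 = 1)
      · obtain ⟨k, hk⟩ := hdA
        have hw : (wt A B o : R) = (∏ k, (A (o k).1 (o k).2.1 (o k).2.2.1 : R)) *
            ∏ k, (B (o k).2.1 (o (k + 1)).1 (o k).2.2.2 : R) := by
          unfold wt
          rw [Int.cast_prod, Finset.prod_congr rfl (fun k _ => Int.cast_mul _ _),
            Finset.prod_mul_distrib]
        by_cases hdA2 : ∃ k', k' ≠ k ∧ ¬ ((o k').1 = (o k').2.1 ∧ (o k').2.2.1 = 1)
        · obtain ⟨k', hkk, hk'⟩ := hdA2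
          show (wt A B o : R) * _ = 0
          rw [hw, prod_small hε Finset.univ _ (Finset.mem_univ k) (Finset.mem_univ k') hkk.symm
            (hA1 _ _ _ hk) (hA1 _ _ _ hk'), zero_mul, zero_mul]
        · by_cases hdB : ∃ k', ¬ ((o k').2.1 = (o (k' + 1)).1 ∧ (o k').2.2.2 = 1)
          · obtain ⟨k', hk'⟩ := hdB
            show (wt A B o : R) * _ = 0
            rw [hw, ← Finset.mul_prod_erase _ _ (Finset.mem_univ k),
              ← Finset.mul_prod_erase _ (fun k => (B (o k).2.1 (o (k + 1)).1 (o k).2.2.2 : R))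
                (Finset.mem_univ k')]
            obtain ⟨u, hu⟩ := hA1 _ _ _ hk
            obtain ⟨w, hw'⟩ := hB1 _ _ _ hk'
            rw [hu, hw']
            generalize (∏ k ∈ Finset.univ.erase k, (A (o k).1 (o k).2.1 (o k).2.2.1 : R)) = z1
            generalize (∏ k ∈ Finset.univ.erase k',
              (B (o k).2.1 (o (k + 1)).1 (o k).2.2.2 : R)) = z2
            generalize ((κ (VV id o)).val : R) = z3
            calc ε * u * z1 * (ε * w * z2) * z3 = (ε * ε) * (u * z1 * (w * z2) * z3) := by ring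
              _ = 0 := by rw [hε, zero_mul]
          · exfalso
            apply hno
            push Not at hdA2 hdB
            rw [Finset.mem_image]
            have hi : ∀ j, (o j).1 = (o (k + 1)).1 := by
              apply const_of_step (fun j => (o j).1) k
              intro j hj
              rw [(hdA2 j hj).1, (hdB j).1]
            have hi2 : ∀ j, (o j).2.1 = (o (k + 1)).1 := by
              intro j
              rw [(hdB j).1, hi (j + 1)]
            have hdl : UU id o = dl m (o k).2.2.1 k := by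
              funext j
              show (o j).2.2.1 * (o j).2.2.2 = _
              rw [(hdB j).2, mul_one]
              by_cases hj : j = k
              · rw [hj]
                simp [dl]
              · rw [(hdA2 j hj).2]
                simp [dl, hj]
            have hPk : P (o k).2.2.1 := by
              have h1 := ho.1
              unfold RR at h1
              rw [hdl] at h1
              have h2 : dl m (o k).2.2.1 k = shift (- k) (dl m (o k).2.2.1 0) := by
                rw [dl_shift, zero_sub, neg_neg]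
              rw [h2, hP.shift_iff, W_dl] at h1
              exact h1
            have hkk : k = kk (o k).2.2.1 := by
              have h1 := ho.2
              rw [hdl, hκdl _ hPk, sub_eq_zero] at h1
              exact h1.symm
            refine ⟨((o k).2.2.1, (o (k + 1)).1), ?_, ?_⟩
            · simp only [Finset.mem_filter, Finset.mem_univ, true_and]
              exact hPk
            · funext j
              show (if j = kk (o k).2.2.1 then _ else _) = o j
              rw [← hkk]
              by_cases hj : j = k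
              · rw [if_pos hj, hj]
                exact Prod.ext (hi k).symm (Prod.ext (hi2 k).symm
                  (Prod.ext rfl (hdB k).2.symm))
              · rw [if_neg hj]
                exact Prod.ext (hi j).symm (Prod.ext (hi2 j).symm
                  (Prod.ext (hdA2 j hj).2.symm (hdB j).2.symm))
      · push Not at hdA
        have h1 : VV id o = UU id o := by
          funext j
          show (o j).2.2.2 * (o (j + 1)).2.2.1 = (o j).2.2.1 * (o j).2.2.2
          rw [(hdA j).2, (hdA (j + 1)).2, mul_one, one_mul]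
        show (wt A B o : R) * ((κ (VV id o)).val : R) = 0
        rw [h1, ho.2, ZMod.val_zero, Nat.cast_zero, mul_zero]
  rw [← hsub, Finset.sum_image (by
    intro x hx y hy hxy
    simp only [Finset.coe_filter, Finset.mem_univ, true_and] at hx hy
    exact hΩinj hx hy hxy)]
  rw [Finset.sum_congr rfl (fun x hx => hfΩ x (by
    simp only [Finset.mem_filter, Finset.mem_univ, true_and] at hx
    exact hx))]
  rw [Int.cast_sum, Finset.sum_filter, Fintype.sum_prod_type, Finset.sum_filter]
  apply Finset.sum_congr rfl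
  intro g _
  by_cases hg : P g
  · simp only [hg, if_true, Int.cast_sum]
  · simp only [hg, if_false, Finset.sum_const_zero]

/-- **matrices congruent to the identity** -/
theorem near (hp : p.Prime) (hP : IsCls p P) {i : ℕ} (hm : m = p ^ (i + 1)) {a : ℕ}
    (hA : NearOne ((p : ℤ) ^ a) A) (hB : NearOne ((p : ℤ) ^ a) B)
    {κ : (ZMod m → G) → ZMod m} (hκ : IsPh P κ) :
    (p : ℤ) ^ (2 * a) ∣ EE (id : G → G) A B P κ - ∑ g with P g, ∑ i, A i i g := by
  have hm1 : 1 < m := by
    rw [hm]
    exact Nat.one_lt_pow (Nat.succ_ne_zero i) hp.one_lt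
  have hcast : ((p : ℤ) ^ (2 * a)) = ((p ^ (2 * a) : ℕ) : ℤ) := by push_cast; rfl
  rw [hcast, ← ZMod.intCast_zmod_eq_zero_iff_dvd, Int.cast_sub, sub_eq_zero]
  have hε : ((p : ZMod (p ^ (2 * a))) ^ a) * ((p : ZMod (p ^ (2 * a))) ^ a) = 0 := by
    rw [← pow_add, ← two_mul, ← Nat.cast_pow]
    exact ZMod.natCast_self _
  have hdiv : ∀ x : ℤ, (p : ℤ) ^ a ∣ x → ((p : ZMod (p ^ (2 * a))) ^ a) ∣
      (x : ZMod (p ^ (2 * a))) := by
    rintro x ⟨y, rfl⟩
    refine ⟨(y : ZMod (p ^ (2 * a))), ?_⟩
    rw [Int.cast_mul, Int.cast_pow, Int.cast_natCast]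
  refine near_aux hε hm1 hP ?_ ?_ ?_ ?_ hκ
  · intro i j g h
    have := hA i j g
    rw [if_neg h, sub_zero] at this
    exact hdiv _ this
  · intro i j g h
    have := hB i j g
    rw [if_neg h, sub_zero] at this
    exact hdiv _ this
  · intro i
    have := hA i i 1
    rw [if_pos ⟨rfl, rfl⟩] at this
    have h2 := hdiv _ this
    rw [Int.cast_sub, Int.cast_one] at h2
    exact h2
  · intro i
    have := hB i i 1
    rw [if_pos ⟨rfl, rfl⟩] at this
    have h2 := hdiv _ this
    rw [Int.cast_sub, Int.cast_one] at h2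
    exact h2

end near

end Pool.Agent.Y72.Log
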