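import Pool.Agent.Y72.Log.Coc
import Pool.Agent.H219.Wh.Chain
import Mathlib.NumberTheory.Padics.PadicNorm

/-!
# The rational class coefficients
-/

set_option autoImplicit false
set_option linter.unusedSectionVars false

namespace Pool.Agent.Y72.Log

open Finset Pool.Agent.H23R2 H219.Wh
open scoped Classical

section lc

variable {Γ : Type*} [Group Γ]

/-- an integral cocycle supported on the class of `c` -/
structure LC (c : Γ) (F : Γ → Γ → ℤ) (f : ℤ) : Prop where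
  coc : IsCoc F
  diag : ∀ w, IsConj c w → F w w = f
  off : ∀ w x, ¬ IsConj c w → F w x = 0

lemma LC.of_addOn {c : Γ} {f : Γ → ℤ} (hf : AddOn c f) : LC c (cocF c f) (f c) :=
  ⟨cocF_coc hf, fun _ h => cocF_diag f h, fun _ _ h => cocF_neg f h _⟩

lemma LC.conj {c d : Γ} {F : Γ → Γ → ℤ} {f : ℤ} (h : LC c F f) (hcd : IsConj c d) : LC d F f :=
  ⟨h.coc, fun w hw => h.diag w (hcd.trans hw), fun w x hw => h.off w x
    (fun hc => hw (hcd.symm.trans hc))⟩

/-- every nontrivial element has an additive function on its centraliser which does not vanish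
on it -/
def Cen (Γ : Type*) [Group Γ] : Prop :=
  ∀ c : Γ, c ≠ 1 → ∃ f : Γ → ℤ, AddOn c f ∧ f c ≠ 0

/-- the additive function -/
noncomputable def ff (hb : Cen Γ) (c : Γ) : Γ → ℤ :=
  if h : c ≠ 1 then Classical.choose (hb c h) else fun _ => 0

lemma ff_add (hb : Cen Γ) {c : Γ} (h : c ≠ 1) : AddOn c (ff hb c) := by
  unfold ff
  rw [dif_pos h]
  exact (Classical.choose_spec (hb c h)).1

lemma ff_ne (hb : Cen Γ) {c : Γ} (h : c ≠ 1) : ff hb c c ≠ 0 := by
  unfold ff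
  rw [dif_pos h]
  exact (Classical.choose_spec (hb c h)).2

lemma pow_dvd_ff (hb : Cen Γ) {c x : Γ} (h : c ≠ 1) {l : ℕ} (hx : IsConj c (x ^ l)) :
    (l : ℤ) ∣ ff hb c c := by
  obtain ⟨t, ht⟩ := isConj_iff.1 hx.symm
  have h1 : (t * x * t⁻¹) ^ l = c := by rw [conj_pow, ht]
  have h2 : (t * x * t⁻¹) * c = c * (t * x * t⁻¹) := by
    rw [← h1, ← pow_succ', ← pow_succ]
  have h3 := (ff_add hb h).pow h2 l
  rw [h1] at h3
  rw [h3, nsmul_eq_mul]
  exact dvd_mul_right _ _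

lemma pow_ne (hb : Cen Γ) {c : Γ} (h : c ≠ 1) {l : ℕ} (hl : l ≠ 0) : c ^ l ≠ 1 := by
  intro hc
  have h3 := (ff_add hb h).pow (x := c) rfl l
  have h4 := (ff_add hb h).pow (x := c) rfl 0
  rw [pow_zero, zero_smul] at h4
  rw [hc, h4, nsmul_eq_mul] at h3
  rcases mul_eq_zero.1 h3.symm with h5 | h5
  · exact hl (by exact_mod_cast h5)
  · exact ff_ne hb h h5

lemma isCls_conj {p : ℕ} {c : Γ} (h : ∀ x, ¬ IsConj c (x ^ p)) : IsCls p (fun w => IsConj c w) :=
  ⟨fun w x hw => (isConj_conj_iff c w x).2 hw, fun x hx => h x hx⟩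

/-- a large prime -/
lemma large (hb : Cen Γ) {c : Γ} (h : c ≠ 1) {l : ℕ} (hl : (ff hb c c).natAbs < l) :
    ∀ x, ¬ IsConj c (x ^ l) := by
  intro x hx
  have h1 := pow_dvd_ff hb h hx
  have h2 : l ∣ (ff hb c c).natAbs := by
    rwa [← Int.natCast_dvd] 
  have h3 := Nat.le_of_dvd (Int.natAbs_pos.2 (ff_ne hb h)) h2
  omega

end lc

section phase

variable {Γ : Type*} [Group Γ] {p i m : ℕ} [NeZero m]

lemma exists_isPh (hp : p.Prime) (hm : m = p ^ (i + 1)) {P : Γ → Prop} (hP : IsCls p P) :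
    ∃ κ : (ZMod m → Γ) → ZMod m, IsPh P κ := by
  obtain ⟨κ, hκ⟩ := exists_phase' (N := m) Γ
  exact ⟨κ, fun g hg c => hκ g (hP.fr hp hm g hg) c⟩

lemma IsPh.mono {P P' : Γ → Prop} {κ : (ZMod m → Γ) → ZMod m} (h : IsPh P κ)
    (hPP : ∀ g, P' g → P g) : IsPh P' κ := fun g hg c => h g (hPP _ hg) c

end phase

section main

variable {I S : Type*} [Fintype I] [Fintype S] {Γ : Type*} [Group Γ] {gr : S → Γ}
  {A B : I → I → S → ℤ} {p : ℕ}

/-- the evaluation for integral cocycles -/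
lemma eval_int (hp : p.Prime) (h : IP gr A B) {c : Γ} (hc : ∀ x, ¬ IsConj c (x ^ p)) {i : ℕ}
    {m : ℕ} [NeZero m] (hm : m = p ^ (i + 1)) {κ : (ZMod m → Γ) → ZMod m}
    (hκ : IsPh (fun w => IsConj c w) κ) {F : Γ → Γ → ℤ} {f : ℤ} (hF : LC c F f) {v : ℕ}
    (hv : (p : ℤ) ^ v ∣ f) :
    (p : ℤ) ^ (i + 1 + v) ∣ EE gr A B (fun w => IsConj c w) κ * f - Dsum gr A B F := by
  haveI : NeZero (p ^ v) := ⟨pow_ne_zero _ hp.ne_zero⟩
  have hmr : m * p ^ v = p ^ (i + 1 + v) := by rw [hm, ← pow_add]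
  let M := ZMod (m * p ^ v)
  have hF' : IsCoc (fun w x => ((F w x : ℤ) : ZMod (m * p ^ v))) := by
    intro w x y
    show ((F w (x * y) : ℤ) : ZMod (m * p ^ v)) = _
    rw [hF.coc w x y, Int.cast_add]
  have h1 := eval (gr := gr) (A := A) (B := B) (M := ZMod (m * p ^ v)) hp h (isCls_conj hc) hm
    (r := p ^ v) (v := v) rfl hκ (by
      intro x
      rw [nsmul_eq_mul, ZMod.natCast_self, zero_mul]) hF' (f := ((f : ℤ) : ZMod (m * p ^ v)))
    (by
      intro w hw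
      rw [hF.diag w hw]) (by
      intro w x hw
      rw [hF.off w x hw, Int.cast_zero]) (by
      obtain ⟨u, hu⟩ := hv
      rw [hu, nsmul_eq_mul, Int.cast_mul, ← mul_assoc]
      have : ((m : ℕ) : ZMod (m * p ^ v)) * (((p : ℤ) ^ v : ℤ) : ZMod (m * p ^ v)) = 0 := by
        rw [Int.cast_pow, Int.cast_natCast, ← Nat.cast_pow, ← Nat.cast_mul]
        exact ZMod.natCast_self _
      rw [this, zero_mul])
  have h2 := map_Dsum (gr := gr) (A := A) (B := B) (Int.castAddHom (ZMod (m * p ^ v))) F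
  have h3 : Dsum gr A B (fun w x => ((F w x : ℤ) : ZMod (m * p ^ v))) =
      ((Dsum gr A B F : ℤ) : ZMod (m * p ^ v)) := h2.symm
  rw [h3, zsmul_eq_mul, ← Int.cast_mul] at h1
  have h4 := (ZMod.intCast_eq_intCast_iff_dvd_sub _ _ _).1 h1.symm
  rw [hmr] at h4
  exact_mod_cast h4

/-- independence of the cocycle -/
lemma ratio (hp : p.Prime) (h : IP gr A B) {c : Γ} (hc : ∀ x, ¬ IsConj c (x ^ p))
    {F G : Γ → Γ → ℤ} {f g : ℤ} (hF : LC c F f) (hG : LC c G g) :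
    g * Dsum gr A B F = f * Dsum gr A B G := by
  rw [← sub_eq_zero]
  apply Int.eq_zero_of_abs_lt_dvd (m := (p : ℤ) ^
    ((g * Dsum gr A B F - f * Dsum gr A B G).natAbs + 1))
  · set i := (g * Dsum gr A B F - f * Dsum gr A B G).natAbs
    haveI : NeZero (p ^ (i + 1)) := ⟨pow_ne_zero _ hp.ne_zero⟩
    obtain ⟨κ, hκ⟩ := exists_isPh (m := p ^ (i + 1)) hp rfl (isCls_conj hc)
    have h1 := eval_int (gr := gr) (A := A) (B := B) hp h hc rfl hκ hF (v := 0) (by simp)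
    have h2 := eval_int (gr := gr) (A := A) (B := B) hp h hc rfl hκ hG (v := 0) (by simp)
    rw [add_zero] at h1 h2
    have h3 := dvd_sub (Dvd.dvd.mul_left h2 f) (Dvd.dvd.mul_left h1 g)
    have h4 : g * Dsum gr A B F - f * Dsum gr A B G =
        f * (EE gr A B (fun w => IsConj c w) κ * g - Dsum gr A B G) -
        g * (EE gr A B (fun w => IsConj c w) κ * f - Dsum gr A B F) := by ring
    rw [h4]
    exact h3
  · have h1 : (g * Dsum gr A B F - f * Dsum gr A B G).natAbs <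
        p ^ ((g * Dsum gr A B F - f * Dsum gr A B G).natAbs + 1) :=
      lt_of_lt_of_le (Nat.lt_succ_self _) (Nat.lt_pow_self hp.one_lt).le
    rw [Int.abs_eq_natAbs]
    exact_mod_cast h1

variable (gr A B)

/-- the rational class coefficient -/
noncomputable def ec (hb : Cen Γ) (c : Γ) : ℚ :=
  ((Dsum gr A B (cocF c (ff hb c)) : ℤ) : ℚ) / (ff hb c c : ℚ)

variable {gr A B}

lemma ec_spec (h : IP gr A B) (hb : Cen Γ) {c : Γ} (hc : c ≠ 1) {F : Γ → Γ → ℤ} {f : ℤ}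
    (hF : LC c F f) : ((Dsum gr A B F : ℤ) : ℚ) = ec gr A B hb c * f := by
  obtain ⟨p, hp1, hp2⟩ := Nat.exists_infinite_primes ((ff hb c c).natAbs + 1)
  have h1 := ratio (gr := gr) (A := A) (B := B) hp2 h (large hb hc (by omega)) hF
    (LC.of_addOn (ff_add hb hc))
  have h2 : ((ff hb c c : ℤ) : ℚ) ≠ 0 := by exact_mod_cast ff_ne hb hc
  unfold ec
  rw [div_mul_eq_mul_div, eq_div_iff h2]
  have h3 : ((ff hb c c * Dsum gr A B F : ℤ) : ℚ) = ((f * Dsum gr A B (cocF c (ff hb c)) : ℤ) : ℚ) := by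
    rw [h1]
  push_cast at h3
  linarith

lemma ec_conj (h : IP gr A B) (hb : Cen Γ) {c d : Γ} (hc : c ≠ 1) (hcd : IsConj c d) :
    ec gr A B hb c = ec gr A B hb d := by
  have hd : d ≠ 1 := by
    rintro rfl
    exact hc (isConj_one_left.1 hcd)
  have h1 := ec_spec h hb hc ((LC.of_addOn (ff_add hb hd)).conj hcd.symm)
  have h2 : ((ff hb d d : ℤ) : ℚ) ≠ 0 := by exact_mod_cast ff_ne hb hd
  have h3 : ec gr A B hb d = ((Dsum gr A B (cocF d (ff hb d)) : ℤ) : ℚ) / (ff hb d d : ℚ) := rfl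
  rw [h3, h1, mul_div_assoc, div_self h2, mul_one]

lemma ec_zero (hb : Cen Γ) {c : Γ} (hc : ∀ s t, ¬ IsConj c (gr s * gr t)) :
    ec gr A B hb c = 0 := by
  unfold ec
  have h1 : Dsum gr A B (cocF c (ff hb c)) = 0 := by
    unfold Dsum
    apply Finset.sum_eq_zero
    intro y _
    rw [cocF_neg _ (hc _ _), smul_zero]
  rw [h1, Int.cast_zero, zero_div]

/-- the slice sum of a class approximates the class coefficient -/
lemma EE_near (hp : p.Prime) (h : IP gr A B) (hb : Cen Γ) {c : Γ} (hc1 : c ≠ 1)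
    (hc : ∀ x, ¬ IsConj c (x ^ p)) {i : ℕ}
    {m : ℕ} [NeZero m] (hm : m = p ^ (i + 1)) {κ : (ZMod m → Γ) → ZMod m}
    (hκ : IsPh (fun w => IsConj c w) κ) :
    padicNorm p ((EE gr A B (fun w => IsConj c w) κ : ℚ) - ec gr A B hb c) ≤
      (p : ℚ) ^ (-((i + 1 : ℕ) : ℤ)) := by
  haveI : Fact p.Prime := ⟨hp⟩
  set f := ff hb c c with hf
  have hf0 : f ≠ 0 := ff_ne hb hc1
  have hfq : (f : ℚ) ≠ 0 := by exact_mod_cast hf0
  have h1 := eval_int (gr := gr) (A := A) (B := B) hp h hc hm hκ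
    (LC.of_addOn (ff_add hb hc1)) (v := padicValInt p f) (padicValInt_dvd _)
  have h2 := (padicNorm.dvd_iff_norm_le (p := p)).1 (by exact_mod_cast h1)
  have h3 : (EE gr A B (fun w => IsConj c w) κ : ℚ) - ec gr A B hb c =
      ((EE gr A B (fun w => IsConj c w) κ * f - Dsum gr A B (cocF c (ff hb c)) : ℤ) : ℚ) / f := by
    unfold ec
    rw [← hf]
    push_cast
    field_simp
  rw [h3, padicNorm.div]
  have h4 : padicNorm p (f : ℚ) = (p : ℚ) ^ (-(padicValInt p f : ℤ)) := by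
    rw [padicNorm.eq_zpow_of_nonzero hfq, padicValRat.of_int]
  rw [h4, div_le_iff₀ (by positivity [hp.pos])]
  refine h2.trans (le_of_eq ?_)
  rw [← zpow_add₀ (by exact_mod_cast hp.ne_zero)]
  congr 1
  push_cast
  ring

end main

end Pool.Agent.Y72.Log
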