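import Pool.Agent.Y72.Log.Tor
import Mathlib.LinearAlgebra.Matrix.Charpoly.Eigs
import Mathlib.RingTheory.IntegralClosure.Algebra.Basic
import Mathlib.RingTheory.IntegralClosure.IntegrallyClosed
import Mathlib.FieldTheory.IsAlgClosed.Spectrum
import Mathlib.FieldTheory.IsAlgClosed.AlgebraicClosure
import Mathlib.RingTheory.Polynomial.RationalRoot
import Mathlib.FieldTheory.Minpoly.IsIntegrallyClosed

/-!
# Determinants of representations in characteristic zero
-/

set_option autoImplicit false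
set_option linter.unusedSectionVars false

namespace Pool.Agent.Y72.Log

open Finset
open scoped Classical

section int

variable {F : Type*} [Field F] [IsAlgClosed F] {m : Type*} [Fintype m] [DecidableEq m]

lemma root_integral {M : Matrix m m F} (hM : IsIntegral ℤ M) {ν : F}
    (hν : ν ∈ M.charpoly.roots) : IsIntegral ℤ ν := by
  obtain ⟨P, hP, hPM⟩ := hM
  have h1 : ν ∈ spectrum F M :=
    Matrix.mem_spectrum_iff_isRoot_charpoly.2 (Polynomial.isRoot_of_mem_roots hν)
  have h2 : (P.map (algebraMap ℤ F)).eval ν ∈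
      spectrum F (Polynomial.aeval M (P.map (algebraMap ℤ F))) :=
    spectrum.subset_polynomial_aeval M _ ⟨ν, h1, rfl⟩
  have h3 : Polynomial.aeval M (P.map (algebraMap ℤ F)) = 0 := by
    rw [Polynomial.aeval_map_algebraMap]
    exact hPM
  rw [h3] at h2
  haveI : Nontrivial (Matrix m m F) := by
    by_contra hc
    rw [not_nontrivial_iff_subsingleton] at hc
    rw [spectrum.of_subsingleton] at h1
    exact h1
  rw [spectrum.zero_eq] at h2
  refine ⟨P, hP, ?_⟩
  rw [← Polynomial.eval_map]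
  exact h2

lemma multiset_prod_integral (s : Multiset F) (hs : ∀ ν ∈ s, IsIntegral ℤ ν) :
    IsIntegral ℤ s.prod := IsIntegral.multiset_prod hs

lemma multiset_sum_integral (s : Multiset F) (hs : ∀ ν ∈ s, IsIntegral ℤ ν) :
    IsIntegral ℤ s.sum := IsIntegral.multiset_sum hs

lemma det_integral {M : Matrix m m F} (hM : IsIntegral ℤ M) : IsIntegral ℤ M.det := by
  rw [Matrix.det_eq_prod_roots_charpoly]
  exact multiset_prod_integral _ (fun ν hν => root_integral hM hν)

lemma trace_integral {M : Matrix m m F} (hM : IsIntegral ℤ M) : IsIntegral ℤ M.trace := by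
  rw [Matrix.trace_eq_sum_roots_charpoly]
  exact multiset_sum_integral _ (fun ν hν => root_integral hM hν)

lemma multiset_expand (q : ℤ) (s : Multiset F) (hs : ∀ ν ∈ s, IsIntegral ℤ ν) :
    ∃ θ : F, IsIntegral ℤ θ ∧ (s.map (fun ν => 1 + (q : F) * ν)).prod =
      1 + q * s.sum + (q : F) ^ 2 * θ := by
  induction s using Multiset.induction_on with
  | empty => exact ⟨0, isIntegral_zero, by simp⟩
  | cons ν s ih =>
    obtain ⟨θ, hθ, h1⟩ := ih (fun x hx => hs x (Multiset.mem_cons_of_mem hx))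
    have hν := hs ν (Multiset.mem_cons_self ν s)
    have hsum := multiset_sum_integral s (fun x hx => hs x (Multiset.mem_cons_of_mem hx))
    have hq : IsIntegral ℤ (q : F) := isIntegral_algebraMap (x := q)
    refine ⟨θ + ν * s.sum + q * ν * θ, ?_, ?_⟩
    · exact (hθ.add (hν.mul hsum)).add ((hq.mul hν).mul hθ)
    · rw [Multiset.map_cons, Multiset.prod_cons, h1, Multiset.sum_cons]
      ring

lemma det_one_add_integral {q : ℤ} (hq : (q : F) ≠ 0) {W : Matrix m m F} (hW : IsIntegral ℤ W) :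
    ∃ θ : F, IsIntegral ℤ θ ∧ (1 + (q : F) • W).det = 1 + q * W.trace + (q : F) ^ 2 * θ := by
  obtain ⟨θ, hθ, h1⟩ := multiset_expand (F := F) q W.charpoly.roots
    (fun ν hν => root_integral hW hν)
  refine ⟨θ, hθ, ?_⟩
  rw [Matrix.trace_eq_sum_roots_charpoly, ← h1]
  have hsplit : W.charpoly = (W.charpoly.roots.map (fun a => Polynomial.X - Polynomial.C a)).prod :=
    (IsAlgClosed.splits W.charpoly).eq_prod_roots_of_monic W.charpoly_monic
  have hcard : W.charpoly.roots.card = Fintype.card m := by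
    rw [← (IsAlgClosed.splits W.charpoly).natDegree_eq_card_roots, Matrix.charpoly_natDegree_eq_dim]
  have h2 : W.charpoly.eval (-(q : F)⁻¹) =
      (W.charpoly.roots.map (fun a => -(q : F)⁻¹ - a)).prod := by
    conv_lhs => rw [hsplit]
    rw [Polynomial.eval_multiset_prod, Multiset.map_map]
    congr 1
    apply Multiset.map_congr rfl
    intro a _
    simp
  have h3 : (1 + (q : F) • W).det = (-(q : F)) ^ (Fintype.card m) * W.charpoly.eval (-(q : F)⁻¹) := by
    rw [Matrix.eval_charpoly, ← Matrix.det_smul]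
    congr 1
    rw [smul_sub, Matrix.scalar_apply, neg_smul, neg_smul, sub_neg_eq_add]
    congr 1
    rw [← Matrix.smul_one_eq_diagonal, smul_smul]
    rw [mul_neg, mul_inv_cancel₀ hq, neg_smul, one_smul, neg_neg]
  rw [h3, h2, ← hcard, ← Multiset.card_map (fun a => -(q : F)⁻¹ - a) W.charpoly.roots]
  rw [← Multiset.prod_replicate]
  rw [Multiset.card_map]
  rw [← Multiset.map_const', ← Multiset.prod_map_mul]
  congr 1
  apply Multiset.map_congr rfl
  intro a _
  field_simp
  ring

end int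

section sep

variable {F : Type*} [Field F] [CharZero F]

lemma sep_int {p : ℕ} (hp : p.Prime) (x : integralClosure ℤ F) (hx : x ≠ 0) :
    ∃ b : ℕ, ¬ (p : integralClosure ℤ F) ^ b ∣ x := by
  have hx' : (x : F) ≠ 0 := fun h => hx (Subtype.ext h)
  have hint : IsIntegral ℤ (x : F) := x.2
  -- the norm-like multiple
  set P := minpoly ℤ (x : F) with hP
  have hc : P.coeff 0 ≠ 0 := by
    intro h0
    have h1 : minpoly ℚ (x : F) = P.map (algebraMap ℤ ℚ) :=
      minpoly.isIntegrallyClosed_eq_field_fractions' ℚ hint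
    have h2 := minpoly.coeff_zero_ne_zero (A := ℚ) (hint.tower_top) hx'
    apply h2
    rw [h1, Polynomial.coeff_map, h0, map_zero]
  have hdvd : ∃ y : integralClosure ℤ F, x * y = ((P.coeff 0 : ℤ) : integralClosure ℤ F) := by
    have h1 : Polynomial.aeval (x : F) P = 0 := minpoly.aeval ℤ _
    have h2 : (Polynomial.aeval x P : integralClosure ℤ F) = 0 := by
      apply Subtype.ext
      have h3 := Polynomial.aeval_algHom_apply (integralClosure ℤ F).val x P
      have h4 : (integralClosure ℤ F).val x = (x : F) := rfl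
      rw [h4, h1] at h3
      exact h3.symm
    rw [← Polynomial.divX_mul_X_add P, map_add, map_mul, Polynomial.aeval_X,
      Polynomial.aeval_C] at h2
    refine ⟨- Polynomial.aeval x P.divX, ?_⟩
    rw [mul_neg, mul_comm]
    have h5 : (algebraMap ℤ (integralClosure ℤ F)) (P.coeff 0) =
        ((P.coeff 0 : ℤ) : integralClosure ℤ F) := rfl
    rw [← h5]
    linear_combination - h2
  obtain ⟨y, hy⟩ := hdvd
  refine ⟨(P.coeff 0).natAbs, ?_⟩
  rintro ⟨z, hz⟩
  have h1 : ((p : F) ^ (P.coeff 0).natAbs) * ((z * y : integralClosure ℤ F) : F) =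
      ((P.coeff 0 : ℤ) : F) := by
    rw [hz, mul_assoc] at hy
    have h2 := congrArg (fun t : integralClosure ℤ F => (t : F)) hy
    exact_mod_cast h2
  -- the quotient is a rational integer
  have hpb : ((p : ℚ) ^ (P.coeff 0).natAbs) ≠ 0 := pow_ne_zero _ (by exact_mod_cast hp.ne_zero)
  have h3 : algebraMap ℚ F (((P.coeff 0 : ℤ) : ℚ) / (p : ℚ) ^ (P.coeff 0).natAbs) =
      ((z * y : integralClosure ℤ F) : F) := by
    rw [map_div₀, map_pow, map_natCast, map_intCast, ← h1]
    have : ((p : F) ^ (P.coeff 0).natAbs) ≠ 0 := pow_ne_zero _ (by exact_mod_cast hp.ne_zero)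
    field_simp
  have h4 : IsIntegral ℤ (algebraMap ℚ F (((P.coeff 0 : ℤ) : ℚ) / (p : ℚ) ^ (P.coeff 0).natAbs)) := by
    rw [h3]
    exact (z * y).2
  have h5 : IsIntegral ℤ (((P.coeff 0 : ℤ) : ℚ) / (p : ℚ) ^ (P.coeff 0).natAbs) :=
    (isIntegral_algebraMap_iff (algebraMap ℚ F).injective).1 h4
  obtain ⟨t, ht⟩ := IsIntegrallyClosed.isIntegral_iff.1 h5
  have h6 : P.coeff 0 = (p : ℤ) ^ (P.coeff 0).natAbs * t := by
    have h7 : ((P.coeff 0 : ℤ) : ℚ) = (p : ℚ) ^ (P.coeff 0).natAbs * (t : ℚ) := by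
      have h8 : (algebraMap ℤ ℚ) t = (t : ℚ) := rfl
      rw [← h8, ht]
      field_simp
    exact_mod_cast h7
  have h7 : (p ^ (P.coeff 0).natAbs) ∣ (P.coeff 0).natAbs := by
    rw [← Int.natCast_dvd]
    refine ⟨t, ?_⟩
    rw [Nat.cast_pow]
    exact h6
  have h8 := Nat.le_of_dvd (Int.natAbs_pos.2 hc) h7
  have h9 : (P.coeff 0).natAbs < p ^ (P.coeff 0).natAbs := Nat.lt_pow_self hp.one_lt
  omega

end sep

end Pool.Agent.Y72.Log
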