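import Pool.Agent.Y72.Log.Sum

/-!
# Restriction to the preimage of a subgroup, and the main congruence
-/

set_option autoImplicit false
set_option linter.unusedSectionVars false

namespace Pool.Agent.Y72.Log

open Finset Pool.Agent.H23R2 H219.Wh
open scoped Classical

section trace

variable {I S : Type*} [Fintype I] [Fintype S] {Γ : Type*} [Group Γ] {gr : S → Γ}
  {A B : I → I → S → ℤ}

/-- the congruence for the traces -/
theorem trace_van {Q : Type*} [Group Q] [Fintype Q] {p : ℕ} (hp : p.Prime) (h : IP gr A B)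
    (hb : Cen Γ)
    (hA : ∀ l : ℕ, Odd l → ∀ i j a, A i j a ^ l = A i j a)
    (hB : ∀ l : ℕ, Odd l → ∀ i j a, B i j a ^ l = B i j a)
    (φ : Γ →* Q) {P : Q → Prop} (hP : IsCls p P) {a : ℕ} (ha : 1 ≤ a)
    (hnA : NearOne ((p : ℤ) ^ a) (tot (fun s => φ (gr s)) A))
    (hnB : NearOne ((p : ℤ) ^ a) (tot (fun s => φ (gr s)) B)) :
    (p : ℤ) ^ (2 * a) ∣ ∑ g with P g, ∑ i, tot (fun s => φ (gr s)) A i i g := by
  obtain ⟨i, hi⟩ : ∃ i, 2 * a = i + 1 := ⟨2 * a - 1, by omega⟩
  haveI : NeZero (p ^ (i + 1)) := ⟨pow_ne_zero _ hp.ne_zero⟩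
  obtain ⟨κ, hκ⟩ := exists_isPh (m := p ^ (i + 1)) hp rfl hP
  have h1 := EE_van hp h hb hA hB φ hP rfl hκ
  rw [EE_tot] at h1
  have h2 := near hp hP rfl hnA hnB hκ
  rw [hi] at h2 ⊢
  have h3 := dvd_sub h1 h2
  rwa [sub_sub_cancel] at h3

lemma sum_filter_single {Q : Type*} [Fintype Q] (q0 : Q) (F : Q → ℤ) (P : Q → Prop)
    [DecidablePred P] (hP : ∀ q, P q ↔ q = q0) : ∑ q with P q, F q = F q0 := by
  rw [Finset.sum_filter, Finset.sum_eq_single q0]
  · rw [if_pos ((hP q0).2 rfl)]
  · intro b _ hb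
    rw [if_neg (fun h => hb ((hP b).1 h))]
  · intro hc
    exact absurd (Finset.mem_univ _) hc

/-- the congruence for the trace at one element -/
theorem trace_van_single {Q : Type*} [Group Q] [Fintype Q] {p : ℕ} (hp : p.Prime) (h : IP gr A B)
    (hb : Cen Γ)
    (hA : ∀ l : ℕ, Odd l → ∀ i j a, A i j a ^ l = A i j a)
    (hB : ∀ l : ℕ, Odd l → ∀ i j a, B i j a ^ l = B i j a)
    (φ : Γ →* Q) {q0 : Q} (hP : IsCls p (fun q => q = q0)) {a : ℕ} (ha : 1 ≤ a)
    (hnA : NearOne ((p : ℤ) ^ a) (tot (fun s => φ (gr s)) A))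
    (hnB : NearOne ((p : ℤ) ^ a) (tot (fun s => φ (gr s)) B)) :
    (p : ℤ) ^ (2 * a) ∣ ∑ i, tot (fun s => φ (gr s)) A i i q0 := by
  have h1 := trace_van hp h hb hA hB φ hP ha hnA hnB
  rwa [sum_filter_single q0 _ _ (fun _ => Iff.rfl)] at h1

end trace

section res

variable {I S : Type*} [Fintype I] [Fintype S] {Γ G : Type*} [Group Γ] [Group G] [Finite G]
  {gr : S → Γ} {A B : I → I → S → ℤ} (π : Γ →* G) (hπ : Function.Surjective π) (Q : Subgroup G)

/-- lifts of coset representatives -/
noncomputable def sg (t : G ⧸ Q) : Γ := Classical.choose (hπ (Quotient.out t))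

lemma sg_spec (t : G ⧸ Q) : π (sg π hπ Q t) = Quotient.out t :=
  Classical.choose_spec (hπ (Quotient.out t))

lemma out_smul (t : G ⧸ Q) : ((Quotient.out t : G) : G ⧸ Q) = t := Quotient.out_eq' t

lemma act_out (g : G) (t : G ⧸ Q) : g • t = ((g * Quotient.out t : G) : G ⧸ Q) := by
  conv_lhs => rw [← out_smul Q t]
  rfl

/-- the letters of the restricted matrix -/
noncomputable def grR (gr : S → Γ) (y : S × (G ⧸ Q)) : Subgroup.comap π Q :=
  ⟨(sg π hπ Q (π (gr y.1) • y.2))⁻¹ * gr y.1 * sg π hπ Q y.2, by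
    rw [Subgroup.mem_comap, map_mul, map_mul, map_inv, sg_spec, sg_spec, mul_assoc,
      ← QuotientGroup.eq, out_smul, act_out]⟩

/-- the restricted matrix -/
noncomputable def matR (gr : S → Γ) (A : I → I → S → ℤ) :
    (I × (G ⧸ Q)) → (I × (G ⧸ Q)) → (S × (G ⧸ Q)) → ℤ := fun x y s =>
  if s.2 = y.2 ∧ π (gr s.1) • y.2 = x.2 then A x.1 y.1 s.1 else 0

lemma matR_pow {l : ℕ} (hl : l ≠ 0) (hA : ∀ i j a, A i j a ^ l = A i j a) :
    ∀ i j a, matR π Q gr A i j a ^ l = matR π Q gr A i j a := by
  intro i j a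
  unfold matR
  split_ifs
  · exact hA _ _ _
  · exact zero_pow hl

lemma ip_res_half [Fintype (G ⧸ Q)]
    (hAB : ∀ i i' g, ∑ j, ∑ a, ∑ b, (if gr a * gr b = g then A i j a * B j i' b else 0)
      = if i = i' ∧ g = 1 then 1 else 0) (i i' : I × (G ⧸ Q)) (g : Subgroup.comap π Q) :
    ∑ j, ∑ a, ∑ b, (if grR π hπ Q gr a * grR π hπ Q gr b = g then
      matR π Q gr A i j a * matR π Q gr B j i' b else 0) = if i = i' ∧ g = 1 then 1 else 0 := by
  obtain ⟨i, t⟩ := i
  obtain ⟨i', t'⟩ := i'
  have h1 := hAB i i' (sg π hπ Q t * g * (sg π hπ Q t')⁻¹)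
  have h2 : (i = i' ∧ sg π hπ Q t * g * (sg π hπ Q t')⁻¹ = 1) ↔ ((i, t) = (i', t') ∧ g = 1) := by
    constructor
    · rintro ⟨h3, h4⟩
      have h5 : t = t' := by
        have h6 := congrArg π h4
        rw [map_mul, map_mul, map_inv, sg_spec, sg_spec, map_one, mul_inv_eq_one] at h6
        rw [← out_smul Q t, ← out_smul Q t', ← h6, QuotientGroup.eq, inv_mul_cancel_left]
        exact g.2
      subst h5
      refine ⟨by rw [h3], ?_⟩
      rw [mul_inv_eq_one, mul_eq_left] at h4
      exact Subtype.ext h4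
    · rintro ⟨h3, h4⟩
      rw [Prod.mk.injEq] at h3
      refine ⟨h3.1, ?_⟩
      rw [h3.2, h4, Subgroup.coe_one, mul_one, mul_inv_cancel]
  simp only [h2] at h1
  rw [← h1]
  rw [Fintype.sum_prod_type]
  apply Finset.sum_congr rfl
  intro j _
  -- the inner sums
  have h3 : ∀ (t1 : G ⧸ Q), ∑ a, ∑ b, (if grR π hπ Q gr a * grR π hπ Q gr b = g then
      matR π Q gr A (i, t) (j, t1) a * matR π Q gr B (j, t1) (i', t') b else 0) =
      ∑ a : S, ∑ b : S, (if t1 = π (gr b) • t' ∧ gr a * gr b =
        sg π hπ Q t * g * (sg π hπ Q t')⁻¹ then A i j a * B j i' b else 0) := by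
    intro t1
    rw [Fintype.sum_prod_type]
    apply Finset.sum_congr rfl
    intro a _
    rw [Finset.sum_eq_single t1]
    · rw [Fintype.sum_prod_type]
      apply Finset.sum_congr rfl
      intro b _
      rw [Finset.sum_eq_single t']
      · have e1 : matR π Q gr A (i, t) (j, t1) (a, t1) =
            if π (gr a) • t1 = t then A i j a else 0 := by
          unfold matR
          simp
        have e2 : matR π Q gr B (j, t1) (i', t') (b, t') =
            if π (gr b) • t' = t1 then B j i' b else 0 := by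
          unfold matR
          simp
        rw [e1, e2]
        by_cases hb1 : π (gr b) • t' = t1
        · by_cases ha1 : π (gr a) • t1 = t
          · have h4 : (grR π hπ Q gr (a, t1) * grR π hπ Q gr (b, t') = g) ↔
                gr a * gr b = sg π hπ Q t * g * (sg π hπ Q t')⁻¹ := by
              rw [Subtype.ext_iff]
              show (sg π hπ Q (π (gr a) • t1))⁻¹ * gr a * sg π hπ Q t1 *
                ((sg π hπ Q (π (gr b) • t'))⁻¹ * gr b * sg π hπ Q t') = (g : Γ) ↔ _
              rw [ha1, hb1]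
              constructor
              · intro h5
                rw [← h5]
                group
              · intro h5
                have h6 : (sg π hπ Q t)⁻¹ * gr a * sg π hπ Q t1 *
                    ((sg π hπ Q t1)⁻¹ * gr b * sg π hπ Q t') =
                    (sg π hπ Q t)⁻¹ * (gr a * gr b) * sg π hπ Q t' := by group
                rw [h6, h5]
                group
            simp only [h4, ha1, hb1, if_true, true_and]
          · rw [if_neg ha1, zero_mul, ite_self]
            symm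
            rw [if_neg]
            rintro ⟨h4, h5⟩
            apply ha1
            rw [h4, ← mul_smul, ← map_mul, h5, map_mul, map_mul, map_inv, sg_spec, sg_spec,
              act_out]
            rw [mul_assoc, mul_assoc]
            rw [inv_mul_cancel, mul_one]
            conv_rhs => rw [← out_smul Q t]
            symm
            rw [QuotientGroup.eq, inv_mul_cancel_left]
            exact g.2
        · rw [if_neg hb1, mul_zero, ite_self]
          symm
          rw [if_neg]
          rintro ⟨h4, _⟩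
          exact hb1 h4.symm
      · intro v _ hv
        unfold matR
        simp [hv]
      · intro hc
        exact absurd (Finset.mem_univ _) hc
    · intro u _ hu
      apply Finset.sum_eq_zero
      intro b _
      unfold matR
      simp [hu]
    · intro hc
      exact absurd (Finset.mem_univ _) hc
  simp_rw [h3]
  rw [Finset.sum_comm]
  apply Finset.sum_congr rfl
  intro a _
  rw [Finset.sum_comm]
  apply Finset.sum_congr rfl
  intro b _
  rw [Finset.sum_eq_single (π (gr b) • t')]
  · simp only [true_and]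
  · intro t1 _ ht1
    rw [if_neg]
    rintro ⟨h4, _⟩
    exact ht1 h4
  · intro hc
    exact absurd (Finset.mem_univ _) hc

lemma ip_res [Fintype (G ⧸ Q)] (h : IP gr A B) :
    IP (grR π hπ Q gr) (matR π Q gr A) (matR π Q gr B) :=
  ⟨fun i i' g => by convert ip_res_half π hπ Q h.ab i i' g,
    fun i i' g => by convert ip_res_half π hπ Q h.ba i i' g⟩

/-- the homomorphism to the subgroup -/
def toQ : Subgroup.comap π Q →* Q where
  toFun x := ⟨π x, x.2⟩
  map_one' := Subtype.ext (map_one π)
  map_mul' x y := Subtype.ext (map_mul π _ _)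

lemma tot_res [Fintype (G ⧸ Q)] (x y : I × (G ⧸ Q)) (q : Q) :
    tot (fun s => toQ π Q (grR π hπ Q gr s)) (matR π Q gr A) x y q =
      tot (fun s => π (gr s)) A x.1 y.1
        (Quotient.out x.2 * (q : G) * (Quotient.out y.2)⁻¹) := by
  obtain ⟨i, t⟩ := x
  obtain ⟨j, t'⟩ := y
  unfold tot
  rw [Finset.sum_filter, Finset.sum_filter, Fintype.sum_prod_type]
  apply Finset.sum_congr rfl
  intro s _
  rw [Finset.sum_eq_single t']
  · have e1 : matR π Q gr A (i, t) (j, t') (s, t') =
        if π (gr s) • t' = t then A i j s else 0 := by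
      unfold matR
      simp
    rw [e1]
    have e2 : (toQ π Q (grR π hπ Q gr (s, t')) = q) ↔
        (Quotient.out (π (gr s) • t'))⁻¹ * π (gr s) * Quotient.out t' = (q : G) := by
      rw [Subtype.ext_iff]
      show π ((sg π hπ Q (π (gr s) • t'))⁻¹ * gr s * sg π hπ Q t') = (q : G) ↔ _
      rw [map_mul, map_mul, map_inv, sg_spec, sg_spec]
    by_cases h1 : π (gr s) • t' = t
    · rw [h1] at e2
      rw [if_pos h1]
      have e3 : ((Quotient.out t)⁻¹ * π (gr s) * Quotient.out t' = (q : G)) ↔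
          π (gr s) = Quotient.out t * (q : G) * (Quotient.out t')⁻¹ := by
        constructor
        · intro h2
          rw [← h2]
          group
        · intro h2
          rw [h2]
          group
      simp only [e2, e3]
    · rw [if_neg h1, ite_self]
      symm
      rw [if_neg]
      intro h2
      have h2' : π (gr s) = Quotient.out t * (q : G) * (Quotient.out t')⁻¹ := h2
      apply h1
      rw [act_out, h2']
      rw [mul_assoc, mul_assoc, inv_mul_cancel, mul_one]
      conv_rhs => rw [← out_smul Q t]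
      symm
      rw [QuotientGroup.eq, inv_mul_cancel_left]
      exact q.2
  · intro u _ hu
    unfold matR
    simp [hu]
  · intro hc
    exact absurd (Finset.mem_univ _) hc

lemma near_res [Fintype (G ⧸ Q)] {N : ℤ} (hn : NearOne N (tot (fun s => π (gr s)) A)) :
    NearOne N (tot (fun s => toQ π Q (grR π hπ Q gr s)) (matR π Q gr A)) := by
  rintro ⟨i, t⟩ ⟨j, t'⟩ q
  rw [tot_res]
  have h1 := hn i j (Quotient.out t * (q : G) * (Quotient.out t')⁻¹)
  have h2 : (i = j ∧ Quotient.out t * (q : G) * (Quotient.out t')⁻¹ = 1) ↔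
      ((i, t) = (j, t') ∧ q = 1) := by
    constructor
    · rintro ⟨h3, h4⟩
      have h5 : t = t' := by
        rw [mul_inv_eq_one] at h4
        rw [← out_smul Q t, ← out_smul Q t', ← h4, QuotientGroup.eq, inv_mul_cancel_left]
        exact q.2
      subst h5
      refine ⟨by rw [h3], ?_⟩
      rw [mul_inv_eq_one, mul_eq_left] at h4
      exact Subtype.ext h4
    · rintro ⟨h3, h4⟩
      rw [Prod.mk.injEq] at h3
      refine ⟨h3.1, ?_⟩
      rw [h3.2, h4, Subgroup.coe_one, mul_one, mul_inv_cancel]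
  simp only [h2] at h1
  convert h1

end res

section cen

lemma Cen.subgroup {Γ : Type*} [Group Γ] (hb : Cen Γ) (H : Subgroup Γ) : Cen H := by
  intro c hc
  obtain ⟨f, hf, hfc⟩ := hb c (fun h => hc (Subtype.ext h))
  refine ⟨fun x => f x, ?_, hfc⟩
  intro x y hx hy
  exact hf _ _ (congrArg Subtype.val hx) (congrArg Subtype.val hy)

end cen

section cong

variable {I S : Type*} [Fintype I] [Fintype S] {Γ G : Type*} [Group Γ] [Group G] [Fintype G]
  {gr : S → Γ} {A B : I → I → S → ℤ}

/-- the generator of a cyclic group of order divisible by `p` is not a `p`-th power -/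
lemma isCls_zpowers {p : ℕ} (hp : p.Prime) {g : G} (hg : p ∣ orderOf g) :
    IsCls p (fun q : Subgroup.zpowers g => q = ⟨g, Subgroup.mem_zpowers g⟩) := by
  refine ⟨?_, ?_⟩
  · intro w x hw
    have h1 : x⁻¹ * w * x = w := by
      have h2 : w * x = x * w := by
        obtain ⟨j, hj⟩ := w.2
        obtain ⟨k, hk⟩ := x.2
        apply Subtype.ext
        show (w : G) * x = x * w
        rw [← hj, ← hk]
        exact (Commute.zpow_zpow_self g j k)
      rw [mul_assoc, h2, inv_mul_cancel_left]
    rw [h1, hw]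
  · intro x hx
    obtain ⟨⟨y, hy⟩⟩ := (⟨x.2⟩ : Nonempty ((x : G) ∈ Subgroup.zpowers g))
    have h1 : (x : G) ^ p = g := congrArg Subtype.val hx
    have hy' : g ^ y = (x : G) := hy
    rw [← hy', ← zpow_natCast, ← zpow_mul] at h1
    have h2 : g ^ (y * (p : ℤ) - 1) = 1 := by
      rw [zpow_sub, h1, zpow_one, mul_inv_cancel]
    rw [← orderOf_dvd_iff_zpow_eq_one] at h2
    have h3 : (p : ℤ) ∣ y * (p : ℤ) - 1 := dvd_trans (by exact_mod_cast hg) h2
    have h4 : (p : ℤ) ∣ 1 := by
      have h5 := dvd_sub (Dvd.intro_left y rfl : (p : ℤ) ∣ y * (p : ℤ)) h3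
      rwa [sub_sub_cancel] at h5
    have h6 : p ∣ 1 := by exact_mod_cast h4
    exact hp.one_lt.ne' (Nat.dvd_one.1 h6)

lemma sum_conj_eq (g : G) (f : G → ℤ) [Fintype (G ⧸ Subgroup.zpowers g)] :
    ∑ x : G, f (x * g * x⁻¹) = (Nat.card (Subgroup.zpowers g) : ℤ) *
      ∑ t : G ⧸ Subgroup.zpowers g, f (Quotient.out t * g * (Quotient.out t)⁻¹) := by
  rw [← Finset.sum_fiberwise (s := Finset.univ)
    (g := fun x : G => (x : G ⧸ Subgroup.zpowers g)), Finset.mul_sum]
  apply Finset.sum_congr rfl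
  intro t _
  have h1 : ∀ x ∈ (Finset.univ : Finset G).filter (fun x : G => (x : G ⧸ Subgroup.zpowers g) = t),
      f (x * g * x⁻¹) = f (Quotient.out t * g * (Quotient.out t)⁻¹) := by
    intro x hx
    rw [Finset.mem_filter] at hx
    have h2 : (Quotient.out t)⁻¹ * x ∈ Subgroup.zpowers g := by
      rw [← QuotientGroup.eq, out_smul, hx.2]
    obtain ⟨k, hk⟩ := h2
    have h3 : x = Quotient.out t * g ^ k := by
      rw [show g ^ k = (Quotient.out t)⁻¹ * x from hk, mul_inv_cancel_left]
    congr 1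
    rw [h3]
    group
  rw [Finset.sum_congr rfl h1, Finset.sum_const, nsmul_eq_mul]
  congr 2
  rw [← Fintype.card_coe, ← Nat.card_eq_fintype_card]
  apply Nat.card_congr
  refine ⟨fun x => ⟨(Quotient.out t)⁻¹ * x.1, ?_⟩, fun q => ⟨Quotient.out t * q.1, ?_⟩, ?_, ?_⟩
  · have hx := x.2
    rw [Finset.mem_filter] at hx
    rw [← QuotientGroup.eq, out_smul, hx.2]
  · rw [Finset.mem_filter]
    refine ⟨Finset.mem_univ _, ?_⟩
    conv_rhs => rw [← out_smul _ t]
    symm
    rw [QuotientGroup.eq, inv_mul_cancel_left]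
    exact q.2
  · intro x
    apply Subtype.ext
    exact mul_inv_cancel_left _ _
  · intro q
    apply Subtype.ext
    exact inv_mul_cancel_left _ _

/-- **the main congruence** -/
theorem main_cong {p : ℕ} (hp : p.Prime) (h : IP gr A B)
    (hb : Cen Γ)
    (hA : ∀ l : ℕ, Odd l → ∀ i j a, A i j a ^ l = A i j a)
    (hB : ∀ l : ℕ, Odd l → ∀ i j a, B i j a ^ l = B i j a)
    (π : Γ →* G) (hπ : Function.Surjective π) {a : ℕ} (ha : 1 ≤ a)
    (hnA : NearOne ((p : ℤ) ^ a) (tot (fun s => π (gr s)) A))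
    (hnB : NearOne ((p : ℤ) ^ a) (tot (fun s => π (gr s)) B)) {g : G} (hg : p ∣ orderOf g) :
    (p : ℤ) ^ (2 * a) ∣ ∑ x : G, ∑ i, tot (fun s => π (gr s)) A i i (x * g * x⁻¹) := by
  have h1 := trace_van_single hp (ip_res π hπ (Subgroup.zpowers g) h) (hb.subgroup _)
    (fun l hl => matR_pow π _ (by rintro rfl; exact absurd hl (by decide)) (hA l hl))
    (fun l hl => matR_pow π _ (by rintro rfl; exact absurd hl (by decide)) (hB l hl))
    (toQ π (Subgroup.zpowers g)) (isCls_zpowers hp hg) ha
    (near_res π hπ (Subgroup.zpowers g) hnA) (near_res π hπ (Subgroup.zpowers g) hnB)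
  rw [sum_conj_eq g (fun y => ∑ i, tot (fun s => π (gr s)) A i i y)]
  apply Dvd.dvd.mul_left
  rw [Fintype.sum_prod_type, Finset.sum_comm] at h1
  have h2 : ∑ t : G ⧸ Subgroup.zpowers g, ∑ i : I,
      tot (fun s => π (gr s)) A i i (Quotient.out t * g * (Quotient.out t)⁻¹) =
      ∑ t : G ⧸ Subgroup.zpowers g, ∑ i : I,
      tot (fun s => toQ π (Subgroup.zpowers g) (grR π hπ (Subgroup.zpowers g) gr s))
        (matR π (Subgroup.zpowers g) gr A) (i, t) (i, t) ⟨g, Subgroup.mem_zpowers g⟩ := by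
    apply Finset.sum_congr rfl
    intro t _
    apply Finset.sum_congr rfl
    intro i _
    rw [tot_res]
  rw [h2]
  exact h1

end cong

end Pool.Agent.Y72.Log
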