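import Pool.Agent.H219.Wh.Key

/-!
# Slices of free actions of cyclic groups
-/

set_option autoImplicit false
set_option linter.unusedSectionVars false

namespace Pool.Agent.Y72.Log

open Finset Pool.Agent.H23R2 H219.Wh
open scoped Classical

section slice

variable {X : Type*} [Fintype X] {m : ℕ} {M : Type*} [AddCommMonoid M]

/-- the sum of an invariant function over a slice does not depend on the slice -/
lemma sum_slice (act : ZMod m → X → X) (h0 : ∀ x, act 0 x = x)
    (hadd : ∀ a b x, act a (act b x) = act (a + b) x)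
    (R : X → Prop) (hR : ∀ c x, R x → R (act c x))
    (l l' : X → ZMod m) (hl : ∀ x, R x → ∀ c, l (act c x) = l x + c)
    (hl' : ∀ x, R x → ∀ c, l' (act c x) = l' x + c)
    (φ : X → M) (hφ : ∀ x, R x → ∀ c, φ (act c x) = φ x) :
    ∑ x with (R x ∧ l x = 0), φ x = ∑ x with (R x ∧ l' x = 0), φ x := by
  refine Finset.sum_nbij' (fun x => act (-(l' x)) x) (fun x => act (-(l x)) x) ?_ ?_ ?_ ?_ ?_
  · intro x hx
    simp only [Finset.mem_filter, Finset.mem_univ, true_and] at hx ⊢
    exact ⟨hR _ _ hx.1, by rw [hl' x hx.1, add_neg_cancel]⟩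
  · intro x hx
    simp only [Finset.mem_filter, Finset.mem_univ, true_and] at hx ⊢
    exact ⟨hR _ _ hx.1, by rw [hl x hx.1, add_neg_cancel]⟩
  · intro x hx
    simp only [Finset.mem_filter, Finset.mem_univ, true_and] at hx
    rw [hl x hx.1, hx.2, zero_add, neg_neg, hadd, add_neg_cancel, h0]
  · intro x hx
    simp only [Finset.mem_filter, Finset.mem_univ, true_and] at hx
    rw [hl' x hx.1, hx.2, zero_add, neg_neg, hadd, add_neg_cancel, h0]
  · intro x hx
    simp only [Finset.mem_filter, Finset.mem_univ, true_and] at hx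
    rw [hφ x hx.1]

/-- if the orbit sums of a function vanish then so does its sum over a slice of the average -/
lemma sum_orbit_act [NeZero m] (act : ZMod m → X → X) (h0 : ∀ x, act 0 x = x)
    (hadd : ∀ a b x, act a (act b x) = act (a + b) x)
    (R : X → Prop) (hR : ∀ c x, R x → R (act c x))
    (l : X → ZMod m) (hl : ∀ x, R x → ∀ c, l (act c x) = l x + c) (G : X → M) :
    ∑ x with R x, G x = ∑ x with (R x ∧ l x = 0), ∑ c : ZMod m, G (act c x) := by
  rw [Finset.sum_comm]
  have h : ∀ c : ZMod m, ∑ x with (R x ∧ l x = 0), G (act c x)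
      = ∑ x with (R x ∧ l x = c), G x := by
    intro c
    refine Finset.sum_nbij' (fun x => act c x) (fun x => act (-c) x) ?_ ?_ ?_ ?_ ?_
    · intro x hx
      simp only [Finset.mem_filter, Finset.mem_univ, true_and] at hx ⊢
      exact ⟨hR _ _ hx.1, by rw [hl x hx.1, hx.2, zero_add]⟩
    · intro x hx
      simp only [Finset.mem_filter, Finset.mem_univ, true_and] at hx ⊢
      exact ⟨hR _ _ hx.1, by rw [hl x hx.1, hx.2, add_neg_cancel]⟩
    · intro x _
      rw [hadd, neg_add_cancel, h0]
    · intro x _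
      rw [hadd, add_neg_cancel, h0]
    · intro x _
      rfl
  simp_rw [h]
  rw [← Finset.sum_fiberwise (s := Finset.univ.filter R) (g := l)]
  apply Finset.sum_congr rfl
  intro c _
  apply Finset.sum_congr _ (fun _ _ => rfl)
  ext x
  simp

end slice

section emb

variable {m r : ℕ}

/-- multiplication by `r` as a map `ZMod m → ZMod (m * r)` -/
def emb (m r : ℕ) : ZMod m →+ ZMod (m * r) :=
  ZMod.lift m ⟨zmultiplesHom _ ((r : ℕ) : ZMod (m * r)), by
    rw [zmultiplesHom_apply, natCast_zsmul, nsmul_eq_mul, ← Nat.cast_mul]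
    exact ZMod.natCast_self (m * r)⟩

lemma emb_natCast (k : ℕ) : emb m r (k : ZMod m) = ((k * r : ℕ) : ZMod (m * r)) := by
  unfold emb
  have h := ZMod.lift_coe m ⟨zmultiplesHom _ ((r : ℕ) : ZMod (m * r)), by
    rw [zmultiplesHom_apply, natCast_zsmul, nsmul_eq_mul, ← Nat.cast_mul]
    exact ZMod.natCast_self (m * r)⟩ (k : ℤ)
  rw [Int.cast_natCast] at h
  rw [h, zmultiplesHom_apply, natCast_zsmul, nsmul_eq_mul, ← Nat.cast_mul]

end emb

end Pool.Agent.Y72.Log
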