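import Pool.Agent.Y72.Log.Ind
import Pool.Agent.Y72.Log.Lift
import Mathlib.Algebra.MonoidAlgebra.MapDomain
import Mathlib.GroupTheory.OrderOfElement
import Mathlib.Data.ZMod.Basic
import Mathlib.Data.Nat.ChineseRemainder
import Mathlib.Data.Nat.Factorization.Basic

/-!
# Determinants over cyclic subgroups are of finite order
-/

set_option autoImplicit false
set_option linter.unusedSectionVars false

namespace Pool.Agent.Y72.Log

open Finset
open scoped Classical

section coeff

variable {G : Type*}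

lemma eq_smul_of_dvd [Finite G] (x : MonoidAlgebra ℤ G) (N : ℤ) (h : ∀ g, N ∣ x.coeff g) :
    ∃ y : MonoidAlgebra ℤ G, x = N • y := by
  choose q hq using h
  refine ⟨MonoidAlgebra.ofCoeff (Finsupp.equivFunOnFinite.symm q), ?_⟩
  apply MonoidAlgebra.coeff_injective
  ext g
  rw [hq]
  rfl

end coeff

section mat

variable {G n : Type*} [Group G] [Finite G] [Fintype n] [DecidableEq n]

lemma mat_eq_smul_of_dvd (X : Matrix n n (MonoidAlgebra ℤ G)) (N : ℤ)
    (h : ∀ i j g, N ∣ (X i j).coeff g) : ∃ Y : Matrix n n (MonoidAlgebra ℤ G), X = N • Y := by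
  have h1 := fun i j => eq_smul_of_dvd (X i j) N (h i j)
  choose Y hY using h1
  refine ⟨Matrix.of Y, ?_⟩
  ext1 i j
  rw [hY, Matrix.smul_apply]
  rfl

/-- a power which is congruent to one -/
lemma exists_pow_near (X : (Matrix n n (MonoidAlgebra ℤ G))ˣ) {p : ℕ} (hp : p.Prime) :
    ∃ k : ℕ, 0 < k ∧ ∃ Z : Matrix n n (MonoidAlgebra ℤ G),
      (X : Matrix n n (MonoidAlgebra ℤ G)) ^ k = 1 + (p : ℤ) • Z := by
  haveI : Fact p.Prime := ⟨hp⟩
  haveI : Fintype G := Fintype.ofFinite G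
  haveI : Finite (MonoidAlgebra (ZMod p) G) :=
    Finite.of_injective (fun x : MonoidAlgebra (ZMod p) G => (x.coeff : G → ZMod p))
      (fun x y h => MonoidAlgebra.coeff_injective (DFunLike.coe_injective h))
  haveI : Finite (Matrix n n (MonoidAlgebra (ZMod p) G)) :=
    inferInstanceAs (Finite (n → n → MonoidAlgebra (ZMod p) G))
  let f : Matrix n n (MonoidAlgebra ℤ G) →+* Matrix n n (MonoidAlgebra (ZMod p) G) :=
    (MonoidAlgebra.mapRingHom G (Int.castRingHom (ZMod p))).mapMatrix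
  set Y := Units.map f.toMonoidHom X with hY
  haveI : Finite (Matrix n n (MonoidAlgebra (ZMod p) G))ˣ := inferInstance
  refine ⟨orderOf Y, orderOf_pos Y, ?_⟩
  have h1 : f ((X : Matrix n n (MonoidAlgebra ℤ G)) ^ (orderOf Y)) = 1 := by
    have h2 := congrArg Units.val (pow_orderOf_eq_one Y)
    rw [Units.val_pow_eq_pow_val, Units.val_one] at h2
    rw [map_pow]
    exact h2
  obtain ⟨Z, hZ⟩ := mat_eq_smul_of_dvd
    ((X : Matrix n n (MonoidAlgebra ℤ G)) ^ (orderOf Y) - 1) (p : ℤ) (by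
      intro i j g
      have h2 : f ((X : Matrix n n (MonoidAlgebra ℤ G)) ^ (orderOf Y) - 1) = 0 := by
        rw [map_sub, h1, map_one, sub_self]
      have h3 := congrArg (fun M : Matrix n n (MonoidAlgebra (ZMod p) G) => (M i j).coeff g) h2
      have h4 : ((((X : Matrix n n (MonoidAlgebra ℤ G)) ^ (orderOf Y) - 1) i j).coeff g : ZMod p)
          = 0 := by
        have h5 := MonoidAlgebra.coeff_mapRingHom (M := G) (Int.castRingHom (ZMod p))
          (((X : Matrix n n (MonoidAlgebra ℤ G)) ^ (orderOf Y) - 1) i j) g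
        have h6 : (f ((X : Matrix n n (MonoidAlgebra ℤ G)) ^ (orderOf Y) - 1) i j).coeff g = 0 := h3
        have h7 : f ((X : Matrix n n (MonoidAlgebra ℤ G)) ^ (orderOf Y) - 1) i j =
          MonoidAlgebra.mapRingHom G (Int.castRingHom (ZMod p))
            (((X : Matrix n n (MonoidAlgebra ℤ G)) ^ (orderOf Y) - 1) i j) := rfl
        rw [h7, h5] at h6
        exact h6
      exact (ZMod.intCast_zmod_eq_zero_iff_dvd _ p).1 h4)
  exact ⟨Z, by rw [← hZ]; abel⟩

/-- higher powers -/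
lemma pow_near {p : ℕ} {X Z : Matrix n n (MonoidAlgebra ℤ G)} (h : X = 1 + (p : ℤ) • Z) (a : ℕ) :
    ∃ W : Matrix n n (MonoidAlgebra ℤ G), X ^ (p ^ a) = 1 + ((p : ℤ) ^ (a + 1)) • W := by
  induction a with
  | zero => exact ⟨Z, by simpa using h⟩
  | succ a ih =>
    obtain ⟨W, hW⟩ := ih
    obtain ⟨c, hc, _⟩ := one_add_pow_eq ((p : ℤ) ^ (a + 1) • W) p
    refine ⟨W + (p : ℤ) ^ a • (W * W * c), ?_⟩
    rw [pow_succ, pow_mul, hW, hc, smul_add, add_assoc]
    congr 1
    congr 1
    · rw [← nsmul_eq_mul, ← natCast_zsmul, smul_smul]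
      congr 1
      ring
    · rw [smul_mul_smul_comm, smul_mul_assoc, smul_smul]
      congr 1
      ring

end mat

section endo

variable {C : Type*} [CommGroup C]

/-- the endomorphism given by the `m`-th power -/
noncomputable def em (m : ℕ) : MonoidAlgebra ℤ C →+* MonoidAlgebra ℤ C :=
  MonoidAlgebra.mapDomainRingHom ℤ (powMonoidHom m)

lemma em_single (m : ℕ) (c : C) (a : ℤ) :
    em m (MonoidAlgebra.single c a) = MonoidAlgebra.single (c ^ m) a :=
  MonoidAlgebra.mapDomain_single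

lemma em_mul (m m' : ℕ) (x : MonoidAlgebra ℤ C) : em m (em m' x) = em (m * m') x := by
  induction x using MonoidAlgebra.induction_linear with
  | zero => simp only [map_zero]
  | add x y hx hy => simp only [map_add, hx, hy]
  | single c a => rw [em_single, em_single, em_single, ← pow_mul, mul_comm m' m]

lemma em_one (x : MonoidAlgebra ℤ C) : em 1 x = x := by
  induction x using MonoidAlgebra.induction_linear with
  | zero => simp only [map_zero]
  | add x y hx hy => simp only [map_add, hx, hy]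
  | single c a => rw [em_single, pow_one]

lemma sub_em [Finite C] {m : ℕ} (x : MonoidAlgebra ℤ C) (N : ℤ)
    (h : ∀ c : C, c ^ m = c ∨ N ∣ x.coeff c) : ∃ y, x - em m x = N • y := by
  haveI : Fintype C := Fintype.ofFinite C
  have h1 : ∀ c : C, ∃ y : MonoidAlgebra ℤ C,
      MonoidAlgebra.single c (x.coeff c) - MonoidAlgebra.single (c ^ m) (x.coeff c) = N • y := by
    intro c
    rcases h c with hc | ⟨q, hq⟩
    · exact ⟨0, by rw [hc, sub_self, smul_zero]⟩
    · refine ⟨MonoidAlgebra.single c q - MonoidAlgebra.single (c ^ m) q, ?_⟩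
      rw [smul_sub, MonoidAlgebra.smul_single, MonoidAlgebra.smul_single, hq, smul_eq_mul]
  choose y hy using h1
  have h2 : x = ∑ c, MonoidAlgebra.single c (x.coeff c) := by
    apply MonoidAlgebra.coeff_injective
    ext g
    rw [MonoidAlgebra.coeff_sum, Finsupp.finsetSum_apply]
    simp [Finsupp.single_apply]
  refine ⟨∑ c, y c, ?_⟩
  rw [Finset.smul_sum]
  conv_lhs => rw [h2]
  rw [map_sum, ← Finset.sum_sub_distrib]
  apply Finset.sum_congr rfl
  intro c _
  rw [em_single, hy]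

end endo

section main

variable {G n : Type*} [Group G] [Fintype G] [Fintype n] [DecidableEq n]

/-- the congruences for the powers of a matrix -/
def MC (X : (Matrix n n (MonoidAlgebra ℤ G))ˣ) : Prop :=
  ∀ p : ℕ, p.Prime → ∀ a : ℕ, 1 ≤ a → ∀ k : ℕ,
    (∃ Z : Matrix n n (MonoidAlgebra ℤ G),
      (X : Matrix n n (MonoidAlgebra ℤ G)) ^ k = 1 + ((p : ℤ) ^ a) • Z) →
    ∀ g : G, p ∣ orderOf g → (p : ℤ) ^ (2 * a) ∣
      ∑ x : G, ∑ i, (((X : Matrix n n (MonoidAlgebra ℤ G)) ^ k) i i).coeff (x * g * x⁻¹)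

variable {C T : Type*} [CommGroup C] [Fintype C] [Fintype T] [DecidableEq T] (e : G ≃ T × C)
  (ι : C →* G) (he : ∀ z c, e (z * ι c) = ((e z).1, (e z).2 * c))

/-- the determinant of the restricted matrix -/
noncomputable def du (X : Matrix n n (MonoidAlgebra ℤ G)) : MonoidAlgebra ℤ C :=
  (blkR (indR e ι he) X).det

lemma du_mul (X Y : Matrix n n (MonoidAlgebra ℤ G)) :
    du e ι he (X * Y) = du e ι he X * du e ι he Y := by
  unfold du
  rw [map_mul, Matrix.det_mul]

lemma du_one : du e ι he (1 : Matrix n n (MonoidAlgebra ℤ G)) = 1 := by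
  unfold du
  rw [map_one, Matrix.det_one]

lemma du_pow (X : Matrix n n (MonoidAlgebra ℤ G)) (k : ℕ) :
    du e ι he (X ^ k) = du e ι he X ^ k := by
  induction k with
  | zero => rw [pow_zero, pow_zero, du_one]
  | succ k ih => rw [pow_succ, pow_succ, du_mul, ih]

/-- determinant and trace for a matrix congruent to one -/
lemma du_near {Y Z : Matrix n n (MonoidAlgebra ℤ G)} {q : ℤ} (h : Y = 1 + q • Z) :
    ∃ c : MonoidAlgebra ℤ C, du e ι he Y = 1 + (blkR (indR e ι he) Y).trace -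
      (Fintype.card (n × T) : MonoidAlgebra ℤ C) + ((q : ℤ) : MonoidAlgebra ℤ C) ^ 2 * c := by
  have h1 : blkR (indR e ι he) Y = 1 + ((q : ℤ) : MonoidAlgebra ℤ C) •
      blkR (indR e ι he) Z := by
    rw [h, map_add, map_one, map_zsmul]
    congr 1
    ext1 i j
    rw [Matrix.smul_apply, Matrix.smul_apply, zsmul_eq_mul, smul_eq_mul]
  obtain ⟨c, hc⟩ : ∃ c : MonoidAlgebra ℤ C, (1 + ((q : ℤ) : MonoidAlgebra ℤ C) •
      blkR (indR e ι he) Z).det = 1 + (blkR (indR e ι he) Z).trace *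
        ((q : ℤ) : MonoidAlgebra ℤ C) + c * ((q : ℤ) : MonoidAlgebra ℤ C) ^ 2 :=
    ⟨_, Matrix.det_one_add_smul _ _⟩
  refine ⟨c, ?_⟩
  unfold du
  rw [h1, hc, Matrix.trace_add, Matrix.trace_one, Matrix.trace_smul, smul_eq_mul]
  ring

lemma trace_coeff (Y : Matrix n n (MonoidAlgebra ℤ G)) (c : C) :
    (Fintype.card C : ℤ) * ((blkR (indR e ι he) Y).trace).coeff c =
      ∑ x : G, ∑ i, (Y i i).coeff (x * ι c * x⁻¹) := by
  rw [sum_conj_ind e ι he (fun y => ∑ i, (Y i i).coeff y) c, trace_blkR, MonoidAlgebra.coeff_sum,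
    Finsupp.finsetSum_apply, Finset.sum_comm]
  congr 1
  apply Finset.sum_congr rfl
  intro i _
  exact trace_indR_coeff e ι he (Y i i) c

lemma tf_alg {p : ℕ} (hp : p.Prime) (x : MonoidAlgebra ℤ C) (h : (p : MonoidAlgebra ℤ C) * x = 0) :
    x = 0 := by
  apply MonoidAlgebra.coeff_injective
  ext c
  rw [← nsmul_eq_mul] at h
  have h1 := congrArg (fun y : MonoidAlgebra ℤ C => y.coeff c) h
  have h2 : (p • x).coeff c = p • x.coeff c := rfl
  have h3 : (p : ℤ) * x.coeff c = 0 := by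
    rw [← nsmul_eq_mul, ← h2]
    exact h1
  rcases mul_eq_zero.1 h3 with h4 | h4
  · exact absurd (by exact_mod_cast h4) hp.ne_zero
  · exact h4

lemma sep_alg {p : ℕ} (hp : p.Prime) (x : MonoidAlgebra ℤ C) (h : x ≠ 0) :
    ∃ b : ℕ, ¬ (p : MonoidAlgebra ℤ C) ^ b ∣ x := by
  have h1 : ∃ c, x.coeff c ≠ 0 := by
    by_contra hc
    push Not at hc
    apply h
    apply MonoidAlgebra.coeff_injective
    ext c
    exact hc c
  obtain ⟨c, hc⟩ := h1
  refine ⟨(x.coeff c).natAbs, ?_⟩
  rintro ⟨y, hy⟩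
  rw [← Nat.cast_pow, ← nsmul_eq_mul] at hy
  have h2 : x.coeff c = ((p ^ (x.coeff c).natAbs : ℕ) : ℤ) * y.coeff c := by
    conv_lhs => rw [hy]
    rw [← nsmul_eq_mul]
    rfl
  have h3 : (p ^ (x.coeff c).natAbs) ∣ (x.coeff c).natAbs := by
    rw [← Int.natCast_dvd]
    exact ⟨_, h2⟩
  have h4 := Nat.le_of_dvd (Int.natAbs_pos.2 hc) h3
  have h5 : (x.coeff c).natAbs < p ^ (x.coeff c).natAbs := Nat.lt_pow_self hp.one_lt
  omega

/-- one prime -/
lemma one_prime (hι : Function.Injective ι) (X : (Matrix n n (MonoidAlgebra ℤ G))ˣ) (hX : MC X)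
    {p : ℕ} (hp : p.Prime) {m : ℕ} (hm : ∀ c : C, ¬ p ∣ orderOf c → c ^ m = c) :
    ∃ N : ℕ, 0 < N ∧ em m (du e ι he X.val) ^ N = du e ι he X.val ^ N := by
  set u := du e ι he X.val with hu
  set u' := du e ι he (X⁻¹).val with hu'
  have huu : u * u' = 1 := by
    rw [hu, hu', ← du_mul, Units.mul_inv, du_one]
  obtain ⟨k, hk, Z, hZ⟩ := exists_pow_near X hp
  have hk2 : ∀ a : ℕ, 1 ≤ a → ∃ W : Matrix n n (MonoidAlgebra ℤ G),
      X.val ^ (k * p ^ (a - 1)) = 1 + ((p : ℤ) ^ a) • W := by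
    intro a ha
    obtain ⟨W, hW⟩ := pow_near hZ (a - 1)
    rw [Nat.sub_add_cancel ha] at hW
    exact ⟨W, by rw [pow_mul, hW]⟩
  have h1 : ∃ N : ℕ, 0 < N ∧ (u * em m u') ^ N = 1 := by
    apply torsion_of_fast hp (fun x hx => tf_alg hp x hx) (fun x hx => sep_alg hp x hx) hk
      (Fintype.card_pos (α := C))
    intro a ha
    obtain ⟨W, hW⟩ := hk2 a ha
    set K := k * p ^ (a - 1) with hK
    obtain ⟨c, hc⟩ := du_near e ι he hW
    rw [du_pow, ← hu] at hc
    set tr := (blkR (indR e ι he) (X.val ^ K)).trace with htr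
    obtain ⟨y, hy⟩ := sub_em (m := m) ((Fintype.card C : ℤ) • tr) ((p : ℤ) ^ (2 * a)) (by
      intro g
      by_cases hg : p ∣ orderOf g
      · right
        rw [MonoidAlgebra.coeff_smul, Finsupp.smul_apply, smul_eq_mul, htr, trace_coeff]
        apply hX p hp a ha K ⟨W, hW⟩
        rw [orderOf_injective ι hι]
        exact hg
      · left
        exact hm g hg)
    have h2 : (Fintype.card C : MonoidAlgebra ℤ C) * (u ^ K - em m u ^ K) =
        (p : MonoidAlgebra ℤ C) ^ (2 * a) *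
        (y + (Fintype.card C : MonoidAlgebra ℤ C) * (c - em m c)) := by
      rw [← map_pow, hc]
      simp only [map_sub, map_add, map_mul, map_one, map_pow, map_natCast, map_intCast]
      have h3 : (Fintype.card C : MonoidAlgebra ℤ C) * (tr - em m tr) =
          (p : MonoidAlgebra ℤ C) ^ (2 * a) * y := by
        rw [map_zsmul, ← smul_sub, zsmul_eq_mul, zsmul_eq_mul] at hy
        push_cast at hy
        exact hy
      have h4 : (((p : ℤ) ^ a : ℤ) : MonoidAlgebra ℤ C) ^ 2 =
          (p : MonoidAlgebra ℤ C) ^ (2 * a) := by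
        push_cast
        rw [← pow_mul, mul_comm a 2]
      rw [h4, mul_add, ← h3]
      ring
    have h5 : (u * em m u') ^ K - 1 = (u ^ K - em m u ^ K) * em m u' ^ K := by
      have h6 : em m u * em m u' = 1 := by rw [← map_mul, huu, map_one]
      rw [mul_pow, sub_mul, ← mul_pow (em m u), h6, one_pow]
    rw [h5, ← mul_assoc, h2, mul_assoc]
    exact Dvd.intro _ rfl
  obtain ⟨N, hN, h2⟩ := h1
  refine ⟨N, hN, ?_⟩
  have h6 : em m u' * em m u = 1 := by rw [← map_mul, mul_comm u', huu, map_one]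
  calc em m u ^ N = (u * em m u') ^ N * em m u ^ N := by rw [h2, one_mul]
    _ = u ^ N := by
      rw [← mul_pow, mul_assoc, h6, mul_one]

/-- the exponent for one prime -/
lemma exists_exp {p : ℕ} (hp : p.Prime) : ∃ m : ℕ, p ^ ((Fintype.card C).factorization p) ∣ m ∧
    ∀ c : C, ¬ p ∣ orderOf c → c ^ m = c := by
  have hcard : Fintype.card C ≠ 0 := Fintype.card_ne_zero
  set k := (Fintype.card C).factorization p
  set M := Fintype.card C / p ^ k with hM
  have h1 : p ^ k * M = Fintype.card C := Nat.ordProj_mul_ordCompl_eq_self _ p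
  have h2 : Nat.Coprime (p ^ k) M :=
    Nat.Coprime.pow_left _ (Nat.coprime_ordCompl hp hcard)
  obtain ⟨m, hm1, hm2⟩ := Nat.chineseRemainder h2 0 1
  refine ⟨m, (Nat.modEq_zero_iff_dvd).1 hm1, ?_⟩
  intro c hc
  have h3 : orderOf c ∣ M := by
    have h4 : orderOf c ∣ p ^ k * M := by rw [h1]; exact orderOf_dvd_card
    exact (Nat.Coprime.dvd_of_dvd_mul_left
      (Nat.Coprime.pow_right _ ((Nat.Prime.coprime_iff_not_dvd hp).2 hc).symm) h4)
  have h5 : c ^ m = c ^ 1 := by
    rw [pow_eq_pow_iff_modEq]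
    exact hm2.of_dvd h3
  rw [h5, pow_one]

/-- **the determinant over a commutative subgroup has finite order** -/
theorem du_torsion (hι : Function.Injective ι) (X : (Matrix n n (MonoidAlgebra ℤ G))ˣ)
    (hX : MC X) : ∃ N : ℕ, 0 < N ∧ du e ι he X.val ^ N = 1 := by
  set u := du e ι he X.val with hu
  set u' := du e ι he (X⁻¹).val with hu'
  have huu : u * u' = 1 := by
    rw [hu, hu', ← du_mul, Units.mul_inv, du_one]
  have h1 : ∀ p : ℕ, ∃ m : ℕ, p.Prime → (p ^ ((Fintype.card C).factorization p) ∣ m ∧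
      ∀ c : C, ¬ p ∣ orderOf c → c ^ m = c) := by
    intro p
    by_cases hp : p.Prime
    · obtain ⟨m, hm⟩ := exists_exp (C := C) hp
      exact ⟨m, fun _ => hm⟩
    · exact ⟨0, fun h => absurd h hp⟩
  choose μ hμ using h1
  have h2 : ∀ s : Finset ℕ, (∀ p ∈ s, p.Prime) →
      ∃ N : ℕ, 0 < N ∧ em (∏ p ∈ s, μ p) u ^ N = u ^ N := by
    intro s
    induction s using Finset.induction_on with
    | empty =>
      intro _
      exact ⟨1, one_pos, by rw [Finset.prod_empty, em_one]⟩
    | insert p s hps ih =>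
      intro hs
      obtain ⟨N, hN, h3⟩ := ih (fun q hq => hs q (Finset.mem_insert_of_mem hq))
      have hp := hs p (Finset.mem_insert_self p s)
      obtain ⟨N', hN', h4⟩ := one_prime e ι he hι X hX hp (hμ p hp).2
      refine ⟨N * N', Nat.mul_pos hN hN', ?_⟩
      rw [Finset.prod_insert hps, ← em_mul]
      calc em (μ p) (em (∏ p ∈ s, μ p) u) ^ (N * N') =
          (em (μ p) (em (∏ p ∈ s, μ p) u ^ N)) ^ N' := by rw [map_pow, ← pow_mul]
        _ = (em (μ p) u ^ N') ^ N := by rw [h3, map_pow, ← pow_mul, ← pow_mul, mul_comm]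
        _ = u ^ (N * N') := by rw [h4, ← pow_mul, mul_comm]
  obtain ⟨N, hN, h3⟩ := h2 (Fintype.card C).primeFactors
    (fun p hp => Nat.prime_of_mem_primeFactors hp)
  set m := ∏ p ∈ (Fintype.card C).primeFactors, μ p with hm
  have h4 : Fintype.card C ∣ m := by
    have hcard : Fintype.card C ≠ 0 := Fintype.card_ne_zero
    conv_lhs => rw [← Nat.prod_factorization_pow_eq_self hcard]
    rw [Finsupp.prod, Nat.support_factorization]
    exact Finset.prod_dvd_prod_of_dvd _ _ (fun p hp => (hμ p (Nat.prime_of_mem_primeFactors hp)).1)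
  have h5 : ∀ x : MonoidAlgebra ℤ C, ∃ a : ℤ, em m x = ((a : ℤ) : MonoidAlgebra ℤ C) := by
    intro x
    induction x using MonoidAlgebra.induction_linear with
    | zero => exact ⟨0, by rw [map_zero, Int.cast_zero]⟩
    | add x y hx hy =>
      obtain ⟨a, ha⟩ := hx
      obtain ⟨b, hb⟩ := hy
      exact ⟨a + b, by rw [map_add, ha, hb, Int.cast_add]⟩
    | single c a =>
      refine ⟨a, ?_⟩
      have h6 : c ^ m = 1 := by
        rw [← orderOf_dvd_iff_pow_eq_one]
        exact orderOf_dvd_card.trans h4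
      rw [em_single, h6]
      exact (MonoidAlgebra.intCast_def a).symm
  obtain ⟨a, ha⟩ := h5 u
  obtain ⟨b, hb⟩ := h5 u'
  have h7 : ((a * b : ℤ) : MonoidAlgebra ℤ C) = 1 := by
    rw [Int.cast_mul, ← ha, ← hb, ← map_mul, huu, map_one]
  have h8 : a * b = 1 := by
    rw [MonoidAlgebra.intCast_def, MonoidAlgebra.one_def] at h7
    exact_mod_cast MonoidAlgebra.single_right_injective h7
  have h9 : a ^ 2 = 1 := by
    rcases Int.mul_eq_one_iff_eq_one_or_neg_one.1 h8 with h | h
    · rw [h.1]; norm_num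
    · rw [h.1]; norm_num
  refine ⟨N * 2, Nat.mul_pos hN two_pos, ?_⟩
  rw [pow_mul, ← h3, ha, ← pow_mul, mul_comm, pow_mul, ← Int.cast_pow, h9, Int.cast_one, one_pow]

end main

end Pool.Agent.Y72.Log
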