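import Mathlib.RingTheory.AlgebraicIndependent.TranscendenceBasis
import Mathlib.RingTheory.AlgebraicIndependent.AlgebraicClosure
import Mathlib.FieldTheory.RatFunc.AsPolynomial
import Mathlib.FieldTheory.RatFunc.Degree
import Mathlib.FieldTheory.RatFunc.Luroth
import Mathlib.FieldTheory.IntermediateField.Adjoin.Algebra
import Mathlib.RingTheory.Norm.Basic
import Mathlib.Tactic

/-!
# A discrete valuation which does not vanish on a transcendental element
-/

set_option autoImplicit false
set_option linter.unusedSectionVars false

namespace Pool.Agent.Y72.Log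

open IntermediateField

/-- an additive function on the nonzero elements of a field -/
def IsVal {L : Type*} [Field L] (v : L → ℤ) : Prop := ∀ x y, x ≠ 0 → y ≠ 0 → v (x * y) = v x + v y

lemma IsVal.one {L : Type*} [Field L] {v : L → ℤ} (h : IsVal v) : v 1 = 0 := by
  have := h 1 1 one_ne_zero one_ne_zero
  rw [mul_one] at this
  exact left_eq_add.1 this

lemma IsVal.pow {L : Type*} [Field L] {v : L → ℤ} (h : IsVal v) {x : L} (hx : x ≠ 0) (n : ℕ) :
    v (x ^ n) = n * v x := by
  induction n with
  | zero => rw [pow_zero, h.one, Nat.cast_zero, zero_mul]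
  | succ n ih =>
    rw [pow_succ, h _ _ (pow_ne_zero _ hx) hx, ih]
    push_cast
    ring

/-- the degree of the norm -/
lemma exists_val_of_finite {K L : Type*} [Field K] [Field L] [Algebra K L] {x : L}
    (hx : Transcendental K x) [FiniteDimensional K⟮x⟯ L] : ∃ v : L → ℤ, IsVal v ∧ v x ≠ 0 := by
  let e := RatFunc.algEquivOfTranscendental x hx
  refine ⟨fun y => (e.symm (Algebra.norm K⟮x⟯ y)).intDegree, ?_, ?_⟩
  · intro y z hy hz
    show (e.symm (Algebra.norm K⟮x⟯ (y * z))).intDegree = _
    rw [map_mul, map_mul, RatFunc.intDegree_mul]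
    · intro hc
      rw [map_eq_zero, Algebra.norm_eq_zero_iff] at hc
      exact hy hc
    · intro hc
      rw [map_eq_zero, Algebra.norm_eq_zero_iff] at hc
      exact hz hc
  · show (e.symm (Algebra.norm K⟮x⟯ x)).intDegree ≠ 0
    have h1 : Algebra.norm K⟮x⟯ x = (AdjoinSimple.gen K x) ^ Module.finrank K⟮x⟯ L := by
      have h2 := Algebra.norm_algebraMap (S := L) (AdjoinSimple.gen K x)
      rwa [AdjoinSimple.algebraMap_gen] at h2
    have h3 : e.symm (AdjoinSimple.gen K x) = RatFunc.X := by
      rw [AlgEquiv.symm_apply_eq]
      apply Subtype.ext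
      rw [RatFunc.algEquivOfTranscendental_X]
      rfl
    rw [h1, map_pow, h3]
    have h4 : ∀ n : ℕ, ((RatFunc.X : RatFunc K) ^ n).intDegree = n := by
      intro n
      induction n with
      | zero => rw [pow_zero, RatFunc.intDegree_one]; rfl
      | succ n ih =>
        rw [pow_succ, RatFunc.intDegree_mul (pow_ne_zero _ RatFunc.X_ne_zero) RatFunc.X_ne_zero, ih,
          RatFunc.intDegree_X]
        push_cast
        rfl
    rw [h4]
    exact_mod_cast (Module.finrank_pos (R := K⟮x⟯) (M := L)).ne'

open scoped algebraAdjoinAdjoin in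
/-- a finitely generated field and a transcendental element -/
theorem exists_val {F L : Type*} [Field F] [Field L] [Algebra F L] (S : Set L) (hSf : S.Finite)
    (hS : IntermediateField.adjoin F S = ⊤) {x : L} (hx : Transcendental F x) :
    ∃ v : L → ℤ, IsVal v ∧ v x ≠ 0 := by
  have h1 : AlgebraicIndepOn F id ({x} : Set L) := by
    exact (algebraicIndependent_singleton_iff (⟨x, rfl⟩ : ({x} : Set L))).2 hx
  obtain ⟨t, hst, ht⟩ := exists_isTranscendenceBasis_superset h1
  have hxt : x ∈ t := hst rfl
  set K : IntermediateField F L := IntermediateField.adjoin F (t \ {x}) with hK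
  have hxK : Transcendental K x := by
    have h2 := ht.1.transcendental_adjoin (s := {i : t | (i : L) ≠ x}) (i := ⟨x, hxt⟩)
      (by simp)
    have h3 : ((↑) : t → L) '' {i : t | (i : L) ≠ x} = t \ {x} := by
      ext y
      constructor
      · rintro ⟨i, hi, rfl⟩
        exact ⟨i.2, hi⟩
      · rintro ⟨hy1, hy2⟩
        exact ⟨⟨y, hy1⟩, hy2, rfl⟩
    rw [h3] at h2
    exact h2.extendScalars _
  haveI : FiniteDimensional K⟮x⟯ L := by
    have halg := ht.isAlgebraic_field
    rw [Subtype.range_coe] at halg
    have h2 : ∀ y : L, IsIntegral K⟮x⟯ y := by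
      intro y
      have h3 : IsAlgebraic (IntermediateField.adjoin F t) y := halg.isAlgebraic y
      have h4 : IntermediateField.adjoin F t ≤ (K⟮x⟯).restrictScalars F := by
        rw [IntermediateField.adjoin_le_iff]
        intro z hz
        by_cases hzx : z = x
        · rw [hzx]
          exact IntermediateField.mem_adjoin_simple_self K x
        · have h5 : z ∈ K := IntermediateField.subset_adjoin F _ ⟨hz, hzx⟩
          exact (K⟮x⟯).algebraMap_mem ⟨z, h5⟩
      have h5 : IsAlgebraic ((K⟮x⟯).restrictScalars F) y := by
        letI : Algebra (IntermediateField.adjoin F t) ((K⟮x⟯).restrictScalars F) :=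
          (IntermediateField.inclusion h4).toRingHom.toAlgebra
        haveI : IsScalarTower (IntermediateField.adjoin F t) ((K⟮x⟯).restrictScalars F) L :=
          IsScalarTower.of_algebraMap_eq (congrFun rfl)
        exact h3.extendScalars (IntermediateField.inclusion h4).injective
      exact h5.isIntegral
    have h3 : FiniteDimensional K⟮x⟯ (IntermediateField.adjoin K⟮x⟯ S) := by
      haveI := hSf.to_subtype
      exact IntermediateField.finiteDimensional_adjoin (fun y _ => h2 y)
    have h4 : IntermediateField.adjoin K⟮x⟯ S = ⊤ := by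
      rw [eq_top_iff]
      intro y _
      have h5 : y ∈ IntermediateField.adjoin F S := by rw [hS]; trivial
      have h6 : IntermediateField.adjoin F S ≤
          ((IntermediateField.adjoin K⟮x⟯ S).restrictScalars K).restrictScalars F := by
        rw [IntermediateField.adjoin_le_iff]
        exact IntermediateField.subset_adjoin _ _
      exact h6 h5
    rw [h4] at h3
    exact Module.Finite.equiv (IntermediateField.topEquiv (F := K⟮x⟯) (E := L)).toLinearEquiv
  exact exists_val_of_finite hxK

end Pool.Agent.Y72.Log
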