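import Pool.Agent.Y72.Log.Block

/-!
# Words whose product is not a `p`-th power
-/

set_option autoImplicit false
set_option linter.unusedSectionVars false

namespace Pool.Agent.Y72.Log

open Finset Pool.Agent.H23R2 H219.Wh
open scoped Classical

section psi

variable {Γ : Type*} [Group Γ] {N : ℕ} [NeZero N] {M : Type*} [AddCommGroup M]
  [Module (ZMod N) M]

lemma Psi'_shift_gen {F : Γ → Γ → M} (hF : IsCoc F) (c : ZMod N) (g : ZMod N → Γ) :
    Psi' F (shift c g) = Psi' F g - c • F (W g 0) (W g 0) := by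
  unfold Psi'
  simp_rw [phi_shift]
  have h : ∑ k : ZMod N, k • phi F g (k + c) = ∑ k : ZMod N, (k - c) • phi F g k := by
    refine Fintype.sum_equiv (Equiv.addRight c) _ _ ?_
    intro k
    simp
  rw [h]
  simp_rw [sub_smul]
  rw [Finset.sum_sub_distrib, ← Finset.smul_sum, sum_phi hF]

end psi

section cls

variable {Γ : Type*} [Group Γ]

/-- a conjugation invariant predicate which does not hold for `p`-th powers -/
structure IsCls (p : ℕ) (P : Γ → Prop) : Prop where
  conj : ∀ w x, P w → P (x⁻¹ * w * x)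
  npow : ∀ x, ¬ P (x ^ p)

variable {p : ℕ} {P : Γ → Prop}

lemma IsCls.conj_iff (hP : IsCls p P) (w x : Γ) : P (x⁻¹ * w * x) ↔ P w := by
  constructor
  · intro h
    have := hP.conj _ x⁻¹ h
    have h2 : x⁻¹⁻¹ * (x⁻¹ * w * x) * x⁻¹ = w := by group
    rwa [h2] at this
  · exact hP.conj w x

lemma IsCls.not_one (hP : IsCls p P) : ¬ P 1 := by
  have := hP.npow 1
  rwa [one_pow] at this

lemma IsCls.W_iff (hP : IsCls p P) {N : ℕ} [NeZero N] (g : ZMod N → Γ) (k : ZMod N) :
    P (W g k) ↔ P (W g 0) := by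
  have h := W_add g 0 k.val
  rw [zero_add, ZMod.natCast_zmod_val] at h
  rw [← h]
  exact hP.conj_iff _ _

lemma IsCls.shift_iff (hP : IsCls p P) {N : ℕ} [NeZero N] (g : ZMod N → Γ) (c : ZMod N) :
    P (W (shift c g) 0) ↔ P (W g 0) := by
  rw [W_shift, zero_add]
  exact hP.W_iff g c

lemma IsCls.fr (hp : p.Prime) (hP : IsCls p P) {N i : ℕ} (hN : N = p ^ (i + 1))
    (g : ZMod N → Γ) (hg : P (W g 0)) : Fr g := by
  subst hN
  haveI : Fact p.Prime := ⟨hp⟩
  by_contra hc
  rw [not_Fr_iff hp] at hc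
  obtain ⟨o, rfl⟩ := exists_pull g hc
  rw [W_pull] at hg
  exact hP.npow _ hg

end cls

end Pool.Agent.Y72.Log
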